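import Pool.Agent.Y995.TP.FastF
import Pool.Agent.Y41.EV.ManyP
import Pool.Agent.Y287.EV.FtOpen
import Pool.Agent.Y287.EV.BadVO
import Pool.Agent.Y858.EV.FtLat
import Pool.Agent.Y758.EV.LatV
import Pool.Agent.Y988.EV.Ftm
import Pool.Agent.Y941.EV.Fm1
import Pool.Agent.Z864.EV.BadVM
import Pool.Agent.Y490.EV.FM2
import Pool.Agent.Y490.EV.FM2P
import Pool.Agent.Y985.ME.Top

/-!
Fast times: all inputs put together (nothing is assumed).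
-/

set_option autoImplicit false

namespace Pool.Agent.Y995.TP

open H984N Pool.Agent.Y985.ME Pool.Agent.Y41.EV
open MeasureTheory Filter Topology

theorem fast_top : ∃ c C θ0 : ℝ, 0 < c ∧ 0 < C ∧ 0 < θ0 ∧ C * θ0 ^ (7/3 : ℝ) < 1 ∧ ∀ R : Rect,
    (∀ δ : ℕ → ℝ, (∀ i, 0 < δ i) → Tendsto δ atTop (𝓝 0) →
      ∃ φ : ℕ → ℕ, StrictMono φ ∧ ∃ μ : ProbabilityMeasure X,
        Tendsto (fun i => R.law (δ (φ i))) atTop (𝓝 μ)) ∧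
    ∀ δ : ℕ → ℝ, (∀ i, 0 < δ i) → Tendsto δ atTop (𝓝 0) → ∀ μ : ProbabilityMeasure X,
      Tendsto (fun i => R.law (δ i)) atTop (𝓝 μ) →
      ∀ᵐ p ∂(μ : Measure X), 0 < p.2 ∧ (∀ E : Set unitInterval, dimH (p.1 '' E) = 7 / 4 * dimH E) ∧
        ∀ θ : ℝ, 0 < θ → θ ≤ θ0 → dimH (Ft θ p) ≤ ENNReal.ofReal (1 - c * θ ^ (7/3 : ℝ)) ∧
          ∀ s t : unitInterval, s < t →
            ENNReal.ofReal (1 - C * θ ^ (7/3 : ℝ)) ≤ dimH (Set.Icc s t ∩ Ft θ p) := by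
  obtain ⟨⟨c, hc, hL⟩, ⟨C, hC, hU⟩, -⟩ := inputs
  have hfm : FM := Pool.Agent.Y490.EV.fm2 Pool.Agent.Y941.EV.t_FM1 Pool.Agent.Y490.EV.fm2p
    s_blk s_fm C hC hU
  exact fast_times
    (Pool.Agent.Y758.EV.latv manyp Pool.Agent.Z864.EV.badvm c C hc hC hL hU)
    (Pool.Agent.Y858.EV.ftlat hfm Pool.Agent.Y988.EV.ftm)
    Pool.Agent.Y287.EV.badvo Pool.Agent.Y287.EV.ftopen

end Pool.Agent.Y995.TP
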