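import Mathlib

/-!
Elementary asymptotics.
-/

set_option autoImplicit false
set_option linter.unusedVariables false

namespace Pool.Agent.Y995.TP

open Filter Topology

theorem lin_exp {B c : ℝ} (hB : 0 < B) (hc : 0 < c) :
    ∀ᶠ j : ℕ in atTop, B * (6 * (j : ℝ) + 36) ≤ Real.exp (c * j) := by
  obtain ⟨n, hn⟩ := exists_nat_gt (24 * B / c ^ 2)
  filter_upwards [eventually_ge_atTop n, eventually_ge_atTop 6] with j h1 h2
  have h3 : (n : ℝ) ≤ j := by exact_mod_cast h1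
  have h4 : (6 : ℝ) ≤ j := by exact_mod_cast h2
  have h5 : 24 * B ≤ j * c ^ 2 := by
    have := (hn.le.trans h3)
    rwa [div_le_iff₀ (by positivity)] at this
  have h6 := Real.quadratic_le_exp_of_nonneg (show 0 ≤ c * j by positivity)
  have h7 : 24 * B * j ≤ j * c ^ 2 * j := mul_le_mul_of_nonneg_right h5 (by positivity)
  nlinarith

/-- number of trials -/
noncomputable def kt (q : ℝ) (j : ℕ) : ℕ := 20 + ⌈q * Real.sqrt j⌉₊

theorem kt_ge (q : ℝ) (j : ℕ) : 20 ≤ kt q j := by unfold kt; omega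

theorem kt_low (q : ℝ) (j : ℕ) : q * Real.sqrt j ≤ kt q j := by
  have := Nat.le_ceil (q * Real.sqrt j)
  unfold kt
  push_cast
  linarith

theorem kt_sq {q : ℝ} (hq : 0 < q) (j : ℕ) : ((kt q j : ℕ) : ℝ) ^ 2 ≤ 2 * q ^ 2 * j + 882 := by
  have h1 : ((kt q j : ℕ) : ℝ) ≤ q * Real.sqrt j + 21 := by
    have := (Nat.ceil_lt_add_one (show 0 ≤ q * Real.sqrt j by positivity)).le
    unfold kt
    push_cast
    linarith
  have h2 : (0 : ℝ) ≤ ((kt q j : ℕ) : ℝ) := Nat.cast_nonneg _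
  have h3 : ((kt q j : ℕ) : ℝ) ^ 2 ≤ (q * Real.sqrt j + 21) ^ 2 := pow_le_pow_left₀ h2 h1 2
  have h4 : (q * Real.sqrt j) ^ 2 = q ^ 2 * j := by
    rw [mul_pow, Real.sq_sqrt (Nat.cast_nonneg _)]
  nlinarith [sq_nonneg (q * Real.sqrt j - 21)]

/-- duration parameter -/
noncomputable def hj (K A q : ℝ) (j : ℕ) : ℝ :=
  A * (((((1:ℝ)/2) ^ j * Real.exp (2 * (K * ((kt q j : ℕ) : ℝ) ^ 2))) ^ (7/4 : ℝ)) *
    ((6 * j + 36 : ℕ) : ℝ))

/-- occupation parameter -/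
noncomputable def tj (κ q : ℝ) (j : ℕ) : ℝ :=
  κ * (((kt q j : ℕ) : ℝ) ^ (1/4 : ℝ) * (((1:ℝ)/2) ^ j) ^ (7/4 : ℝ))

theorem hj_pos {K A q : ℝ} (hA : 0 < A) (j : ℕ) : 0 < hj K A q j := by
  unfold hj; positivity

theorem tj_pos {κ q : ℝ} (hκ : 0 < κ) (j : ℕ) : 0 < tj κ q j := by
  have h : 0 < ((kt q j : ℕ) : ℝ) := by
    have := kt_ge q j
    exact_mod_cast (by omega : 0 < kt q j)
  unfold tj; positivity

theorem half_pow (j : ℕ) : ((1:ℝ)/2) ^ j = Real.exp (-(Real.log 2 * j)) := by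
  rw [Real.exp_neg, mul_comm, Real.exp_nat_mul, Real.exp_log (by norm_num)]
  rw [one_div, inv_pow]

theorem EE_le {K q : ℝ} (hK : 1 ≤ K) (hq : 0 < q) (j : ℕ) :
    Real.exp (2 * (K * ((kt q j : ℕ) : ℝ) ^ 2)) ≤
      Real.exp (1764 * K) * Real.exp (4 * (K * q ^ 2) * j) := by
  rw [← Real.exp_add]
  refine Real.exp_le_exp.mpr ?_
  have h1 := kt_sq hq j
  nlinarith [mul_le_mul_of_nonneg_left h1 (show 0 ≤ K by linarith)]

theorem wE_le {K q : ℝ} (hK : 1 ≤ K) (hq : 0 < q) (hKq : K * q ^ 2 ≤ 1/48) (j : ℕ) :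
    ((1:ℝ)/2) ^ j * Real.exp (2 * (K * ((kt q j : ℕ) : ℝ) ^ 2)) ≤
      Real.exp (1764 * K) * Real.exp (-(3/5 * j)) := by
  have h1 : ((1:ℝ)/2) ^ j ≤ Real.exp (-(69/100 * j)) := by
    rw [half_pow]
    refine Real.exp_le_exp.mpr ?_
    have h2 := Real.log_two_gt_d9
    have h3 : (0:ℝ) ≤ j := Nat.cast_nonneg _
    nlinarith
  have h4 : Real.exp (4 * (K * q ^ 2) * j) ≤ Real.exp (9/100 * j) := by
    refine Real.exp_le_exp.mpr ?_
    have h3 : (0:ℝ) ≤ j := Nat.cast_nonneg _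
    nlinarith
  calc ((1:ℝ)/2) ^ j * Real.exp (2 * (K * ((kt q j : ℕ) : ℝ) ^ 2))
      ≤ Real.exp (-(69/100 * j)) * (Real.exp (1764 * K) * Real.exp (9/100 * j)) :=
        mul_le_mul h1 ((EE_le hK hq j).trans (mul_le_mul_of_nonneg_left h4 (Real.exp_nonneg _)))
          (Real.exp_nonneg _) (Real.exp_nonneg _)
    _ = Real.exp (1764 * K) * (Real.exp (-(69/100 * j)) * Real.exp (9/100 * j)) := by ring
    _ = _ := by
        rw [← Real.exp_add]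
        congr 2
        ring

theorem wE_lim {K q : ℝ} (hK : 1 ≤ K) (hq : 0 < q) (hKq : K * q ^ 2 ≤ 1/48) :
    Tendsto (fun j : ℕ => ((1:ℝ)/2) ^ j * Real.exp (2 * (K * ((kt q j : ℕ) : ℝ) ^ 2))) atTop
      (𝓝 0) := by
  refine squeeze_zero (fun j => by positivity) (wE_le hK hq hKq) ?_
  have h1 : Tendsto (fun j : ℕ => (Real.exp (-(3/5))) ^ j) atTop (𝓝 0) :=
    tendsto_pow_atTop_nhds_zero_of_lt_one (Real.exp_nonneg _) (by
      rw [Real.exp_lt_one_iff]; norm_num)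
  have h2 := h1.const_mul (Real.exp (1764 * K))
  rw [mul_zero] at h2
  refine h2.congr fun j => ?_
  rw [← Real.exp_nat_mul]
  congr 2
  ring

theorem hj_small {K A q : ℝ} (hK : 1 ≤ K) (hA : 0 < A) (hq : 0 < q) (hKq : K * q ^ 2 ≤ 1/48)
    {c : ℝ} (hc : 0 < c) : ∀ᶠ j : ℕ in atTop, c * hj K A q j ≤ Real.exp (-(j : ℝ)) := by
  filter_upwards [lin_exp (B := c * A * Real.exp (1764 * K * (7/4))) (c := 1/20) (by positivity)
    (by norm_num)] with j hj'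
  have h1 : ((((1:ℝ)/2) ^ j * Real.exp (2 * (K * ((kt q j : ℕ) : ℝ) ^ 2))) ^ (7/4 : ℝ)) ≤
      Real.exp (1764 * K * (7/4)) * Real.exp (-(21/20 * j)) := by
    have h2 := Real.rpow_le_rpow (by positivity) (wE_le hK hq hKq j) (show (0:ℝ) ≤ 7/4 by norm_num)
    rw [Real.mul_rpow (Real.exp_nonneg _) (Real.exp_nonneg _), ← Real.exp_mul,
      ← Real.exp_mul] at h2
    refine h2.trans (le_of_eq ?_)
    congr 2
    ring
  unfold hj
  push_cast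
  calc c * (A * (((((1:ℝ)/2) ^ j * Real.exp (2 * (K * ((kt q j : ℕ) : ℝ) ^ 2))) ^ (7/4 : ℝ)) *
        (6 * (j : ℝ) + 36)))
      ≤ c * (A * ((Real.exp (1764 * K * (7/4)) * Real.exp (-(21/20 * j))) *
        (6 * (j : ℝ) + 36))) := by gcongr
    _ = (c * A * Real.exp (1764 * K * (7/4)) * (6 * (j : ℝ) + 36)) * Real.exp (-(21/20 * j)) := by
        ring
    _ ≤ Real.exp (1/20 * j) * Real.exp (-(21/20 * j)) :=
        mul_le_mul_of_nonneg_right hj' (Real.exp_nonneg _)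
    _ = _ := by
        rw [← Real.exp_add]
        congr 1
        ring

theorem hj_lim {K A q : ℝ} (hK : 1 ≤ K) (hA : 0 < A) (hq : 0 < q) (hKq : K * q ^ 2 ≤ 1/48) :
    Tendsto (hj K A q) atTop (𝓝 0) := by
  have h0 : ∀ᶠ j : ℕ in atTop, hj K A q j ≤ Real.exp (-(j : ℝ)) := by
    filter_upwards [hj_small hK hA hq hKq one_pos] with j h
    rwa [one_mul] at h
  refine squeeze_zero' (Eventually.of_forall fun j => (hj_pos hA j).le) h0 ?_
  have h1 : Tendsto (fun j : ℕ => (Real.exp (-1)) ^ j) atTop (𝓝 0) :=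
    tendsto_pow_atTop_nhds_zero_of_lt_one (Real.exp_nonneg _) (by
      rw [Real.exp_lt_one_iff]; norm_num)
  refine h1.congr fun j => ?_
  rw [← Real.exp_nat_mul]
  congr 1
  ring

theorem ht_le {K A κ q : ℝ} (hK : 1 ≤ K) (hA : 0 < A) (hκ : 0 < κ) (hq : 0 < q) (j : ℕ) :
    hj K A q j / tj κ q j ≤ A / κ * Real.exp (1764 * K * (7/4)) * (6 * (j : ℝ) + 36) *
      Real.exp (7 * (K * q ^ 2) * j) := by
  have hk : (1:ℝ) ≤ ((kt q j : ℕ) : ℝ) := by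
    have := kt_ge q j
    exact_mod_cast (by omega : 1 ≤ kt q j)
  have hk4 : 1 ≤ ((kt q j : ℕ) : ℝ) ^ (1/4 : ℝ) := Real.one_le_rpow hk (by norm_num)
  have hw : 0 < (((1:ℝ)/2) ^ j) ^ (7/4 : ℝ) := by positivity
  have h1 : Real.exp (2 * (K * ((kt q j : ℕ) : ℝ) ^ 2)) ^ (7/4 : ℝ) ≤
      Real.exp (1764 * K * (7/4)) * Real.exp (7 * (K * q ^ 2) * j) := by
    have h2 := Real.rpow_le_rpow (Real.exp_nonneg _) (EE_le hK hq j)
      (show (0:ℝ) ≤ 7/4 by norm_num)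
    rw [Real.mul_rpow (Real.exp_nonneg _) (Real.exp_nonneg _), ← Real.exp_mul,
      ← Real.exp_mul, ← Real.exp_mul] at h2
    rw [← Real.exp_mul]
    refine h2.trans (le_of_eq ?_)
    congr 2
    ring
  rw [div_le_iff₀ (tj_pos hκ j)]
  unfold hj tj
  rw [Real.mul_rpow (by positivity) (Real.exp_nonneg _)]
  push_cast
  calc A * ((((((1:ℝ)/2) ^ j) ^ (7/4 : ℝ)) *
        Real.exp (2 * (K * ((kt q j : ℕ) : ℝ) ^ 2)) ^ (7/4 : ℝ)) * (6 * (j : ℝ) + 36))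
      ≤ A * ((((((1:ℝ)/2) ^ j) ^ (7/4 : ℝ)) *
        (Real.exp (1764 * K * (7/4)) * Real.exp (7 * (K * q ^ 2) * j))) * (6 * (j : ℝ) + 36)) := by
        gcongr
    _ = (A * Real.exp (1764 * K * (7/4)) * (6 * (j : ℝ) + 36) * Real.exp (7 * (K * q ^ 2) * j) *
        (((1:ℝ)/2) ^ j) ^ (7/4 : ℝ)) * 1 := by ring
    _ ≤ (A * Real.exp (1764 * K * (7/4)) * (6 * (j : ℝ) + 36) * Real.exp (7 * (K * q ^ 2) * j) *
        (((1:ℝ)/2) ^ j) ^ (7/4 : ℝ)) * ((kt q j : ℕ) : ℝ) ^ (1/4 : ℝ) :=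
        mul_le_mul_of_nonneg_left hk4 (by positivity)
    _ = _ := by field_simp

theorem star {K A κ q : ℝ} (hK : 1 ≤ K) (hA : 0 < A) (hκ : 0 < κ) (hq : 0 < q)
    (hKq : K * q ^ 2 ≤ 1/48) {c : ℝ} (hc : 0 < c) : ∀ᶠ j : ℕ in atTop,
      100 * ((c * hj K A q j) ^ (1 - (1 - 24 * (K * q ^ 2))) * (hj K A q j / tj κ q j)) ≤ 1 := by
  have hKq0 : 0 < K * q ^ 2 := by positivity
  filter_upwards [hj_small hK hA hq hKq hc, lin_exp (B := 100 * (A / κ * Real.exp (1764 * K * (7/4))))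
    (c := 17 * (K * q ^ 2)) (by positivity) (by positivity)] with j h1 h2
  have h3 : (c * hj K A q j) ^ (1 - (1 - 24 * (K * q ^ 2))) ≤ Real.exp (-(24 * (K * q ^ 2) * j)) := by
    have h4 := Real.rpow_le_rpow (mul_pos hc (hj_pos hA j)).le h1
      (show 0 ≤ 1 - (1 - 24 * (K * q ^ 2)) by nlinarith)
    rw [← Real.exp_mul] at h4
    refine h4.trans (le_of_eq ?_)
    congr 1
    ring
  have h5 := ht_le hK hA hκ hq j
  have h6 : 0 ≤ hj K A q j / tj κ q j := (div_pos (hj_pos hA j) (tj_pos hκ j)).le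
  calc 100 * ((c * hj K A q j) ^ (1 - (1 - 24 * (K * q ^ 2))) * (hj K A q j / tj κ q j))
      ≤ 100 * (Real.exp (-(24 * (K * q ^ 2) * j)) * (A / κ * Real.exp (1764 * K * (7/4)) *
        (6 * (j : ℝ) + 36) * Real.exp (7 * (K * q ^ 2) * j))) := by
        gcongr
    _ = (100 * (A / κ * Real.exp (1764 * K * (7/4))) * (6 * (j : ℝ) + 36)) *
        (Real.exp (-(24 * (K * q ^ 2) * j)) * Real.exp (7 * (K * q ^ 2) * j)) := by ring
    _ ≤ Real.exp (17 * (K * q ^ 2) * j) *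
        (Real.exp (-(24 * (K * q ^ 2) * j)) * Real.exp (7 * (K * q ^ 2) * j)) :=
        mul_le_mul_of_nonneg_right h2 (by positivity)
    _ = 1 := by
        rw [← Real.exp_add, ← Real.exp_add, Real.exp_eq_one_iff]
        ring

theorem pr_small {A : ℝ} (hA : 0 < A) (j : ℕ) :
    A / (((1:ℝ)/2) ^ j) ^ 2 * (1/2) ^ (6 * j + 36) ≤ A * Real.exp (-2 * (1 * (j : ℝ))) := by
  have h1 : A / (((1:ℝ)/2) ^ j) ^ 2 * (1/2) ^ (6 * j + 36) =
      A * ((1/2) ^ 36 * (((1:ℝ)/2) ^ j) ^ 4) := by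
    have e : ((1:ℝ)/2) ^ (6 * j + 36) = (1/2) ^ 36 * (((1:ℝ)/2) ^ j) ^ 6 := by
      rw [pow_add, mul_comm 6 j, pow_mul]; ring
    have h0 : (((1:ℝ)/2) ^ j) ≠ 0 := by positivity
    rw [e]
    field_simp
  rw [h1]
  refine mul_le_mul_of_nonneg_left ?_ hA.le
  have h2 : (((1:ℝ)/2) ^ j) ^ 4 ≤ Real.exp (-2 * (1 * (j : ℝ))) := by
    rw [half_pow, ← Real.exp_nat_mul]
    refine Real.exp_le_exp.mpr ?_
    have := Real.log_two_gt_d9
    have h3 : (0:ℝ) ≤ j := Nat.cast_nonneg _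
    push_cast
    nlinarith
  have h4 : ((1:ℝ)/2) ^ 36 ≤ 1 := by norm_num
  have h5 : 0 ≤ (((1:ℝ)/2) ^ j) ^ 4 := by positivity
  nlinarith

end Pool.Agent.Y995.TP
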