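import Pool.Agent.Y995.TP.Asy

/-!
Elementary asymptotics for the fast times.
-/

set_option autoImplicit false
set_option linter.unusedVariables false

namespace Pool.Agent.Y995.TP

open Filter Topology

/-- length of the chain -/
noncomputable def kf (q : ℝ) (j : ℕ) : ℕ := ⌈q * (j : ℝ)⌉₊ + 1

theorem kf_ge (q : ℝ) (j : ℕ) : 1 ≤ kf q j := by unfold kf; omega

theorem kf_low (q : ℝ) (j : ℕ) : q * (j : ℝ) ≤ kf q j := by
  have := Nat.le_ceil (q * (j : ℝ))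
  unfold kf
  push_cast
  linarith

theorem kf_up {q : ℝ} (hq : 0 < q) (j : ℕ) : ((kf q j : ℕ) : ℝ) ≤ q * (j : ℝ) + 2 := by
  have := (Nat.ceil_lt_add_one (show 0 ≤ q * (j : ℝ) by positivity)).le
  unfold kf
  push_cast
  linarith

/-- duration of the pieces -/
noncomputable def hf (K A q : ℝ) (j : ℕ) : ℝ :=
  A * ((((1:ℝ)/2) ^ j * Real.exp (2 * (K * ((kf q j : ℕ) : ℝ)))) ^ (7/4 : ℝ) *
    ((6 * j + 36 : ℕ) : ℝ))

/-- duration of the fast pairs -/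
noncomputable def tf (θ q : ℝ) (j : ℕ) : ℝ :=
  θ * (((kf q j : ℕ) : ℝ) ^ (-(3/4) : ℝ) * (((1:ℝ)/2) ^ j) ^ (7/4 : ℝ))

theorem hf_pos {K A q : ℝ} (hA : 0 < A) (j : ℕ) : 0 < hf K A q j := by
  unfold hf; positivity

theorem tf_pos {θ q : ℝ} (hθ : 0 < θ) (j : ℕ) : 0 < tf θ q j := by
  have h : 0 < ((kf q j : ℕ) : ℝ) := by
    have := kf_ge q j
    exact_mod_cast (by omega : 0 < kf q j)
  unfold tf; positivity

theorem EF_le {K q : ℝ} (hK : 1 ≤ K) (hq : 0 < q) (j : ℕ) :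
    Real.exp (2 * (K * ((kf q j : ℕ) : ℝ))) ≤ Real.exp (4 * K) * Real.exp (2 * (K * q) * j) := by
  rw [← Real.exp_add]
  refine Real.exp_le_exp.mpr ?_
  have h1 := kf_up hq j
  nlinarith [mul_le_mul_of_nonneg_left h1 (show 0 ≤ K by linarith)]

theorem wEF_le {K q : ℝ} (hK : 1 ≤ K) (hq : 0 < q) (hKq : K * q ≤ 1/48) (j : ℕ) :
    ((1:ℝ)/2) ^ j * Real.exp (2 * (K * ((kf q j : ℕ) : ℝ))) ≤
      Real.exp (4 * K) * Real.exp (-(3/5 * j)) := by
  have h3 : (0:ℝ) ≤ j := Nat.cast_nonneg _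
  have h1 : ((1:ℝ)/2) ^ j ≤ Real.exp (-(69/100 * j)) := by
    rw [half_pow]
    refine Real.exp_le_exp.mpr ?_
    have h2 := Real.log_two_gt_d9
    nlinarith
  have h4 : Real.exp (2 * (K * q) * j) ≤ Real.exp (9/100 * j) := by
    refine Real.exp_le_exp.mpr ?_
    nlinarith
  calc ((1:ℝ)/2) ^ j * Real.exp (2 * (K * ((kf q j : ℕ) : ℝ)))
      ≤ Real.exp (-(69/100 * j)) * (Real.exp (4 * K) * Real.exp (9/100 * j)) :=
        mul_le_mul h1 ((EF_le hK hq j).trans (mul_le_mul_of_nonneg_left h4 (Real.exp_nonneg _)))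
          (Real.exp_nonneg _) (Real.exp_nonneg _)
    _ = Real.exp (4 * K) * (Real.exp (-(69/100 * j)) * Real.exp (9/100 * j)) := by ring
    _ = _ := by
        rw [← Real.exp_add]
        congr 2
        ring

theorem wEF_lim {K q : ℝ} (hK : 1 ≤ K) (hq : 0 < q) (hKq : K * q ≤ 1/48) :
    Tendsto (fun j : ℕ => ((1:ℝ)/2) ^ j * Real.exp (2 * (K * ((kf q j : ℕ) : ℝ)))) atTop
      (𝓝 0) := by
  refine squeeze_zero (fun j => by positivity) (wEF_le hK hq hKq) ?_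
  have h1 : Tendsto (fun j : ℕ => (Real.exp (-(3/5))) ^ j) atTop (𝓝 0) :=
    tendsto_pow_atTop_nhds_zero_of_lt_one (Real.exp_nonneg _) (by
      rw [Real.exp_lt_one_iff]; norm_num)
  have h2 := h1.const_mul (Real.exp (4 * K))
  rw [mul_zero] at h2
  refine h2.congr fun j => ?_
  rw [← Real.exp_nat_mul]
  congr 2
  ring

theorem hf_small {K A q : ℝ} (hK : 1 ≤ K) (hA : 0 < A) (hq : 0 < q) (hKq : K * q ≤ 1/48)
    {c : ℝ} (hc : 0 < c) : ∀ᶠ j : ℕ in atTop, c * hf K A q j ≤ Real.exp (-(j : ℝ)) := by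
  filter_upwards [lin_exp (B := c * A * Real.exp (4 * K * (7/4))) (c := 1/20) (by positivity)
    (by norm_num)] with j hj'
  have h1 : (((1:ℝ)/2) ^ j * Real.exp (2 * (K * ((kf q j : ℕ) : ℝ)))) ^ (7/4 : ℝ) ≤
      Real.exp (4 * K * (7/4)) * Real.exp (-(21/20 * j)) := by
    have h2 := Real.rpow_le_rpow (by positivity) (wEF_le hK hq hKq j) (show (0:ℝ) ≤ 7/4 by norm_num)
    rw [Real.mul_rpow (Real.exp_nonneg _) (Real.exp_nonneg _), ← Real.exp_mul,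
      ← Real.exp_mul] at h2
    refine h2.trans (le_of_eq ?_)
    congr 2
    ring
  unfold hf
  push_cast
  calc c * (A * ((((1:ℝ)/2) ^ j * Real.exp (2 * (K * ((kf q j : ℕ) : ℝ)))) ^ (7/4 : ℝ) *
        (6 * (j : ℝ) + 36)))
      ≤ c * (A * ((Real.exp (4 * K * (7/4)) * Real.exp (-(21/20 * j))) *
        (6 * (j : ℝ) + 36))) := by gcongr
    _ = (c * A * Real.exp (4 * K * (7/4)) * (6 * (j : ℝ) + 36)) * Real.exp (-(21/20 * j)) := by
        ring
    _ ≤ Real.exp (1/20 * j) * Real.exp (-(21/20 * j)) :=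
        mul_le_mul_of_nonneg_right hj' (Real.exp_nonneg _)
    _ = _ := by
        rw [← Real.exp_add]
        congr 1
        ring

theorem hf_lim {K A q : ℝ} (hK : 1 ≤ K) (hA : 0 < A) (hq : 0 < q) (hKq : K * q ≤ 1/48) :
    Tendsto (hf K A q) atTop (𝓝 0) := by
  have h0 : ∀ᶠ j : ℕ in atTop, hf K A q j ≤ Real.exp (-(j : ℝ)) := by
    filter_upwards [hf_small hK hA hq hKq one_pos] with j h
    rwa [one_mul] at h
  refine squeeze_zero' (Eventually.of_forall fun j => (hf_pos hA j).le) h0 ?_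
  have h1 : Tendsto (fun j : ℕ => (Real.exp (-1)) ^ j) atTop (𝓝 0) :=
    tendsto_pow_atTop_nhds_zero_of_lt_one (Real.exp_nonneg _) (by
      rw [Real.exp_lt_one_iff]; norm_num)
  refine h1.congr fun j => ?_
  rw [← Real.exp_nat_mul]
  congr 1
  ring

theorem hr_le {K A Λ q : ℝ} (hK : 1 ≤ K) (hA : 0 < A) (hΛ : 0 < Λ) (hq : 0 < q) (j : ℕ) :
    hf K A q j / (((1:ℝ)/2) ^ j / Λ) ^ (7/4 + K * q) ≤
      A * Real.exp (4 * K * (7/4)) * Λ ^ (7/4 + K * q) * (6 * (j : ℝ) + 36) *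
      Real.exp (9/2 * (K * q) * j) := by
  have hKq0 : 0 < K * q := by positivity
  have hj0 : (0:ℝ) ≤ j := Nat.cast_nonneg _
  have hw : 0 < ((1:ℝ)/2) ^ j := by positivity
  have hw7 : 0 < (((1:ℝ)/2) ^ j) ^ (7/4 : ℝ) := by positivity
  have hΛg : 0 < Λ ^ (7/4 + K * q) := by positivity
  have h1 : Real.exp (2 * (K * ((kf q j : ℕ) : ℝ))) ^ (7/4 : ℝ) ≤
      Real.exp (4 * K * (7/4)) * Real.exp (7/2 * (K * q) * j) := by
    have h2 := Real.rpow_le_rpow (Real.exp_nonneg _) (EF_le hK hq j)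
      (show (0:ℝ) ≤ 7/4 by norm_num)
    rw [Real.mul_rpow (Real.exp_nonneg _) (Real.exp_nonneg _), ← Real.exp_mul,
      ← Real.exp_mul, ← Real.exp_mul] at h2
    rw [← Real.exp_mul]
    refine h2.trans (le_of_eq ?_)
    congr 2
    ring
  have h2 : Real.exp (-(K * q * j)) ≤ (((1:ℝ)/2) ^ j) ^ (K * q) := by
    rw [half_pow, ← Real.exp_mul]
    refine Real.exp_le_exp.mpr ?_
    have := Real.log_two_lt_d9
    nlinarith [mul_nonneg hKq0.le hj0]
  have h3 : (((1:ℝ)/2) ^ j) ^ (7/4 : ℝ) * Real.exp (-(K * q * j)) / Λ ^ (7/4 + K * q) ≤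
      (((1:ℝ)/2) ^ j / Λ) ^ (7/4 + K * q) := by
    rw [Real.div_rpow hw.le hΛ.le, Real.rpow_add hw]
    exact div_le_div_of_nonneg_right (mul_le_mul_of_nonneg_left h2 hw7.le) hΛg.le
  rw [div_le_iff₀ (by positivity)]
  unfold hf
  rw [Real.mul_rpow hw.le (Real.exp_nonneg _)]
  push_cast
  calc A * ((((1:ℝ)/2) ^ j) ^ (7/4 : ℝ) * Real.exp (2 * (K * ((kf q j : ℕ) : ℝ))) ^ (7/4 : ℝ) *
        (6 * (j : ℝ) + 36))
      ≤ A * ((((1:ℝ)/2) ^ j) ^ (7/4 : ℝ) * (Real.exp (4 * K * (7/4)) *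
        Real.exp (7/2 * (K * q) * j)) * (6 * (j : ℝ) + 36)) := by gcongr
    _ = (A * Real.exp (4 * K * (7/4)) * Λ ^ (7/4 + K * q) * (6 * (j : ℝ) + 36) *
        Real.exp (9/2 * (K * q) * j)) * ((((1:ℝ)/2) ^ j) ^ (7/4 : ℝ) *
        Real.exp (-(K * q * j)) / Λ ^ (7/4 + K * q)) := by
        have e : Real.exp (7/2 * (K * q) * j) =
            Real.exp (9/2 * (K * q) * j) * Real.exp (-(K * q * j)) := by
          rw [← Real.exp_add]; congr 1; ring
        rw [e]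
        field_simp
    _ ≤ _ := mul_le_mul_of_nonneg_left h3 (by positivity)

theorem starF {K A Λ q : ℝ} (hK : 1 ≤ K) (hA : 0 < A) (hΛ : 0 < Λ) (hq : 0 < q)
    (hKq : K * q ≤ 1/48) {c d : ℝ} (hc : 0 < c) (hd : 0 < d) : ∀ᶠ j : ℕ in atTop,
      100 * ((c * hf K A q j) ^ (1 - (1 - 6 * (K * q))) *
        (d * (hf K A q j / (((1:ℝ)/2) ^ j / Λ) ^ (7/4 + K * q)))) ≤ 1 := by
  have hKq0 : 0 < K * q := by positivity
  filter_upwards [hf_small hK hA hq hKq hc, lin_exp (B := 100 * (d * (A *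
    Real.exp (4 * K * (7/4)) * Λ ^ (7/4 + K * q))))
    (c := 3/2 * (K * q)) (by positivity) (by positivity)] with j h1 h2
  have h3 : (c * hf K A q j) ^ (1 - (1 - 6 * (K * q))) ≤ Real.exp (-(6 * (K * q) * j)) := by
    have h4 := Real.rpow_le_rpow (mul_pos hc (hf_pos hA j)).le h1
      (show 0 ≤ 1 - (1 - 6 * (K * q)) by linarith)
    rw [← Real.exp_mul] at h4
    refine h4.trans (le_of_eq ?_)
    congr 1
    ring
  have h5 := hr_le hK hA hΛ hq j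
  have h6 : 0 ≤ hf K A q j / (((1:ℝ)/2) ^ j / Λ) ^ (7/4 + K * q) := by
    have := hf_pos (K := K) (q := q) hA j
    positivity
  calc 100 * ((c * hf K A q j) ^ (1 - (1 - 6 * (K * q))) *
        (d * (hf K A q j / (((1:ℝ)/2) ^ j / Λ) ^ (7/4 + K * q))))
      ≤ 100 * (Real.exp (-(6 * (K * q) * j)) * (d * (A * Real.exp (4 * K * (7/4)) *
        Λ ^ (7/4 + K * q) * (6 * (j : ℝ) + 36) * Real.exp (9/2 * (K * q) * j)))) := by
        gcongr
    _ = (100 * (d * (A * Real.exp (4 * K * (7/4)) * Λ ^ (7/4 + K * q))) * (6 * (j : ℝ) + 36)) *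
        (Real.exp (-(6 * (K * q) * j)) * Real.exp (9/2 * (K * q) * j)) := by ring
    _ ≤ Real.exp (3/2 * (K * q) * j) *
        (Real.exp (-(6 * (K * q) * j)) * Real.exp (9/2 * (K * q) * j)) :=
        mul_le_mul_of_nonneg_right h2 (by positivity)
    _ = 1 := by
        rw [← Real.exp_add, ← Real.exp_add, Real.exp_eq_one_iff]
        ring

end Pool.Agent.Y995.TP
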