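import Mathlib

/-!
Lower bound for the Hausdorff dimension of limsup sets: nested intervals which avoid a cover.
-/

set_option autoImplicit false
set_option linter.unusedVariables false

namespace Pool.Agent.Y995.TP

open MeasureTheory Filter Topology
open scoped ENNReal NNReal

/-- the cells of the mesh `l` -/
def cell (l : ℝ) (k : ℕ) : Set ℝ := Set.Icc ((k : ℝ) * l) (((k : ℝ) + 1) * l)

/-- The sets `A j` contain many cells in every interval. -/
def Ubi (s : ℝ) (A : ℕ → Set ℝ) (a b : ℝ) : Prop :=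
  ∀ x y : ℝ, a ≤ x → x < y → y ≤ b → ∀ j0 : ℕ, ∃ j, j0 ≤ j ∧ ∃ (l : ℝ) (Q : Finset ℕ),
    0 < l ∧ 2 * l ≤ y - x ∧ (∀ k ∈ Q, cell l k ⊆ A j ∩ Set.Icc x y) ∧
    9 * ((y - x) / l) ^ s ≤ Q.card ∧
    ∀ (z d : ℝ), l ≤ d → ∀ Q' ⊆ Q, (∀ k ∈ Q', (cell l k ∩ Set.Icc z (z + d)).Nonempty) →
      (Q'.card : ℝ) ≤ 6 * (d / (y - x)) ^ s * Q.card

open Classical in
/-- cost of a set with respect to a cover by intervals -/
noncomputable def cost (s : ℝ) (z d : ℕ → ℝ) (S : Set ℝ) : ℝ≥0∞ :=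
  ∑' n, if (S ∩ Set.Icc (z n) (z n + d n)).Nonempty then ENNReal.ofReal (d n ^ s) else 0

theorem few_cells {l z d : ℝ} (hl : 0 < l) (hd : d < l) {Q : Finset ℕ}
    (h : ∀ k ∈ Q, (cell l k ∩ Set.Icc z (z + d)).Nonempty) : Q.card ≤ 3 := by
  rcases Q.eq_empty_or_nonempty with h0 | h0
  · rw [h0]; simp
  obtain ⟨k0, hk0⟩ : ∃ k0, k0 = Q.min' h0 := ⟨_, rfl⟩
  have hk0m : k0 ∈ Q := by rw [hk0]; exact Q.min'_mem h0
  have hsub : Q ⊆ Finset.Icc k0 (k0 + 1) := by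
    intro k hk
    rw [Finset.mem_Icc]
    refine ⟨by rw [hk0]; exact Q.min'_le k hk, ?_⟩
    obtain ⟨u, hu1, hu2⟩ := h k0 hk0m
    obtain ⟨v, hv1, hv2⟩ := h k hk
    have h1 : (k : ℝ) * l < ((k0 : ℝ) + 2) * l := by
      have a1 := hu1.2
      have a2 := hu2.1
      have a3 := hv1.1
      have a4 := hv2.2
      nlinarith
    have h2 : (k : ℝ) < (k0 : ℝ) + 2 := lt_of_mul_lt_mul_right h1 hl.le
    have h3 : k < k0 + 2 := by exact_mod_cast h2
    omega
  have := Finset.card_le_card hsub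
  rw [Nat.card_Icc] at this
  omega

theorem step_ex {s : ℝ} (hs : 0 < s) {A : ℕ → Set ℝ} {a b : ℝ} (h : Ubi s A a b)
    {z d : ℕ → ℝ} (hd : ∀ n, 0 < d n) {x y : ℝ} (hax : a ≤ x) (hxy : x < y) (hyb : y ≤ b)
    (hc : cost s z d (Set.Icc x y) ≤ ENNReal.ofReal ((y - x) ^ s / 18)) (j0 : ℕ) :
    ∃ j x' y', j0 ≤ j ∧ x ≤ x' ∧ x' < y' ∧ y' ≤ y ∧ 2 * (y' - x') ≤ y - x ∧
      Set.Icc x' y' ⊆ A j ∧ cost s z d (Set.Icc x' y') ≤ ENNReal.ofReal ((y' - x') ^ s / 18) := by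
  classical
  obtain ⟨j, hj, l, Q, hl, hl2, hQ, hQc, hQd⟩ := h x y hax hxy hyb j0
  obtain ⟨L, hL⟩ : ∃ L, L = y - x := ⟨_, rfl⟩
  rw [← hL] at hl2 hQc hQd hc
  have hL0 : 0 < L := by rw [hL]; linarith
  have hLs : 0 < L ^ s := Real.rpow_pos_of_pos hL0 _
  have hls : 0 < l ^ s := Real.rpow_pos_of_pos hl _
  have hQ0 : (0 : ℝ) < Q.card := lt_of_lt_of_le (by positivity) hQc
  have hQne : Q.Nonempty := by
    rw [← Finset.card_pos]; exact_mod_cast hQ0
  obtain ⟨u, hu⟩ : ∃ u : ℕ → ℝ≥0∞, u = fun n =>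
    if l ≤ d n then 1 else ENNReal.ofReal (18 * d n ^ s / l ^ s) := ⟨_, rfl⟩
  obtain ⟨F, hF⟩ : ∃ F : ℕ → ℕ → ℝ≥0∞, F = fun k n =>
    if (cell l k ∩ Set.Icc (z n) (z n + d n)).Nonempty then u n else 0 := ⟨_, rfl⟩
  have h1 : ∀ n, ∑ k ∈ Q, F k n ≤ ENNReal.ofReal (Q.card / 3 * (18 / L ^ s)) *
      (if (Set.Icc x y ∩ Set.Icc (z n) (z n + d n)).Nonempty then ENNReal.ofReal (d n ^ s)
        else 0) := by
    intro n
    obtain ⟨Q', hQ'⟩ : ∃ Q' : Finset ℕ, Q' = Q.filter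
      (fun k => (cell l k ∩ Set.Icc (z n) (z n + d n)).Nonempty) := ⟨_, rfl⟩
    have hQ'm : ∀ k ∈ Q', (cell l k ∩ Set.Icc (z n) (z n + d n)).Nonempty := by
      intro k hk
      rw [hQ', Finset.mem_filter] at hk
      exact hk.2
    have hQ's : Q' ⊆ Q := by rw [hQ']; exact Finset.filter_subset _ _
    have e1 : ∑ k ∈ Q, F k n = (Q'.card : ℝ≥0∞) * u n := by
      rw [hF, hQ', ← Finset.sum_filter, Finset.sum_const, nsmul_eq_mul]
    rw [e1]
    have hdn : 0 < d n ^ s := Real.rpow_pos_of_pos (hd n) _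
    by_cases hm : (Set.Icc x y ∩ Set.Icc (z n) (z n + d n)).Nonempty
    · rw [if_pos hm, ← ENNReal.ofReal_mul (by positivity)]
      have e2 : (Q'.card : ℝ≥0∞) = ENNReal.ofReal (Q'.card : ℝ) := by
        rw [ENNReal.ofReal_natCast]
      rw [e2, hu]
      simp only
      split_ifs with hld
      · rw [mul_one]
        refine ENNReal.ofReal_le_ofReal ((hQd (z n) (d n) hld Q' hQ's hQ'm).trans (le_of_eq ?_))
        rw [Real.div_rpow (hd n).le hL0.le]
        field_simp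
        ring
      · rw [← ENNReal.ofReal_mul (by positivity)]
        refine ENNReal.ofReal_le_ofReal ?_
        have h3 : (Q'.card : ℝ) ≤ 3 := by
          exact_mod_cast few_cells hl (not_le.mp hld) hQ'm
        rw [Real.div_rpow hL0.le hl.le] at hQc
        have h4 : 3 * (18 * d n ^ s / l ^ s) ≤ Q.card / 3 * (18 / L ^ s) * d n ^ s := by
          have h5 : 3 / l ^ s ≤ Q.card / 3 / L ^ s := by
            rw [div_le_div_iff₀ hls hLs]
            rw [← mul_div_assoc, div_le_iff₀ hls] at hQc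
            linarith
          have e3 : 3 * (18 * d n ^ s / l ^ s) = (18 * d n ^ s) * (3 / l ^ s) := by ring
          have e4 : Q.card / 3 * (18 / L ^ s) * d n ^ s = (18 * d n ^ s) * (Q.card / 3 / L ^ s) := by
            ring
          rw [e3, e4]
          exact mul_le_mul_of_nonneg_left h5 (by positivity)
        exact (mul_le_mul_of_nonneg_right h3 (by positivity)).trans h4
    · have h2 : Q' = ∅ := by
        rw [Finset.eq_empty_iff_forall_notMem]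
        intro k hk
        obtain ⟨v, hv1, hv2⟩ := hQ'm k hk
        exact hm ⟨v, (hQ k (hQ's hk) hv1).2, hv2⟩
      rw [h2]
      simp
  have h2 : ∑ k ∈ Q, ∑' n, F k n ≤ ENNReal.ofReal (Q.card / 3) := by
    have e1 : ∑ k ∈ Q, ∑' n, F k n = ∑' n, ∑ k ∈ Q, F k n :=
      (Summable.tsum_finsetSum fun _ _ => ENNReal.summable).symm
    rw [e1]
    refine (ENNReal.tsum_le_tsum h1).trans ?_
    rw [ENNReal.tsum_mul_left]
    refine (mul_le_mul_right hc _).trans (le_of_eq ?_)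
    rw [← ENNReal.ofReal_mul (by positivity)]
    congr 1
    field_simp
  obtain ⟨k, hk, hk1⟩ : ∃ k ∈ Q, ∑' n, F k n < 1 := by
    by_contra hcon
    push Not at hcon
    have h3 : ∑ k ∈ Q, (1 : ℝ≥0∞) ≤ ∑ k ∈ Q, ∑' n, F k n := Finset.sum_le_sum hcon
    rw [Finset.sum_const, nsmul_eq_mul, mul_one] at h3
    have h4 := h3.trans h2
    rw [← ENNReal.ofReal_natCast, ENNReal.ofReal_le_ofReal_iff (by positivity)] at h4
    linarith
  have hnol : ∀ n, (cell l k ∩ Set.Icc (z n) (z n + d n)).Nonempty → d n < l := by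
    intro n hn
    by_contra hcon
    push Not at hcon
    have h3 : F k n = 1 := by
      rw [hF, hu]
      simp only
      rw [if_pos hn, if_pos hcon]
    have h4 := ENNReal.le_tsum (f := fun n => F k n) n
    rw [h3] at h4
    exact absurd h4 (not_le.mpr hk1)
  have e0 : ((k : ℝ) + 1) * l - (k : ℝ) * l = l := by ring
  refine ⟨j, (k : ℝ) * l, ((k : ℝ) + 1) * l, hj, ?_, by linarith, ?_, by rw [e0, ← hL]; exact hl2,
    fun v hv => (hQ k hk hv).1, ?_⟩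
  · exact (hQ k hk ⟨le_rfl, by linarith⟩).2.1
  · exact (hQ k hk ⟨by linarith, le_rfl⟩).2.2
  · rw [e0]
    have h3 : cost s z d (Set.Icc ((k : ℝ) * l) (((k : ℝ) + 1) * l)) ≤
        ∑' n, F k n * ENNReal.ofReal (l ^ s / 18) := by
      unfold cost
      refine ENNReal.tsum_le_tsum fun n => ?_
      by_cases hn : (cell l k ∩ Set.Icc (z n) (z n + d n)).Nonempty
      · have hn' : (Set.Icc ((k : ℝ) * l) (((k : ℝ) + 1) * l) ∩
          Set.Icc (z n) (z n + d n)).Nonempty := hn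
        rw [if_pos hn', hF, hu]
        simp only
        rw [if_pos hn, if_neg (not_le.mpr (hnol n hn)), ← ENNReal.ofReal_mul
          (by have := hd n; positivity)]
        refine ENNReal.ofReal_le_ofReal (le_of_eq ?_)
        field_simp
      · have hn' : ¬ (Set.Icc ((k : ℝ) * l) (((k : ℝ) + 1) * l) ∩
          Set.Icc (z n) (z n + d n)).Nonempty := hn
        rw [if_neg hn']
        exact zero_le
    refine h3.trans ?_
    rw [ENNReal.tsum_mul_right]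
    calc (∑' n, F k n) * ENNReal.ofReal (l ^ s / 18) ≤ 1 * ENNReal.ofReal (l ^ s / 18) :=
          mul_le_mul_left hk1.le _
      _ = _ := one_mul _

theorem no_cover {s : ℝ} (hs : 0 < s) {A : ℕ → Set ℝ} {a b : ℝ} (hab : a < b) (h : Ubi s A a b)
    {z d : ℕ → ℝ} (hd : ∀ n, 0 < d n)
    (hcost : cost s z d (Set.Icc a b) ≤ ENNReal.ofReal ((b - a) ^ s / 18)) :
    ∃ p : ℝ, (p ∈ Set.Icc a b ∧ ∃ᶠ j in atTop, p ∈ A j) ∧ ∀ n, p ∉ Set.Icc (z n) (z n + d n) := by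
  classical
  obtain ⟨Inv, hInv⟩ : ∃ Inv : ℝ × ℝ × ℕ → Prop, Inv = fun q => a ≤ q.1 ∧ q.1 < q.2.1 ∧ q.2.1 ≤ b ∧
    cost s z d (Set.Icc q.1 q.2.1) ≤ ENNReal.ofReal ((q.2.1 - q.1) ^ s / 18) := ⟨_, rfl⟩
  have hInv' : ∀ q, Inv q → a ≤ q.1 ∧ q.1 < q.2.1 ∧ q.2.1 ≤ b ∧
    cost s z d (Set.Icc q.1 q.2.1) ≤ ENNReal.ofReal ((q.2.1 - q.1) ^ s / 18) := by
    intro q hq
    rw [hInv] at hq
    exact hq
  have hstep : ∀ q : {q // Inv q}, ∃ q' : {q // Inv q}, q.1.2.2 < q'.1.2.2 ∧ q.1.1 ≤ q'.1.1 ∧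
      q'.1.2.1 ≤ q.1.2.1 ∧ 2 * (q'.1.2.1 - q'.1.1) ≤ q.1.2.1 - q.1.1 ∧
      Set.Icc q'.1.1 q'.1.2.1 ⊆ A q'.1.2.2 := by
    rintro ⟨⟨x, y, j⟩, hq⟩
    have hq' := hq
    rw [hInv] at hq'
    obtain ⟨h1, h2, h3, h4⟩ := hq'
    obtain ⟨j', x', y', g1, g2, g3, g4, g5, g6, g7⟩ := step_ex hs h hd h1 h2 h3 h4 (j + 1)
    refine ⟨⟨(x', y', j'), ?_⟩, ?_, g2, g4, g5, g6⟩
    · rw [hInv]
      exact ⟨h1.trans g2, g3, g4.trans h3, g7⟩
    · show j < j'
      omega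
  choose nx hn1 hn2 hn3 hn4 hn5 using hstep
  have h0 : Inv (a, b, 0) := by
    rw [hInv]
    exact ⟨le_rfl, hab, le_rfl, hcost⟩
  obtain ⟨S, hS⟩ : ∃ S : ℕ → {q // Inv q}, S = fun n => nx^[n] ⟨(a, b, 0), h0⟩ := ⟨_, rfl⟩
  have hS0 : (S 0).1 = (a, b, 0) := by rw [hS]; rfl
  have hSn : ∀ n, S (n + 1) = nx (S n) := by
    intro n
    rw [hS]
    simp only [Function.iterate_succ_apply']
  have hprop : ∀ n, Inv (S n).1 := fun n => (S n).2
  have hx : Monotone (fun n => (S n).1.1) := monotone_nat_of_le_succ fun n => by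
    rw [hSn]; exact hn2 (S n)
  have hy : Antitone (fun n => (S n).1.2.1) := antitone_nat_of_succ_le fun n => by
    rw [hSn]; exact hn3 (S n)
  have hj : StrictMono (fun n => (S n).1.2.2) := strictMono_nat_of_lt_succ fun n => by
    rw [hSn]; exact hn1 (S n)
  have hlt : ∀ n, (S n).1.1 < (S n).1.2.1 := fun n => (hInv' _ (hprop n)).2.1
  have hxy : ∀ m n, (S m).1.1 ≤ (S n).1.2.1 := by
    intro m n
    have h1 : (S m).1.1 ≤ (S (max m n)).1.1 := hx (le_max_left _ _)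
    have h2 : (S (max m n)).1.2.1 ≤ (S n).1.2.1 := hy (le_max_right _ _)
    exact h1.trans ((hlt _).le.trans h2)
  obtain ⟨p, hp⟩ : ∃ p : ℝ, p = ⨆ n, (S n).1.1 := ⟨_, rfl⟩
  have hbdd : BddAbove (Set.range fun n => (S n).1.1) := ⟨(S 0).1.2.1, by
    rintro _ ⟨m, rfl⟩
    exact hxy m 0⟩
  have hpm : ∀ n, p ∈ Set.Icc (S n).1.1 (S n).1.2.1 := by
    intro n
    constructor
    · rw [hp]; exact le_ciSup hbdd n
    · rw [hp]; exact ciSup_le fun m => hxy m n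
  have hlen : ∀ n, (S n).1.2.1 - (S n).1.1 ≤ (b - a) / 2 ^ n := by
    intro n
    induction n with
    | zero => rw [hS0]; simp
    | succ n ih =>
      have h1 := hn4 (S n)
      rw [← hSn] at h1
      have h2 : (b - a) / 2 ^ (n + 1) = (b - a) / 2 ^ n / 2 := by
        rw [pow_succ]; field_simp
      rw [h2]
      linarith
  refine ⟨p, ⟨?_, ?_⟩, fun m hm => ?_⟩
  · have := hpm 0
    rw [hS0] at this
    exact this
  · rw [frequently_atTop]
    intro N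
    refine ⟨(S (N + 1)).1.2.2, ?_, ?_⟩
    · have h1 : N + 1 ≤ (S (N + 1)).1.2.2 := hj.id_le (N + 1)
      omega
    · have h1 := hn5 (S N)
      rw [← hSn] at h1
      exact h1 (hpm (N + 1))
  · obtain ⟨n, hn⟩ : ∃ n : ℕ, (b - a) / 2 ^ n < d m := by
      obtain ⟨n, hn⟩ := pow_unbounded_of_one_lt ((b - a) / d m) (by norm_num : (1:ℝ) < 2)
      refine ⟨n, ?_⟩
      rw [div_lt_iff₀ (by positivity)]
      rwa [div_lt_iff₀ (hd m), mul_comm] at hn
    obtain ⟨-, h2, -, h3⟩ := hInv' _ (hprop n)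
    have h4 : ENNReal.ofReal (d m ^ s) ≤ cost s z d (Set.Icc (S n).1.1 (S n).1.2.1) := by
      unfold cost
      refine le_trans ?_ (ENNReal.le_tsum m)
      rw [if_pos ⟨p, hpm n, hm⟩]
    have h5 := h4.trans h3
    have hl0 : 0 < (S n).1.2.1 - (S n).1.1 := by linarith
    rw [ENNReal.ofReal_le_ofReal_iff (by positivity)] at h5
    have h6 : d m ^ s ≤ ((S n).1.2.1 - (S n).1.1) ^ s := by
      have : 0 ≤ ((S n).1.2.1 - (S n).1.1) ^ s := by positivity
      linarith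
    have h7 : d m ≤ (S n).1.2.1 - (S n).1.1 := (Real.rpow_le_rpow_iff (hd m).le hl0.le hs).1 h6
    have := hlen n
    linarith

theorem cantor {s : ℝ} (hs : 0 < s) (hs1 : s ≤ 1) {A : ℕ → Set ℝ} {a b : ℝ} (hab : a < b)
    (h : Ubi s A a b) :
    ENNReal.ofReal s ≤ dimH {x | x ∈ Set.Icc a b ∧ ∃ᶠ j in atTop, x ∈ A j} := by
  classical
  obtain ⟨E, hE⟩ : ∃ E : Set ℝ, E = {x | x ∈ Set.Icc a b ∧ ∃ᶠ j in atTop, x ∈ A j} := ⟨_, rfl⟩
  rw [← hE]
  refine le_dimH_of_hausdorffMeasure_ne_zero (d := s.toNNReal) fun h0 => ?_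
  rw [Real.coe_toNNReal s hs.le] at h0
  obtain ⟨c0, hc0⟩ : ∃ c0 : ℝ, c0 = (b - a) ^ s / 60 := ⟨_, rfl⟩
  have hba : 0 < (b - a) ^ s := Real.rpow_pos_of_pos (by linarith) _
  have hc00 : 0 < c0 := by rw [hc0]; positivity
  have h1 : (⨅ (t : ℕ → Set ℝ) (_ : E ⊆ ⋃ n, t n) (_ : ∀ n, Metric.ediam (t n) ≤ 1),
      ∑' n, ⨆ _ : (t n).Nonempty, Metric.ediam (t n) ^ s) < ENNReal.ofReal c0 := by
    have h2 := le_iSup₂ (f := fun (r : ℝ≥0∞) (_ : 0 < r) =>
      ⨅ (t : ℕ → Set ℝ) (_ : E ⊆ ⋃ n, t n) (_ : ∀ n, Metric.ediam (t n) ≤ r),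
      ∑' n, ⨆ _ : (t n).Nonempty, Metric.ediam (t n) ^ s) 1 one_pos
    rw [← Measure.hausdorffMeasure_apply, h0] at h2
    exact lt_of_le_of_lt h2 (ENNReal.ofReal_pos.mpr hc00)
  rw [iInf_lt_iff] at h1
  obtain ⟨t, h1⟩ := h1
  rw [iInf_lt_iff] at h1
  obtain ⟨hcov, h1⟩ := h1
  rw [iInf_lt_iff] at h1
  obtain ⟨hdi, hsum⟩ := h1
  obtain ⟨D, hD⟩ : ∃ D : ℕ → ℝ, D = fun n => (Metric.ediam (t n)).toReal := ⟨_, rfl⟩
  have hD0 : ∀ n, 0 ≤ D n := fun n => by rw [hD]; exact ENNReal.toReal_nonneg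
  have hfin : ∀ n, Metric.ediam (t n) ≠ ⊤ := fun n =>
    ne_top_of_le_ne_top ENNReal.one_ne_top (hdi n)
  obtain ⟨pt, hpt⟩ : ∃ pt : ℕ → ℝ, ∀ n, ∀ x ∈ t n, |x - pt n| ≤ D n := by
    have : ∀ n, ∃ q : ℝ, ∀ x ∈ t n, |x - q| ≤ D n := by
      intro n
      rcases (t n).eq_empty_or_nonempty with h2 | ⟨q, hq⟩
      · exact ⟨0, fun x hx => by rw [h2] at hx; exact absurd hx (Set.notMem_empty _)⟩
      · refine ⟨q, fun x hx => ?_⟩
        have h2 : edist x q ≤ Metric.ediam (t n) := Metric.edist_le_ediam_of_mem hx hq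
        have h3 := ENNReal.toReal_mono (hfin n) h2
        rw [← Real.dist_eq, dist_edist, hD]
        exact h3
    choose pt hpt using this
    exact ⟨pt, hpt⟩
  obtain ⟨e, he⟩ : ∃ e : ℕ → ℝ, e = fun n => (c0 * (1/2) ^ (n + 1)) ^ (1 / s) := ⟨_, rfl⟩
  have he0 : ∀ n, 0 < e n := fun n => by rw [he]; positivity
  have hes : ∀ n, e n ^ s = c0 * (1/2) ^ (n + 1) := fun n => by
    rw [he]
    simp only
    rw [← Real.rpow_mul (by positivity), one_div_mul_cancel hs.ne', Real.rpow_one]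
  obtain ⟨z, hz⟩ : ∃ z : ℕ → ℝ, z = fun n => pt n - D n := ⟨_, rfl⟩
  obtain ⟨d, hd⟩ : ∃ d : ℕ → ℝ, d = fun n => 2 * D n + e n := ⟨_, rfl⟩
  have hd0 : ∀ n, 0 < d n := fun n => by
    rw [hd]
    have := hD0 n
    have := he0 n
    simp only
    linarith
  have hterm : ∀ n, ENNReal.ofReal (d n ^ s) ≤
      2 * (⨆ _ : (t n).Nonempty, Metric.ediam (t n) ^ s) + ENNReal.ofReal (c0 * (1/2) ^ (n + 1)) := by
    intro n
    have h2 : d n ^ s ≤ 2 * D n ^ s + e n ^ s := by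
      rw [hd]
      refine (Real.rpow_add_le_add_rpow (by have := hD0 n; positivity) (he0 n).le hs.le
        hs1).trans ?_
      have h3 : (2 * D n) ^ s ≤ 2 * D n ^ s := by
        rw [Real.mul_rpow (by norm_num) (hD0 n)]
        refine mul_le_mul_of_nonneg_right ?_ (Real.rpow_nonneg (hD0 n) _)
        calc (2:ℝ) ^ s ≤ 2 ^ (1:ℝ) := Real.rpow_le_rpow_of_exponent_le (by norm_num) hs1
          _ = 2 := Real.rpow_one 2
      linarith
    refine (ENNReal.ofReal_le_ofReal h2).trans ?_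
    rw [ENNReal.ofReal_add (by have := Real.rpow_nonneg (hD0 n) s; positivity)
      (Real.rpow_nonneg (he0 n).le _), hes]
    refine add_le_add ?_ le_rfl
    rw [ENNReal.ofReal_mul (by norm_num)]
    have e2 : ENNReal.ofReal 2 = 2 := by norm_num
    rw [e2]
    refine mul_le_mul_right ?_ _
    rcases (t n).eq_empty_or_nonempty with h3 | h3
    · have h4 : D n = 0 := by rw [hD]; simp only; rw [h3, Metric.ediam_empty]; rfl
      rw [h4, Real.zero_rpow hs.ne', ENNReal.ofReal_zero]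
      exact zero_le
    · rw [ciSup_pos h3, ← ENNReal.ofReal_rpow_of_nonneg (hD0 n) hs.le, hD]
      simp only
      rw [ENNReal.ofReal_toReal (hfin n)]
  have hcost : cost s z d (Set.Icc a b) ≤ ENNReal.ofReal ((b - a) ^ s / 18) := by
    have h2 : cost s z d (Set.Icc a b) ≤ ∑' n, ENNReal.ofReal (d n ^ s) := by
      unfold cost
      refine ENNReal.tsum_le_tsum fun n => ?_
      split_ifs
      · exact le_rfl
      · exact zero_le
    refine h2.trans ((ENNReal.tsum_le_tsum hterm).trans ?_)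
    rw [ENNReal.tsum_add, ENNReal.tsum_mul_left]
    have h3 : ∑' n, ENNReal.ofReal (c0 * (1/2) ^ (n + 1)) = ENNReal.ofReal c0 := by
      have h4 : HasSum (fun n : ℕ => c0 * ((1:ℝ)/2) ^ (n + 1)) c0 := by
        have h5 : HasSum (fun n : ℕ => ((1:ℝ)/2) ^ (n + 1)) 1 := by
          have h6 := (hasSum_geometric_two).mul_left (1/2 : ℝ)
          have e3 : (1/2 : ℝ) * 2 = 1 := by norm_num
          rw [e3] at h6
          refine h6.congr_fun ?_ |> fun x => x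
          intro n
          rw [pow_succ]; ring
        have h6 := h5.mul_left c0
        rwa [mul_one] at h6
      rw [← ENNReal.ofReal_tsum_of_nonneg (fun n => by positivity) h4.summable, h4.tsum_eq]
    rw [h3]
    have h4 : 2 * (∑' n, ⨆ _ : (t n).Nonempty, Metric.ediam (t n) ^ s) ≤
        2 * ENNReal.ofReal c0 := mul_le_mul_right hsum.le _
    refine (add_le_add h4 le_rfl).trans ?_
    have e2 : (2 : ℝ≥0∞) = ENNReal.ofReal 2 := by norm_num
    rw [e2, ← ENNReal.ofReal_mul (by norm_num), ← ENNReal.ofReal_add (by positivity) hc00.le]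
    refine ENNReal.ofReal_le_ofReal ?_
    rw [hc0]
    linarith
  obtain ⟨p, hp1, hp2⟩ := no_cover hs hab h hd0 hcost
  have hpE : p ∈ E := by rw [hE]; exact hp1
  obtain ⟨n, hn⟩ := Set.mem_iUnion.1 (hcov hpE)
  have h2 := hpt n p hn
  rw [abs_le] at h2
  refine hp2 n ?_
  rw [hz, hd]
  have := he0 n
  constructor
  · simp only; linarith
  · simp only; linarith

end Pool.Agent.Y995.TP
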