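import Pool.Agent.Y995.TP.Cantor

/-!
Counting cells.
-/

set_option autoImplicit false
set_option linter.unusedVariables false

namespace Pool.Agent.Y995.TP

open MeasureTheory Filter Topology
open scoped ENNReal NNReal

theorem count_le {c l z d : ℝ} (hl : 0 < l) (hd : 0 ≤ d) {Q : Finset ℕ}
    (h : ∀ k ∈ Q, (Set.Icc (c + k * l) (c + (k + 1) * l) ∩ Set.Icc z (z + d)).Nonempty) :
    (Q.card : ℝ) ≤ d / l + 2 := by
  rcases Q.eq_empty_or_nonempty with h0 | h0
  · rw [h0]; simp; positivity
  obtain ⟨k0, hk0⟩ : ∃ k0, k0 = Q.min' h0 := ⟨_, rfl⟩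
  obtain ⟨k1, hk1⟩ : ∃ k1, k1 = Q.max' h0 := ⟨_, rfl⟩
  have hk0m : k0 ∈ Q := by rw [hk0]; exact Q.min'_mem h0
  have hk1m : k1 ∈ Q := by rw [hk1]; exact Q.max'_mem h0
  have h01 : k0 ≤ k1 := by rw [hk0]; exact Q.min'_le k1 hk1m
  have hsub : Q ⊆ Finset.Icc k0 k1 := by
    intro k hk
    rw [Finset.mem_Icc]
    exact ⟨by rw [hk0]; exact Q.min'_le k hk, by rw [hk1]; exact Q.le_max' k hk⟩
  have hc := Finset.card_le_card hsub
  rw [Nat.card_Icc] at hc
  obtain ⟨u, hu1, hu2⟩ := h k0 hk0m
  obtain ⟨v, hv1, hv2⟩ := h k1 hk1m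
  have a1 := hu1.2
  have a2 := hu2.1
  have a3 := hv1.1
  have a4 := hv2.2
  have h1 : ((k1 : ℝ) - k0 - 1) * l ≤ d := by nlinarith
  have h2 : (k1 : ℝ) - k0 - 1 ≤ d / l := by rw [le_div_iff₀ hl]; exact h1
  have h3 : (Q.card : ℝ) ≤ (k1 : ℝ) + 1 - k0 := by
    have h4 : Q.card + k0 ≤ k1 + 1 := by omega
    have h5 : (Q.card : ℝ) + k0 ≤ k1 + 1 := by exact_mod_cast h4
    linarith
  linarith

theorem cell_count {l z d : ℝ} (hl : 0 < l) (hd : 0 ≤ d) {Q : Finset ℕ}
    (h : ∀ k ∈ Q, (cell l k ∩ Set.Icc z (z + d)).Nonempty) : (Q.card : ℝ) ≤ d / l + 2 := by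
  refine count_le (c := 0) hl hd (z := z) fun k hk => ?_
  have := h k hk
  unfold cell at this
  rwa [zero_add, zero_add]

/-- The combinatorial part: `M` pieces of length `H` with `n` cells each. -/
theorem pieces {x L H l s r : ℝ} {M n : ℕ} (hH : 0 < H) (hHL : H ≤ L / 2) (hl : 0 < l)
    (hlH : l ≤ H) (hs0 : 0 ≤ s) (hs : s ≤ 1) (hM1 : L / (2 * H) ≤ M) (hM2 : (M : ℝ) * H ≤ L)
    (hr : 0 < r) (hn : r / l ≤ n) (hstar : 100 * ((H / L) ^ (1 - s) * (H / (4 * r))) ≤ 1)
    {q : ℕ → Finset ℕ} (hq : ∀ i < M, (q i).card = n ∧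
      ∀ k ∈ q i, cell l k ⊆ Set.Icc (x + i * H) (x + (i + 1) * H)) :
    ((Finset.range M).biUnion q).card = M * n ∧
    9 * (L / l) ^ s ≤ (((Finset.range M).biUnion q).card : ℝ) ∧
    ∀ (z d : ℝ), l ≤ d → ∀ Q' ⊆ (Finset.range M).biUnion q,
      (∀ k ∈ Q', (cell l k ∩ Set.Icc z (z + d)).Nonempty) →
      (Q'.card : ℝ) ≤ 6 * (d / L) ^ s * (((Finset.range M).biUnion q).card : ℝ) := by
  classical
  have hL : 0 < L := by linarith
  have hcard : ((Finset.range M).biUnion q).card = M * n := by
    rw [Finset.card_biUnion]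
    · rw [Finset.sum_congr rfl fun i hi => (hq i (Finset.mem_range.1 hi)).1, Finset.sum_const,
        Finset.card_range, smul_eq_mul]
    · intro i hi j hj hij
      change Disjoint (q i) (q j)
      rw [Finset.disjoint_left]
      intro k hki hkj
      have hi' := Finset.mem_range.1 (Finset.mem_coe.1 hi)
      have hj' := Finset.mem_range.1 (Finset.mem_coe.1 hj)
      have h1 := (hq i hi').2 k hki
      have h2 := (hq j hj').2 k hkj
      have hleft : (k : ℝ) * l ∈ cell l k := ⟨le_rfl, by nlinarith⟩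
      have hright : ((k : ℝ) + 1) * l ∈ cell l k := ⟨by nlinarith, le_rfl⟩
      have a1 := h1 hleft
      have a2 := h1 hright
      have b1 := h2 hleft
      have b2 := h2 hright
      have key : ∀ i j : ℕ, i < j → (k : ℝ) * l ∈ Set.Icc (x + j * H) (x + (j + 1) * H) →
          ((k : ℝ) + 1) * l ∈ Set.Icc (x + i * H) (x + (i + 1) * H) → False := by
        intro i j hij c1 c2
        have h3 : ((i : ℝ) + 1) ≤ j := by exact_mod_cast hij
        have h4 : ((i : ℝ) + 1) * H ≤ j * H := mul_le_mul_of_nonneg_right h3 hH.le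
        have := c1.1
        have := c2.2
        nlinarith
      rcases lt_or_gt_of_ne hij with h | h
      · exact key i j h b1 a2
      · exact key j i h a1 b2
  have hMn : (((Finset.range M).biUnion q).card : ℝ) = M * n := by rw [hcard]; push_cast; rfl
  have hLH : 0 < L / (2 * H) := by positivity
  have hbig : (L / (2 * H)) * (r / l) ≤ (M : ℝ) * n :=
    mul_le_mul hM1 hn (by positivity) (by positivity)
  -- the power
  have hpow : 100 * (H / (4 * r)) ≤ (L / H) ^ (1 - s) := by
    have h1 : (H / L) ^ (1 - s) * (L / H) ^ (1 - s) = 1 := by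
      rw [← Real.mul_rpow (by positivity) (by positivity)]
      have : H / L * (L / H) = 1 := by field_simp
      rw [this, Real.one_rpow]
    have h2 : 0 < (L / H) ^ (1 - s) := Real.rpow_pos_of_pos (by positivity) _
    calc 100 * (H / (4 * r)) = (100 * ((H / L) ^ (1 - s) * (H / (4 * r)))) * (L / H) ^ (1 - s) := by
          have : 100 * (H / (4 * r)) = 100 * (H / (4 * r)) * ((H / L) ^ (1 - s) *
            (L / H) ^ (1 - s)) := by rw [h1, mul_one]
          rw [this]; ring
      _ ≤ 1 * (L / H) ^ (1 - s) := mul_le_mul_of_nonneg_right hstar h2.le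
      _ = _ := one_mul _
  have hkey : ∀ d : ℝ, 0 < d → d ≤ H → 12 * ((d / l) * (L / d) ^ s) ≤ (M : ℝ) * n := by
    intro d hd hdH
    have h1 : (L / d) = (L / d) ^ s * (L / d) ^ (1 - s) := by
      rw [← Real.rpow_add (by positivity)]
      simp
    have h2 : (L / H) ^ (1 - s) ≤ (L / d) ^ (1 - s) := by
      refine Real.rpow_le_rpow (by positivity) ?_ (by linarith)
      exact div_le_div_of_nonneg_left hL.le hd hdH
    have h3 : 100 * (H / (4 * r)) ≤ (L / d) ^ (1 - s) := hpow.trans h2
    have h4 : 0 < (L / d) ^ s := Real.rpow_pos_of_pos (by positivity) _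
    have e1 : (L / (2 * H)) * (r / l) = (d / l) * (L / d) * (r / (2 * H)) := by
      field_simp
    have h5 : (L / d) ^ s * (100 * (H / (4 * r))) ≤ L / d := by
      calc (L / d) ^ s * (100 * (H / (4 * r))) ≤ (L / d) ^ s * (L / d) ^ (1 - s) :=
            mul_le_mul_of_nonneg_left h3 h4.le
        _ = L / d := h1.symm
    have h6 : (L / d) ^ s * (100 * (H / (4 * r))) * (r / (2 * H)) ≤ (L / d) * (r / (2 * H)) :=
      mul_le_mul_of_nonneg_right h5 (by positivity)
    have e2 : (L / d) ^ s * (100 * (H / (4 * r))) * (r / (2 * H)) = (25/2) * (L / d) ^ s := by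
      field_simp
      norm_num
    rw [e2] at h6
    refine le_trans ?_ hbig
    rw [e1]
    have h7 : (d / l) * ((25/2) * (L / d) ^ s) ≤ (d / l) * ((L / d) * (r / (2 * H))) :=
      mul_le_mul_of_nonneg_left h6 (by positivity)
    have h8 : 0 < (d / l) * (L / d) ^ s := by positivity
    linarith
  refine ⟨hcard, ?_, ?_⟩
  · rw [hMn]
    have h1 := hkey l hl hlH
    rw [div_self hl.ne', one_mul] at h1
    have : 0 < (L / l) ^ s := Real.rpow_pos_of_pos (by positivity) _
    linarith
  · intro z d hld Q' hQ' hmeet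
    rw [hMn]
    have hd : 0 < d := lt_of_lt_of_le hl hld
    have hMn0 : 0 ≤ (M : ℝ) * n := by positivity
    rcases le_or_gt L d with hdL | hdL
    · have h1 : (Q'.card : ℝ) ≤ M * n := by
        rw [← hMn]
        exact_mod_cast Finset.card_le_card hQ'
      have h2 : 1 ≤ (d / L) ^ s := Real.one_le_rpow (by rw [le_div_iff₀ hL]; linarith) hs0
      nlinarith
    rcases le_or_gt H d with hdH | hdH
    · -- pieces
      obtain ⟨I, hI⟩ : ∃ I : Finset ℕ, I = (Finset.range M).filter
        (fun i : ℕ => (Set.Icc (x + (i : ℝ) * H) (x + ((i : ℝ) + 1) * H) ∩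
          Set.Icc z (z + d)).Nonempty) := ⟨_, rfl⟩
      have hsub : Q' ⊆ I.biUnion q := by
        intro k hk
        have h1 := hQ' hk
        rw [Finset.mem_biUnion] at h1
        obtain ⟨i, hi, hki⟩ := h1
        rw [Finset.mem_biUnion]
        refine ⟨i, ?_, hki⟩
        rw [hI, Finset.mem_filter]
        refine ⟨hi, ?_⟩
        obtain ⟨v, hv1, hv2⟩ := hmeet k hk
        exact ⟨v, (hq i (Finset.mem_range.1 hi)).2 k hki hv1, hv2⟩
      have h1 : (I.card : ℝ) ≤ d / H + 2 := count_le hH hd.le (c := x) (z := z) fun i hi => by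
        rw [hI, Finset.mem_filter] at hi
        exact hi.2
      have h2 : (Q'.card : ℝ) ≤ I.card * n := by
        have h3 : Q'.card ≤ I.card * n := by
          refine (Finset.card_le_card hsub).trans (Finset.card_biUnion_le_card_mul _ _ _ ?_)
          intro i hi
          rw [hI, Finset.mem_filter, Finset.mem_range] at hi
          exact (hq i hi.1).1.le
        exact_mod_cast h3
      have h3 : (1 : ℝ) ≤ d / H := by rw [le_div_iff₀ hH]; linarith
      have h4 : (Q'.card : ℝ) ≤ 3 * (d / H) * n := by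
        refine h2.trans (mul_le_mul_of_nonneg_right (by linarith) (by positivity))
      have h5 : 3 * (d / H) * n = 6 * (d / L) * (L / (2 * H) * n) := by
        field_simp
        ring
      have h6 : L / (2 * H) * n ≤ M * n := mul_le_mul_of_nonneg_right hM1 (by positivity)
      have h7 : d / L ≤ (d / L) ^ s := by
        have h8 : d / L ≤ 1 := by rw [div_le_one hL]; exact hdL.le
        have := Real.rpow_le_rpow_of_exponent_ge (x := d / L) (by positivity) h8 hs
        rwa [Real.rpow_one] at this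
      calc (Q'.card : ℝ) ≤ 6 * (d / L) * (L / (2 * H) * n) := by rw [← h5]; exact h4
        _ ≤ 6 * (d / L) * (M * n) := mul_le_mul_of_nonneg_left h6 (by positivity)
        _ ≤ 6 * (d / L) ^ s * (M * n) :=
          mul_le_mul_of_nonneg_right (by linarith) hMn0
    · have h1 : (Q'.card : ℝ) ≤ d / l + 2 := cell_count hl hd.le hmeet
      have h2 : (1 : ℝ) ≤ d / l := by rw [le_div_iff₀ hl]; linarith
      have h3 := hkey d hd hdH.le
      have h4 : (d / L) ^ s * (L / d) ^ s = 1 := by
        rw [← Real.mul_rpow (by positivity) (by positivity)]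
        have : d / L * (L / d) = 1 := by field_simp
        rw [this, Real.one_rpow]
      have h5 : 0 < (d / L) ^ s := Real.rpow_pos_of_pos (by positivity) _
      have h6 : 12 * (d / l) ≤ (d / L) ^ s * (M * n) := by
        calc 12 * (d / l) = (d / L) ^ s * (12 * ((d / l) * (L / d) ^ s)) := by
              rw [show (d / L) ^ s * (12 * ((d / l) * (L / d) ^ s)) =
                12 * (d / l) * ((d / L) ^ s * (L / d) ^ s) by ring, h4, mul_one]
          _ ≤ (d / L) ^ s * (M * n) := mul_le_mul_of_nonneg_left h3 h5.le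
      have h7 : 6 * (d / L) ^ s * (M * n) = 6 * ((d / L) ^ s * (M * n)) := by ring
      rw [h7]
      linarith

end Pool.Agent.Y995.TP
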