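import Pool.Agent.Y995.TP.Low

/-!
Upper bounds for the dimension of limsup sets.
-/

set_option autoImplicit false
set_option linter.unusedVariables false

namespace Pool.Agent.Y995.TP

open MeasureTheory Filter Topology
open scoped ENNReal NNReal

theorem cell_diam {l : ℝ} (hl : 0 < l) (k : ℕ) :
    Metric.ediam (cell l k) ≤ ENNReal.ofReal l := by
  refine Metric.ediam_le_of_forall_dist_le fun x hx y hy => ?_
  rw [Real.dist_eq, abs_le]
  have a1 := hx.1
  have a2 := hx.2
  have a3 := hy.1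
  have a4 := hy.2
  constructor <;> nlinarith

theorem dim_limsup {E : Set ℝ} {s : ℝ} (hs : 0 < s) {μ : ℕ → ℝ} (hμ : ∀ j, 0 < μ j)
    (hanti : Antitone μ) (hμ0 : Tendsto μ atTop (𝓝 0)) {Q : ℕ → Finset ℕ}
    (hE : ∀ x ∈ E, ∃ᶠ j in atTop, ∃ k ∈ Q j, x ∈ cell (μ j) k)
    {g : ℕ → ℝ} (hg : Summable g) (hQ : ∀ᶠ j in atTop, ((Q j).card : ℝ) * μ j ^ s ≤ g j) :
    dimH E ≤ ENNReal.ofReal s := by
  have h1 : μH[s] E ≤ 0 := by
    have h2 := Measure.hausdorffMeasure_le_liminf_tsum (ι := fun J : ℕ => (Σ j : ℕ, Q (j + J)))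
      s E (l := atTop) (fun J => ENNReal.ofReal (μ J)) (by
        have := ENNReal.tendsto_ofReal hμ0
        rwa [ENNReal.ofReal_zero] at this) (fun J i => cell (μ (i.1 + J)) (i.2 : ℕ))
      (Eventually.of_forall fun J i => (cell_diam (hμ _) _).trans
        (ENNReal.ofReal_le_ofReal (hanti (by omega))))
      (Eventually.of_forall fun J x hx => by
        obtain ⟨j, hj, k, hk, hxk⟩ := frequently_atTop.1 (hE x hx) J
        obtain ⟨m, rfl⟩ : ∃ m, j = m + J := ⟨j - J, by omega⟩
        rw [Set.mem_iUnion]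
        exact ⟨⟨m, ⟨k, hk⟩⟩, hxk⟩)
    refine h2.trans ?_
    have hG := ENNReal.tendsto_sum_nat_add (fun j => ENNReal.ofReal (g j)) hg.tsum_ofReal_ne_top
    rw [← hG.liminf_eq]
    refine liminf_le_liminf ?_
    rw [eventually_atTop] at hQ
    obtain ⟨j1, hj1⟩ := hQ
    filter_upwards [eventually_ge_atTop j1] with J hJ
    rw [ENNReal.tsum_sigma (fun j (k : Q (j + J)) => Metric.ediam (cell (μ (j + J)) (k : ℕ)) ^ s)]
    refine ENNReal.tsum_le_tsum fun j => ?_
    have h3 := hj1 (j + J) (by omega)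
    calc ∑' k : Q (j + J), Metric.ediam (cell (μ (j + J)) (k : ℕ)) ^ s
        ≤ ∑' k : Q (j + J), ENNReal.ofReal (μ (j + J) ^ s) := by
          refine ENNReal.tsum_le_tsum fun k => ?_
          rw [← ENNReal.ofReal_rpow_of_pos (hμ _)]
          exact ENNReal.rpow_le_rpow (cell_diam (hμ _) _) hs.le
      _ = ENNReal.ofReal (((Q (j + J)).card : ℝ) * μ (j + J) ^ s) := by
          rw [tsum_fintype, Finset.sum_const, Finset.card_univ, Fintype.card_coe, nsmul_eq_mul,
            ENNReal.ofReal_mul (Nat.cast_nonneg _), ENNReal.ofReal_natCast]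
      _ ≤ ENNReal.ofReal (g (j + J)) := ENNReal.ofReal_le_ofReal h3
  have h4 : μH[((s.toNNReal : ℝ≥0) : ℝ)] E ≠ ⊤ := by
    rw [Real.coe_toNNReal s hs.le]
    exact ne_top_of_le_ne_top ENNReal.zero_ne_top h1
  exact dimH_le_of_hausdorffMeasure_ne_top h4

theorem cells_vol {V : Set ℝ} {l : ℝ} (hl : 0 < l) (hV : volume V ≠ ⊤) {Q : Finset ℕ}
    (hQ : ∀ k ∈ Q, cell l k ⊆ V) : (Q.card : ℝ) * l ≤ (volume V).toReal := by
  have h1 : ENNReal.ofReal ((Q.card : ℝ) * l) ≤ volume V := by
    calc ENNReal.ofReal ((Q.card : ℝ) * l)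
        = ∑ k ∈ Q, volume (Set.Ioo ((k : ℝ) * l) (((k : ℝ) + 1) * l)) := by
          rw [Finset.sum_congr rfl (fun (k : ℕ) _ => show volume (Set.Ioo ((k : ℝ) * l)
            (((k : ℝ) + 1) * l)) = ENNReal.ofReal l by
              rw [Real.volume_Ioo]; congr 1; ring), Finset.sum_const, nsmul_eq_mul,
              ENNReal.ofReal_mul (Nat.cast_nonneg _), ENNReal.ofReal_natCast]
      _ = volume (⋃ k ∈ Q, Set.Ioo ((k : ℝ) * l) (((k : ℝ) + 1) * l)) := by
          rw [measure_biUnion_finset]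
          · intro i _ j _ hij
            change Disjoint (Set.Ioo ((i : ℝ) * l) (((i : ℝ) + 1) * l))
              (Set.Ioo ((j : ℝ) * l) (((j : ℝ) + 1) * l))
            rw [Set.disjoint_left]
            intro x hx hy
            have a1 := hx.1
            have a2 := hx.2
            have a3 := hy.1
            have a4 := hy.2
            rcases lt_or_gt_of_ne hij with h | h
            · have h5 : ((i : ℝ) + 1) ≤ j := by exact_mod_cast h
              have := mul_le_mul_of_nonneg_right h5 hl.le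
              linarith
            · have h5 : ((j : ℝ) + 1) ≤ i := by exact_mod_cast h
              have := mul_le_mul_of_nonneg_right h5 hl.le
              linarith
          · intro k _
            exact measurableSet_Ioo
      _ ≤ volume V := measure_mono (Set.iUnion₂_subset fun k hk =>
          Set.Ioo_subset_Icc_self.trans (hQ k hk))
  have := ENNReal.toReal_mono hV h1
  rwa [ENNReal.toReal_ofReal (by positivity)] at this

theorem cell_mem {x : ℝ} (h0 : 0 ≤ x) (h1 : x ≤ 1) {M : ℕ} (hM : 0 < M) :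
    ∃ k < M, x ∈ cell (1 / (M : ℝ)) k := by
  have hM' : (0:ℝ) < M := by exact_mod_cast hM
  rcases h1.eq_or_lt with h | h
  · refine ⟨M - 1, by omega, ?_⟩
    have e : ((M - 1 : ℕ) : ℝ) = (M : ℝ) - 1 := by
      rw [Nat.cast_sub (by omega)]; norm_num
    unfold cell
    rw [e, h]
    constructor
    · rw [mul_one_div, div_le_one hM']
      linarith
    · rw [mul_one_div, le_div_iff₀ hM']
      linarith
  · refine ⟨⌊x * M⌋₊, ?_, ?_, ?_⟩
    · rw [Nat.floor_lt (by positivity)]
      nlinarith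
    · rw [mul_one_div, div_le_iff₀ hM']
      exact Nat.floor_le (by positivity)
    · rw [mul_one_div, le_div_iff₀ hM']
      exact (Nat.lt_floor_add_one _).le

end Pool.Agent.Y995.TP
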