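import Pool.Agent.Y995.TP.DimUp
import Pool.Agent.Y995.HG.LowP

/-!
Thick times: upper bound for the dimension.
-/

set_option autoImplicit false
set_option linter.unusedVariables false

namespace Pool.Agent.Y995.TP

open H974 Finset H342P H984P H984N Pool.Agent.Y995.FS Pool.Agent.Y995.HG
open MeasureTheory Filter Topology
open scoped ENNReal NNReal

/-- thick times -/
def Th (θ : ℝ) (p : X) : Set unitInterval :=
  {u | ∃ᶠ r : ℝ in 𝓝[>] 0, θ * (r ^ (7/4 : ℝ) * Real.log (1 / r) ^ (1/8 : ℝ)) ≤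
    p.2 * (volume {v : unitInterval | dist (p.1 v) (p.1 u) ≤ r}).toReal}

/-- levels of the occupation time -/
noncomputable def aj (x : ℝ) (j : ℕ) : ℝ :=
  x * ((((1:ℝ)/2) ^ j) ^ (7/4 : ℝ) * (j : ℝ) ^ (1/8 : ℝ))

theorem aj_pos {x : ℝ} (hx : 0 < x) {j : ℕ} (hj : 1 ≤ j) : 0 < aj x j := by
  have : (0:ℝ) < j := by exact_mod_cast hj
  unfold aj; positivity

theorem scale_ge {θ x r : ℝ} (hx : 0 < x) (hθ : 64 * x ≤ θ) {j : ℕ} (hj : 1 ≤ j) (hr : 0 < r)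
    (h1 : (1/2 : ℝ) ^ (j + 1) < 2 * r) (h2 : 2 * r ≤ (1/2 : ℝ) ^ j) :
    2 * aj x j ≤ θ * (r ^ (7/4 : ℝ) * Real.log (1 / r) ^ (1/8 : ℝ)) := by
  obtain ⟨w, hw⟩ : ∃ w : ℝ, w = (1/2) ^ j := ⟨_, rfl⟩
  have hw0 : 0 < w := by rw [hw]; positivity
  have hj0 : (1:ℝ) ≤ j := by exact_mod_cast hj
  have e : (1/2 : ℝ) ^ (j + 1) = w / 2 := by rw [pow_succ, ← hw]; ring
  rw [e] at h1
  rw [← hw] at h2
  have h3 : w ^ (7/4 : ℝ) / 16 ≤ r ^ (7/4 : ℝ) := by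
    have h4 : (w / 4) ^ (7/4 : ℝ) ≤ r ^ (7/4 : ℝ) :=
      Real.rpow_le_rpow (by positivity) (by linarith) (by norm_num)
    have h5 : (4:ℝ) ^ (7/4 : ℝ) ≤ 16 := by
      have : (4:ℝ) ^ (7/4 : ℝ) ≤ 4 ^ (2 : ℝ) :=
        Real.rpow_le_rpow_of_exponent_le (by norm_num) (by norm_num)
      refine this.trans (le_of_eq ?_)
      norm_num
    rw [Real.div_rpow hw0.le (by norm_num)] at h4
    exact (div_le_div_of_nonneg_left (by positivity) (by positivity) h5).trans h4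
  have hlog : (j : ℝ) / 2 ≤ Real.log (1 / r) := by
    have h4 : 1 / w ≤ 1 / r := one_div_le_one_div_of_le hr (by linarith)
    have h5 : Real.log (1 / w) = j * Real.log 2 := by
      rw [hw, one_div, ← inv_pow, Real.log_pow]
      congr 2
      norm_num
    have h6 := Real.log_le_log (by positivity) h4
    rw [h5] at h6
    have := Real.log_two_gt_d9
    nlinarith
  have h6 : (j : ℝ) ^ (1/8 : ℝ) / 2 ≤ Real.log (1 / r) ^ (1/8 : ℝ) := by
    have h7 : ((j : ℝ) / 2) ^ (1/8 : ℝ) ≤ Real.log (1 / r) ^ (1/8 : ℝ) :=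
      Real.rpow_le_rpow (by positivity) hlog (by norm_num)
    rw [Real.div_rpow (by positivity) (by norm_num)] at h7
    have h8 : (2:ℝ) ^ (1/8 : ℝ) ≤ 2 := by
      have : (2:ℝ) ^ (1/8 : ℝ) ≤ 2 ^ (1 : ℝ) :=
        Real.rpow_le_rpow_of_exponent_le (by norm_num) (by norm_num)
      rwa [Real.rpow_one] at this
    exact (div_le_div_of_nonneg_left (by positivity) (by positivity) h8).trans h7
  have h7 : w ^ (7/4 : ℝ) / 16 * ((j : ℝ) ^ (1/8 : ℝ) / 2) ≤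
      r ^ (7/4 : ℝ) * Real.log (1 / r) ^ (1/8 : ℝ) :=
    mul_le_mul h3 h6 (by positivity) (by positivity)
  unfold aj
  rw [← hw]
  have h8 : 0 ≤ w ^ (7/4 : ℝ) * (j : ℝ) ^ (1/8 : ℝ) := by positivity
  calc 2 * (x * (w ^ (7/4 : ℝ) * (j : ℝ) ^ (1/8 : ℝ)))
      = (64 * x) * (w ^ (7/4 : ℝ) / 16 * ((j : ℝ) ^ (1/8 : ℝ) / 2)) := by ring
    _ ≤ θ * (w ^ (7/4 : ℝ) / 16 * ((j : ℝ) ^ (1/8 : ℝ) / 2)) :=
        mul_le_mul_of_nonneg_right hθ (by positivity)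
    _ ≤ _ := mul_le_mul_of_nonneg_left h7 (by linarith)

theorem upp_det {p : X} (hp : 0 < p.2) {Λ : ℝ} (hΛ : 0 < Λ)
    (hH : ∀ s t : unitInterval, dist (p.1 s) (p.1 t) ≤ Λ * |(s : ℝ) - t| ^ (1/2 : ℝ))
    {x lam θ : ℝ} (hx : 0 < x) (hlam : 0 < lam) (hlam1 : lam ≤ 1) (hθ : 64 * x ≤ θ)
    (hGo : ∀ᶠ j : ℕ in atTop, Go ((1/2) ^ j) (aj x j) p ≤ Real.exp (-(lam * j / 2))) :
    dimH (Th θ p) ≤ ENNReal.ofReal (1 - lam / 4) := by
  classical
  obtain ⟨m0, hm0⟩ : ∃ m0 : ℕ, m0 = ⌈(2 * Λ) ^ 2⌉₊ + 1 := ⟨_, rfl⟩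
  have hm1 : (2 * Λ) ^ 2 ≤ m0 := by
    rw [hm0]; push_cast
    have := Nat.le_ceil ((2 * Λ) ^ 2)
    linarith
  have hm2 : 0 < m0 := by omega
  have hm3 : (0:ℝ) < m0 := by exact_mod_cast hm2
  obtain ⟨M, hM⟩ : ∃ M : ℕ → ℕ, M = fun j => m0 * 4 ^ j := ⟨_, rfl⟩
  have hMp : ∀ j, 0 < M j := by intro j; rw [hM]; positivity
  have hMp' : ∀ j, (0:ℝ) < M j := fun j => by exact_mod_cast hMp j
  have hMv : ∀ j, (M j : ℝ) = m0 * 4 ^ j := by intro j; rw [hM]; push_cast; ring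
  obtain ⟨μ, hμ⟩ : ∃ μ : ℕ → ℝ, μ = fun j => 1 / (M j : ℝ) := ⟨_, rfl⟩
  have hμv : ∀ j, μ j = 1 / (M j : ℝ) := by intro j; rw [hμ]
  have hμ0 : ∀ j, 0 < μ j := by intro j; rw [hμv]; have := hMp' j; positivity
  have hμ1 : ∀ j, μ j ≤ ((1/2) ^ j / (2 * Λ)) ^ 2 := by
    intro j
    rw [hμv, hMv, div_pow, div_le_div_iff₀ (by positivity) (by positivity)]
    have e : ((1/2 : ℝ) ^ j) ^ 2 * (m0 * 4 ^ j) = m0 := by
      rw [← pow_mul, mul_comm j 2, pow_mul]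
      have : ((1/2 : ℝ) ^ 2) ^ j * 4 ^ j = 1 := by
        rw [← mul_pow]; norm_num
      calc ((1/2 : ℝ) ^ 2) ^ j * ((m0 : ℝ) * 4 ^ j) =
          (m0 : ℝ) * (((1/2 : ℝ) ^ 2) ^ j * 4 ^ j) := by ring
        _ = (m0 : ℝ) := by rw [this, mul_one]
    rw [e, one_mul]
    exact hm1
  obtain ⟨V, hV⟩ : ∃ V : ℕ → Set unitInterval, V = fun j => {t : unitInterval |
    2 * aj x j ≤ p.2 * (volume {u : unitInterval | dist (p.1 u) (p.1 t) ≤ (1/2) ^ j}).toReal} :=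
    ⟨_, rfl⟩
  obtain ⟨Q, hQ⟩ : ∃ Q : ℕ → Finset ℕ, Q = fun j => (Finset.range (M j)).filter
    (fun k => cell (μ j) k ⊆ Subtype.val '' (V j)) := ⟨_, rfl⟩
  have hQm : ∀ j k, k ∈ Q j ↔ k < M j ∧ cell (μ j) k ⊆ Subtype.val '' (V j) := by
    intro j k
    rw [hQ]
    simp only [Finset.mem_filter, Finset.mem_range]
  have hlim : Tendsto μ atTop (𝓝 0) := by
    have h1 : Tendsto (fun j : ℕ => 1 / (m0 : ℝ) * (1/4) ^ j) atTop (𝓝 0) := by
      have h2 : Tendsto (fun j : ℕ => ((1:ℝ)/4) ^ j) atTop (𝓝 0) :=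
        tendsto_pow_atTop_nhds_zero_of_lt_one (by norm_num) (by norm_num)
      have := h2.const_mul (1 / (m0 : ℝ))
      rwa [mul_zero] at this
    refine h1.congr fun j => ?_
    rw [hμv, hMv, div_pow, one_pow]
    field_simp
  have hanti : Antitone μ := by
    intro i j hij
    rw [hμv, hμv]
    refine one_div_le_one_div_of_le (hMp' i) ?_
    rw [hMv, hMv]
    refine mul_le_mul_of_nonneg_left ?_ hm3.le
    exact pow_le_pow_right₀ (by norm_num) hij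
  have key := dim_limsup (E := Subtype.val '' (Th θ p)) (s := 1 - lam / 4) (by linarith) hμ0 hanti
    hlim (Q := Q) ?_ (g := fun j => 1 / p.2 * (m0 : ℝ) ^ (lam / 4) * (Real.exp (-(lam / 10))) ^ j)
    ?_ ?_
  · rw [isometry_subtype_coe.dimH_image] at key
    exact key
  · rintro _ ⟨u, hu, rfl⟩
    rw [frequently_atTop]
    intro J
    have h1 : ∀ᶠ r : ℝ in 𝓝[>] 0, r < (1/2) ^ (J + 4) := by
      refine mem_nhdsWithin_of_mem_nhds (gt_mem_nhds (by positivity))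
    have h2 : ∀ᶠ r : ℝ in 𝓝[>] 0, 0 < r := self_mem_nhdsWithin
    obtain ⟨r, hr1, hr2, hr3⟩ := (hu.and_eventually (h1.and h2)).exists
    have hr4 : 2 * r < (1/2) ^ (J + 3) := by
      have : ((1:ℝ)/2) ^ (J + 4) * 2 = (1/2) ^ (J + 3) := by rw [pow_succ]; ring
      linarith
    have hle1 : ((1:ℝ)/2) ^ (J + 3) ≤ 1 := pow_le_one₀ (by norm_num) (by norm_num)
    obtain ⟨j, hj1, hj2⟩ := exists_nat_pow_near_of_lt_one (show 0 < 2 * r by linarith)
      (hr4.le.trans hle1) (show (0:ℝ) < 1/2 by norm_num) (by norm_num)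
    have hjJ : J + 1 ≤ j := by
      by_contra hcon
      push Not at hcon
      have : ((1:ℝ)/2) ^ (J + 3) ≤ (1/2) ^ (j + 1) :=
        pow_le_pow_of_le_one (by norm_num) (by norm_num) (by omega)
      linarith
    obtain ⟨k, hk, hku⟩ := cell_mem u.2.1 u.2.2 (hMp j)
    rw [← hμv] at hku
    refine ⟨j, by omega, k, ?_, hku⟩
    rw [hQm]
    refine ⟨hk, fun y hy => ?_⟩
    have hk' : ((k : ℝ) + 1) ≤ M j := by exact_mod_cast hk
    have hy0 : 0 ≤ y := le_trans (by have := hμ0 j; positivity) hy.1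
    have hy1 : y ≤ 1 := by
      refine hy.2.trans ?_
      have := mul_le_mul_of_nonneg_right hk' (hμ0 j).le
      refine this.trans (le_of_eq ?_)
      rw [hμv, mul_one_div, div_self (hMp' j).ne']
    refine ⟨⟨y, hy0, hy1⟩, ?_, rfl⟩
    obtain ⟨y', hy'⟩ : ∃ y' : unitInterval, y' = ⟨y, hy0, hy1⟩ := ⟨_, rfl⟩
    have hyv : (y' : ℝ) = y := by rw [hy']
    rw [← hy', hV]
    refine (scale_ge hx hθ (by omega) hr3 hj1 hj2).trans (hr1.trans ?_)
    refine mul_le_mul_of_nonneg_left ?_ hp.le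
    refine ENNReal.toReal_mono (measure_ne_top _ _) (measure_mono ?_)
    intro v hv
    have hv' : dist (p.1 v) (p.1 u) ≤ r := hv
    show dist (p.1 v) (p.1 y') ≤ (1/2) ^ j
    have d1 : |(u : ℝ) - y'| ≤ μ j := by
      rw [hyv, abs_le]
      have a1 := hku.1
      have a2 := hku.2
      have a3 := hy.1
      have a4 := hy.2
      constructor <;> nlinarith
    have d2 : |(u : ℝ) - y'| ^ (1/2 : ℝ) ≤ (1/2) ^ j / (2 * Λ) := by
      have h4 : |(u : ℝ) - y'| ^ (1/2 : ℝ) ≤ (((1/2) ^ j / (2 * Λ)) ^ 2) ^ (1/2 : ℝ) :=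
        Real.rpow_le_rpow (abs_nonneg _) (d1.trans (hμ1 j)) (by norm_num)
      refine h4.trans (le_of_eq ?_)
      rw [← Real.rpow_natCast ((1/2) ^ j / (2 * Λ)) 2, ← Real.rpow_mul (by positivity)]
      norm_num
    have d3 : dist (p.1 u) (p.1 y') ≤ (1/2) ^ j / 2 := by
      refine (hH u y').trans ?_
      calc Λ * |(u : ℝ) - y'| ^ (1/2 : ℝ) ≤ Λ * ((1/2) ^ j / (2 * Λ)) :=
            mul_le_mul_of_nonneg_left d2 hΛ.le
        _ = (1/2) ^ j / 2 := by field_simp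
    have := dist_triangle (p.1 v) (p.1 u) (p.1 y')
    linarith
  · refine (summable_geometric_of_lt_one (Real.exp_nonneg _) ?_).mul_left _
    rw [Real.exp_lt_one_iff]
    linarith
  · filter_upwards [hGo, eventually_ge_atTop 1] with j h1 h2
    have h3 := (Go_ge (w := (1/2) ^ j) (by positivity) (aj_pos hx h2) hp.le).trans h1
    have h4 : (volume (Subtype.val '' (V j) : Set ℝ)).toReal ≤
        1 / p.2 * Real.exp (-(lam * j / 2)) := by
      rw [vol_val, one_div_mul_eq_div, le_div_iff₀ hp, mul_comm, hV]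
      exact h3
    have h5 := cells_vol (hμ0 j) (by rw [vol_val]; exact measure_ne_top _ _)
      (fun k hk => ((hQm j k).1 hk).2)
    have e1 : μ j ^ (1 - lam / 4) = μ j * (M j : ℝ) ^ (lam / 4) := by
      rw [Real.rpow_sub (hμ0 j), Real.rpow_one, div_eq_mul_inv, ← Real.inv_rpow (hμ0 j).le,
        hμv, one_div, inv_inv]
    have e2 : (M j : ℝ) ^ (lam / 4) = (m0 : ℝ) ^ (lam / 4) * Real.exp (Real.log 4 * j * (lam / 4)) := by
      rw [hMv, Real.mul_rpow hm3.le (by positivity)]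
      congr 1
      rw [Real.exp_mul, mul_comm (Real.log 4), Real.exp_nat_mul, Real.exp_log (by norm_num)]
    have hlog4 : Real.log 4 ≤ 139/100 := by
      have : Real.log 4 = 2 * Real.log 2 := by
        rw [show (4:ℝ) = 2 ^ 2 by norm_num, Real.log_pow]; norm_num
      rw [this]
      have := Real.log_two_lt_d9
      linarith
    have hexp : Real.exp (-(lam * j / 2)) * Real.exp (Real.log 4 * j * (lam / 4)) ≤
        (Real.exp (-(lam / 10))) ^ j := by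
      rw [← Real.exp_add, ← Real.exp_nat_mul]
      refine Real.exp_le_exp.mpr ?_
      have h6 : (0:ℝ) ≤ j * lam := by positivity
      nlinarith
    rw [e1]
    calc ((Q j).card : ℝ) * (μ j * (M j : ℝ) ^ (lam / 4))
        = ((Q j).card : ℝ) * μ j * (M j : ℝ) ^ (lam / 4) := by ring
      _ ≤ (1 / p.2 * Real.exp (-(lam * j / 2))) * (M j : ℝ) ^ (lam / 4) :=
          mul_le_mul_of_nonneg_right (h5.trans h4) (by positivity)
      _ = 1 / p.2 * (m0 : ℝ) ^ (lam / 4) *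
          (Real.exp (-(lam * j / 2)) * Real.exp (Real.log 4 * j * (lam / 4))) := by rw [e2]; ring
      _ ≤ _ := mul_le_mul_of_nonneg_left hexp (by positivity)

/-- Borel–Cantelli for the limits, summable bound. -/
theorem bc3 (R : Rect) {B : ℕ → Set X} (hB : ∀ j, IsOpen (B j)) {g : ℕ → ℝ} (hg : Summable g)
    (hg0 : ∀ j, 0 < g j) {j1 : ℕ}
    (h1 : ∀ j : ℕ, j1 ≤ j → ∃ δ1 : ℝ, 0 < δ1 ∧ ∀ δ : ℝ, 0 < δ → δ ≤ δ1 →
        R.prob δ (fun F => (R.curve δ F, R.time δ F) ∈ B j) ≤ g j)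
    {δ : ℕ → ℝ} (hδ : ∀ i, 0 < δ i) (hlim : Tendsto δ atTop (𝓝 0))
    {μ : ProbabilityMeasure X} (hμ : Tendsto (fun i => R.law (δ i)) atTop (𝓝 μ)) :
    ∀ᵐ p ∂(μ : Measure X), ∀ᶠ j in atTop, p ∉ B j := by
  have h2 : ∀ j : ℕ, (μ : Measure X) (B (j + j1)) ≤ ENNReal.ofReal (g (j + j1)) := by
    intro j
    obtain ⟨δ1, hδ1, h3⟩ := h1 (j + j1) (by omega)
    have h4 := limit_closed R hδ hlim hμ (G := (B (j + j1))ᶜ)
      (hB _).isClosed_compl (ε := g (j + j1)) (hg0 _).le hδ1 (fun d hd hd' => by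
        have := h3 d hd hd'
        simpa only [Set.mem_compl_iff, not_not] using this)
    rwa [compl_compl] at h4
  have h3 : ∑' j : ℕ, (μ : Measure X) (B (j + j1)) ≠ ⊤ := by
    have h4 : Summable (fun j : ℕ => g (j + j1)) := (summable_nat_add_iff j1).2 hg
    exact ne_top_of_le_ne_top h4.tsum_ofReal_ne_top (ENNReal.tsum_le_tsum h2)
  filter_upwards [ae_eventually_notMem h3] with p hp
  rw [eventually_atTop] at hp ⊢
  obtain ⟨a, ha⟩ := hp
  refine ⟨a + j1, fun j hj => ?_⟩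
  have := ha (j - j1) (by omega)
  rwa [Nat.sub_add_cancel (by omega)] at this

theorem upp_as {l : ℝ} (hl : 0 < l) {R : Rect} {A w0 : ℝ} (hA : 0 < A) (hw0 : 0 < w0)
    (h : ∀ w a b : ℝ, 0 < w → w ≤ w0 → 0 < a → 0 < b →
      ∃ δ1 : ℝ, 0 < δ1 ∧ ∀ δ : ℝ, 0 < δ → δ ≤ δ1 →
        R.prob δ (fun F => (R.curve δ F, R.time δ F) ∈ {p : X | b < Go w a p}) ≤
          A / b * Real.exp (-(a / w ^ (7/4 : ℝ) / l) ^ 8))
    {δ : ℕ → ℝ} (hδ : ∀ i, 0 < δ i) (hlim : Tendsto δ atTop (𝓝 0))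
    {μ : ProbabilityMeasure X} (hμ : Tendsto (fun i => R.law (δ i)) atTop (𝓝 μ)) :
    ∀ᵐ p ∂(μ : Measure X), ∀ n : ℕ, ∀ᶠ j : ℕ in atTop,
      Go ((1/2) ^ j) (aj (l * (1/2) ^ n) j) p ≤ Real.exp (-(((1/2) ^ n) ^ 8 * j / 2)) := by
  rw [ae_all_iff]
  intro n
  have h0 : Tendsto (fun i : ℕ => ((1:ℝ)/2) ^ i) atTop (𝓝 0) :=
    tendsto_pow_atTop_nhds_zero_of_lt_one (by norm_num) (by norm_num)
  have h1 := (h0.eventually (ge_mem_nhds hw0)).and (eventually_ge_atTop 1)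
  rw [eventually_atTop] at h1
  obtain ⟨j1, hj1⟩ := h1
  obtain ⟨lam, hlam⟩ : ∃ lam : ℝ, lam = ((1/2) ^ n) ^ 8 := ⟨_, rfl⟩
  have hlam0 : 0 < lam := by rw [hlam]; positivity
  rw [← hlam]
  have hs : Summable (fun j : ℕ => A * (Real.exp (-(lam / 2))) ^ j) := by
    refine (summable_geometric_of_lt_one (Real.exp_nonneg _) ?_).mul_left _
    rw [Real.exp_lt_one_iff]
    linarith
  have h2 := bc3 R (B := fun j : ℕ => {p : X | Real.exp (-(lam * j / 2)) <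
      Go ((1/2) ^ j) (aj (l * (1/2) ^ n) j) p})
    (fun j => isOpen_lt continuous_const (Go_cont _ _)) hs (fun j => by positivity) (j1 := j1)
    (fun j hj => by
      obtain ⟨g1, g2⟩ := hj1 j hj
      have hj0 : (0:ℝ) < j := by exact_mod_cast g2
      obtain ⟨δ1, hδ1, h3⟩ := h ((1/2) ^ j) (aj (l * (1/2) ^ n) j) (Real.exp (-(lam * j / 2)))
        (by positivity) g1 (aj_pos (by positivity) g2) (Real.exp_pos _)
      refine ⟨δ1, hδ1, fun δ hδ hδ' => (h3 δ hδ hδ').trans (le_of_eq ?_)⟩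
      have e1 : (aj (l * (1/2) ^ n) j / ((1/2 : ℝ) ^ j) ^ (7/4 : ℝ) / l) ^ 8 = lam * j := by
        unfold aj
        have h5 : (0:ℝ) < ((1/2 : ℝ) ^ j) ^ (7/4 : ℝ) := by positivity
        have e2 : l * (1/2) ^ n * ((((1/2 : ℝ)) ^ j) ^ (7/4 : ℝ) * (j : ℝ) ^ (1/8 : ℝ)) /
            ((1/2 : ℝ) ^ j) ^ (7/4 : ℝ) / l = (1/2) ^ n * (j : ℝ) ^ (1/8 : ℝ) := by
          field_simp
        rw [e2, mul_pow, ← hlam, ← Real.rpow_natCast ((j : ℝ) ^ (1/8 : ℝ)) 8,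
          ← Real.rpow_mul hj0.le]
        norm_num
      rw [e1, ← Real.exp_nat_mul, div_eq_mul_inv, ← Real.exp_neg, mul_assoc, ← Real.exp_add]
      congr 2
      ring) hδ hlim hμ
  filter_upwards [h2] with p hp
  filter_upwards [hp] with j hj
  exact not_lt.mp hj

end Pool.Agent.Y995.TP
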