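import Pool.Agent.Y995.TP.Gen
import Pool.Agent.Y995.TP.Upp
import Pool.Agent.Y41.EV.StmL

/-!
Fast times: upper bound for the dimension.
-/

set_option autoImplicit false
set_option linter.unusedVariables false

namespace Pool.Agent.Y995.TP

open H974 Finset H342P H984P H984N Pool.Agent.Y995.FS Pool.Agent.Y995.HG Pool.Agent.Y41.EV
open MeasureTheory Filter Topology
open scoped ENNReal NNReal

/-- fast times -/
def Ft (θ : ℝ) (p : X) : Set unitInterval :=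
  {u | ∃ᶠ h : ℝ in 𝓝[>] 0, ∃ v : unitInterval, p.2 * |(v : ℝ) - u| ≤ h ∧
    θ * (h ^ (4/7 : ℝ) * Real.log (1 / h) ^ (3/7 : ℝ)) ≤ dist (p.1 v) (p.1 u)}

/-- displacements -/
noncomputable def yj (x : ℝ) (j : ℕ) : ℝ :=
  x * ((((1:ℝ)/2) ^ j) ^ (4/7 : ℝ) * (j : ℝ) ^ (3/7 : ℝ))

theorem yj_pos {x : ℝ} (hx : 0 < x) {j : ℕ} (hj : 1 ≤ j) : 0 < yj x j := by
  have : (0:ℝ) < j := by exact_mod_cast hj
  unfold yj; positivity

theorem yj_ge {x : ℝ} (hx : 0 < x) {j : ℕ} (hj : 1 ≤ j) : x * (1/2) ^ j ≤ yj x j := by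
  have hj0 : (1:ℝ) ≤ j := by exact_mod_cast hj
  have h1 : ((1:ℝ)/2) ^ j ≤ (((1:ℝ)/2) ^ j) ^ (4/7 : ℝ) := by
    have h2 : ((1:ℝ)/2) ^ j ≤ 1 := pow_le_one₀ (by norm_num) (by norm_num)
    have := Real.rpow_le_rpow_of_exponent_ge (x := ((1:ℝ)/2) ^ j) (by positivity) h2
      (show (4/7 : ℝ) ≤ 1 by norm_num)
    rwa [Real.rpow_one] at this
  have h3 : 1 ≤ (j : ℝ) ^ (3/7 : ℝ) := Real.one_le_rpow hj0 (by norm_num)
  have h4 : 0 < (((1:ℝ)/2) ^ j) ^ (4/7 : ℝ) := by positivity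
  unfold yj
  refine mul_le_mul_of_nonneg_left ?_ hx.le
  nlinarith

theorem scale_geF {θ x h : ℝ} (hx : 0 < x) (hθ : 8 * x ≤ θ) {j : ℕ} (hj : 1 ≤ j) (hh : 0 < h)
    (h1 : (1/2 : ℝ) ^ (j + 1) < h) (h2 : h ≤ (1/2 : ℝ) ^ j) :
    2 * yj x j ≤ θ * (h ^ (4/7 : ℝ) * Real.log (1 / h) ^ (3/7 : ℝ)) := by
  obtain ⟨w, hw⟩ : ∃ w : ℝ, w = (1/2) ^ j := ⟨_, rfl⟩
  have hw0 : 0 < w := by rw [hw]; positivity
  have hj0 : (1:ℝ) ≤ j := by exact_mod_cast hj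
  have e : (1/2 : ℝ) ^ (j + 1) = w / 2 := by rw [pow_succ, ← hw]; ring
  rw [e] at h1
  rw [← hw] at h2
  have two : ∀ a : ℝ, 0 ≤ a → a ≤ 1 → (2:ℝ) ^ a ≤ 2 := by
    intro a ha ha1
    have : (2:ℝ) ^ a ≤ 2 ^ (1 : ℝ) := Real.rpow_le_rpow_of_exponent_le (by norm_num) ha1
    rwa [Real.rpow_one] at this
  have h3 : w ^ (4/7 : ℝ) / 2 ≤ h ^ (4/7 : ℝ) := by
    have h4 : (w / 2) ^ (4/7 : ℝ) ≤ h ^ (4/7 : ℝ) :=
      Real.rpow_le_rpow (by positivity) (by linarith) (by norm_num)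
    rw [Real.div_rpow hw0.le (by norm_num)] at h4
    exact (div_le_div_of_nonneg_left (by positivity) (by positivity)
      (two _ (by norm_num) (by norm_num))).trans h4
  have hlog : (j : ℝ) / 2 ≤ Real.log (1 / h) := by
    have h4 : 1 / w ≤ 1 / h := one_div_le_one_div_of_le hh (by linarith)
    have h5 : Real.log (1 / w) = j * Real.log 2 := by
      rw [hw, one_div, ← inv_pow, Real.log_pow]
      congr 2
      norm_num
    have h6 := Real.log_le_log (by positivity) h4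
    rw [h5] at h6
    have := Real.log_two_gt_d9
    nlinarith
  have h6 : (j : ℝ) ^ (3/7 : ℝ) / 2 ≤ Real.log (1 / h) ^ (3/7 : ℝ) := by
    have h7 : ((j : ℝ) / 2) ^ (3/7 : ℝ) ≤ Real.log (1 / h) ^ (3/7 : ℝ) :=
      Real.rpow_le_rpow (by positivity) hlog (by norm_num)
    rw [Real.div_rpow (by positivity) (by norm_num)] at h7
    exact (div_le_div_of_nonneg_left (by positivity) (by positivity)
      (two _ (by norm_num) (by norm_num))).trans h7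
  have h7 : w ^ (4/7 : ℝ) / 2 * ((j : ℝ) ^ (3/7 : ℝ) / 2) ≤
      h ^ (4/7 : ℝ) * Real.log (1 / h) ^ (3/7 : ℝ) :=
    mul_le_mul h3 h6 (by positivity) (by positivity)
  unfold yj
  rw [← hw]
  calc 2 * (x * (w ^ (4/7 : ℝ) * (j : ℝ) ^ (3/7 : ℝ)))
      = (8 * x) * (w ^ (4/7 : ℝ) / 2 * ((j : ℝ) ^ (3/7 : ℝ) / 2)) := by ring
    _ ≤ θ * (w ^ (4/7 : ℝ) / 2 * ((j : ℝ) ^ (3/7 : ℝ) / 2)) :=
        mul_le_mul_of_nonneg_right hθ (by positivity)
    _ ≤ _ := mul_le_mul_of_nonneg_left h7 (by linarith)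

theorem uppF_det {p : X} (hp : 0 < p.2) {Λ : ℝ} (hΛ : 0 < Λ)
    (hH : ∀ s t : unitInterval, dist (p.1 s) (p.1 t) ≤ Λ * |(s : ℝ) - t| ^ (1/2 : ℝ))
    {x lam θ : ℝ} (hx : 0 < x) (hlam : 0 < lam) (hlam1 : lam ≤ 1) (hθ : 8 * x ≤ θ)
    (hV : ∀ᶠ j : ℕ in atTop, p.2 * (volume (FT p (yj x j) (2 * (1/2) ^ j))).toReal ≤
      Real.exp (-(lam * j / 2))) :
    dimH (Ft θ p) ≤ ENNReal.ofReal (1 - lam / 4) := by
  obtain ⟨m0, hm0⟩ : ∃ m0 : ℕ, m0 = ⌈(2 * Λ / x) ^ 2⌉₊ + ⌈p.2⌉₊ + 1 := ⟨_, rfl⟩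
  have hm1 : (2 * Λ / x) ^ 2 ≤ m0 := by
    rw [hm0]; push_cast
    have := Nat.le_ceil ((2 * Λ / x) ^ 2)
    have h2 : (0:ℝ) ≤ ((⌈p.2⌉₊ : ℕ) : ℝ) := Nat.cast_nonneg _
    linarith
  have hmT : p.2 < m0 := by
    rw [hm0]; push_cast
    have := Nat.le_ceil p.2
    have h2 : (0:ℝ) ≤ ((⌈(2 * Λ / x) ^ 2⌉₊ : ℕ) : ℝ) := Nat.cast_nonneg _
    linarith
  have hm2 : 0 < m0 := by omega
  have hm3 : (0:ℝ) < m0 := by exact_mod_cast hm2
  refine dim_nbhd hp hm2 hlam hlam1 (V := fun j => FT p (yj x j) (2 * (1/2) ^ j)) hV ?_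
  intro u hu
  rw [frequently_atTop]
  intro J
  have h1 : ∀ᶠ h : ℝ in 𝓝[>] 0, h < (1/2) ^ (J + 3) := by
    refine mem_nhdsWithin_of_mem_nhds (gt_mem_nhds (by positivity))
  have h2 : ∀ᶠ h : ℝ in 𝓝[>] 0, 0 < h := self_mem_nhdsWithin
  obtain ⟨h, ⟨v, hv1, hv2⟩, hr2, hr3⟩ := (hu.and_eventually (h1.and h2)).exists
  have hle1 : ((1:ℝ)/2) ^ (J + 3) ≤ 1 := pow_le_one₀ (by norm_num) (by norm_num)
  obtain ⟨j, hj1, hj2⟩ := exists_nat_pow_near_of_lt_one hr3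
    (hr2.le.trans hle1) (show (0:ℝ) < 1/2 by norm_num) (by norm_num)
  have hjJ : J + 1 ≤ j := by
    by_contra hcon
    push Not at hcon
    have : ((1:ℝ)/2) ^ (J + 3) ≤ (1/2) ^ (j + 1) :=
      pow_le_pow_of_le_one (by norm_num) (by norm_num) (by omega)
    linarith
  refine ⟨j, by omega, fun y hy => ?_⟩
  have hsc := (scale_geF hx hθ (by omega) hr3 hj1 hj2).trans hv2
  have hw0 : (0:ℝ) < (1/2) ^ j := by positivity
  have hw1 : ((1:ℝ)/2) ^ j ≤ 1 := pow_le_one₀ (by norm_num) (by norm_num)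
  have e4 : (1 : ℝ) / (m0 * 4 ^ j) = 1 / m0 * ((1/2) ^ j) ^ 2 := by
    rw [← pow_mul, mul_comm j 2, pow_mul]
    have : ((1:ℝ)/2) ^ 2 = 1/4 := by norm_num
    rw [this, div_pow, one_pow]
    field_simp
  have hge := yj_ge hx (show 1 ≤ j by omega)
  have d2 : |(u : ℝ) - y| ^ (1/2 : ℝ) ≤ x * (1/2) ^ j / (2 * Λ) := by
    have h5 : |(u : ℝ) - y| ≤ (x * (1/2) ^ j / (2 * Λ)) ^ 2 := by
      refine hy.trans ?_
      rw [e4]
      have h6 : 1 / (m0 : ℝ) ≤ (x / (2 * Λ)) ^ 2 := by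
        have h7 : (x / (2 * Λ)) ^ 2 = 1 / (2 * Λ / x) ^ 2 := by
          rw [one_div, ← inv_pow, inv_div]
        rw [h7]
        exact one_div_le_one_div_of_le (by positivity) hm1
      calc 1 / (m0 : ℝ) * ((1/2) ^ j) ^ 2 ≤ (x / (2 * Λ)) ^ 2 * ((1/2) ^ j) ^ 2 :=
            mul_le_mul_of_nonneg_right h6 (by positivity)
        _ = (x * (1/2) ^ j / (2 * Λ)) ^ 2 := by rw [← mul_pow]; congr 1; ring
    have h6 := Real.rpow_le_rpow (abs_nonneg _) h5 (show (0:ℝ) ≤ 1/2 by norm_num)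
    refine h6.trans (le_of_eq ?_)
    rw [← Real.rpow_natCast (x * (1/2) ^ j / (2 * Λ)) 2, ← Real.rpow_mul (by positivity)]
    norm_num
  have d3 : dist (p.1 u) (p.1 y) ≤ x * (1/2) ^ j / 2 := by
    refine (hH u y).trans ?_
    calc Λ * |(u : ℝ) - y| ^ (1/2 : ℝ) ≤ Λ * (x * (1/2) ^ j / (2 * Λ)) :=
          mul_le_mul_of_nonneg_left d2 hΛ.le
      _ = x * (1/2) ^ j / 2 := by field_simp
  refine ⟨v, ?_, ?_⟩
  · have h5 : p.2 * |(u : ℝ) - y| < (1/2) ^ j := by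
      have h6 : p.2 * |(u : ℝ) - y| ≤ p.2 * (1 / m0 * ((1/2) ^ j) ^ 2) := by
        rw [← e4]
        exact mul_le_mul_of_nonneg_left hy hp.le
      have h7 : p.2 / m0 < 1 := by rw [div_lt_one hm3]; exact hmT
      have h8 : ((1:ℝ)/2 ^ j) = (1/2) ^ j := by rw [div_pow, one_pow]
      calc p.2 * |(u : ℝ) - y| ≤ p.2 * (1 / m0 * ((1/2) ^ j) ^ 2) := h6
        _ = p.2 / m0 * ((1/2) ^ j * (1/2) ^ j) := by ring
        _ < 1 * ((1/2) ^ j * (1/2) ^ j) := mul_lt_mul_of_pos_right h7 (by positivity)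
        _ ≤ (1/2) ^ j := by nlinarith
    have h9 : |(v : ℝ) - y| ≤ |(v : ℝ) - u| + |(u : ℝ) - y| := abs_sub_le _ _ _
    have h10 := mul_le_mul_of_nonneg_left h9 hp.le
    rw [mul_add] at h10
    linarith
  · have t1 := dist_triangle (p.1 v) (p.1 y) (p.1 u)
    rw [dist_comm (p.1 y) (p.1 u)] at t1
    have : 0 < x * (1/2) ^ j := by positivity
    linarith

theorem uppF_as (hopen : S_FTOPEN) {a B : ℝ} (ha : 0 < a) (hB : 0 < B) {R : Rect} {A y0 : ℝ}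
    (hA : 0 < A) (hy0 : 0 < y0) (h : FTL a B R A y0) {x : ℝ} (hx : 0 < x)
    {δ : ℕ → ℝ} (hδ : ∀ i, 0 < δ i) (hlim : Tendsto δ atTop (𝓝 0))
    {μ : ProbabilityMeasure X} (hμ : Tendsto (fun i => R.law (δ i)) atTop (𝓝 μ)) :
    ∀ᵐ p ∂(μ : Measure X), ∀ᶠ j : ℕ in atTop,
      p.2 * (volume (FT p (yj x j) (2 * (1/2) ^ j))).toReal ≤
        Real.exp (-(a * x ^ (7/3 : ℝ) / 2 ^ (4/3 : ℝ) * j / 2)) := by
  obtain ⟨lam, hlam⟩ : ∃ lam : ℝ, lam = a * x ^ (7/3 : ℝ) / 2 ^ (4/3 : ℝ) := ⟨_, rfl⟩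
  have hlam0 : 0 < lam := by rw [hlam]; positivity
  rw [← hlam]
  have hylim : Tendsto (yj x) atTop (𝓝 0) := by
    have h1 : Tendsto (fun j : ℕ => x * ((j : ℝ) ^ 1 * (((1:ℝ)/2) ^ (4/7 : ℝ)) ^ j)) atTop
        (𝓝 (x * 0)) := by
      refine Tendsto.const_mul x ?_
      refine tendsto_pow_const_mul_const_pow_of_lt_one 1 (by positivity) ?_
      exact Real.rpow_lt_one (by norm_num) (by norm_num) (by norm_num)
    rw [mul_zero] at h1
    refine squeeze_zero' (Eventually.of_forall fun j => ?_) ?_ h1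
    · unfold yj; positivity
    · filter_upwards [eventually_ge_atTop 1] with j hj
      have hj0 : (1:ℝ) ≤ j := by exact_mod_cast hj
      unfold yj
      refine mul_le_mul_of_nonneg_left ?_ hx.le
      rw [mul_comm, ← Real.rpow_natCast ((1:ℝ)/2) j, ← Real.rpow_mul (by norm_num),
        mul_comm (j : ℝ) (4/7), Real.rpow_mul (by norm_num), Real.rpow_natCast]
      refine mul_le_mul_of_nonneg_right ?_ (by positivity)
      have := Real.rpow_le_rpow_of_exponent_le hj0 (show (3/7 : ℝ) ≤ 1 by norm_num)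
      rw [Real.rpow_one] at this
      rw [pow_one]
      exact this
  have hyp : ∀ j : ℕ, yj x j ^ (7/4 : ℝ) =
      x ^ (7/4 : ℝ) * ((1/2) ^ j * (j : ℝ) ^ (3/4 : ℝ)) := by
    intro j
    unfold yj
    rw [Real.mul_rpow hx.le (by positivity), Real.mul_rpow (by positivity) (by positivity),
      ← Real.rpow_mul (by positivity), ← Real.rpow_mul (by positivity)]
    norm_num
  have hev : ∀ᶠ j : ℕ in atTop, (1 ≤ j ∧ yj x j ≤ y0) ∧ 2 * B ≤ x ^ (7/4 : ℝ) * (j : ℝ) ^ (3/4 : ℝ) := by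
    refine ((eventually_ge_atTop 1).and (hylim.eventually (ge_mem_nhds hy0))).and ?_
    have h1 : Tendsto (fun j : ℕ => x ^ (7/4 : ℝ) * (j : ℝ) ^ (3/4 : ℝ)) atTop atTop := by
      refine Tendsto.const_mul_atTop (by positivity) ?_
      exact (tendsto_rpow_atTop (by norm_num)).comp tendsto_natCast_atTop_atTop
    exact h1.eventually (eventually_ge_atTop _)
  rw [eventually_atTop] at hev
  obtain ⟨j1, hj1⟩ := hev
  have hs : Summable (fun j : ℕ => A * (Real.exp (-(lam / 2))) ^ j) := by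
    refine (summable_geometric_of_lt_one (Real.exp_nonneg _) ?_).mul_left _
    rw [Real.exp_lt_one_iff]
    linarith
  have h2 := bc3 R (B := fun j : ℕ => {p : X | Real.exp (-(lam * j / 2)) <
      p.2 * (volume (FT p (yj x j) (2 * (1/2) ^ j))).toReal})
    (fun j => hopen _ _ _ (Real.exp_nonneg _)) hs (fun j => by positivity) (j1 := j1)
    (fun j hj => by
      obtain ⟨⟨g1, g2⟩, g3⟩ := hj1 j hj
      have hj0 : (0:ℝ) < j := by exact_mod_cast g1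
      have hw0 : (0:ℝ) < (1/2) ^ j := by positivity
      obtain ⟨δ1, hδ1, h3⟩ := h (yj x j) (2 * (1/2) ^ j) (Real.exp (-(lam * j / 2)))
        (yj_pos hx g1) g2 (by positivity) (by
          rw [hyp]
          calc B * (2 * (1/2) ^ j) = (2 * B) * (1/2) ^ j := by ring
            _ ≤ (x ^ (7/4 : ℝ) * (j : ℝ) ^ (3/4 : ℝ)) * (1/2) ^ j :=
              mul_le_mul_of_nonneg_right g3 hw0.le
            _ = _ := by ring) (Real.exp_pos _)
      refine ⟨δ1, hδ1, fun δ hδ hδ' => (h3 δ hδ hδ').trans (le_of_eq ?_)⟩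
      have e1 : a * (yj x j ^ (7/4 : ℝ) / (2 * (1/2) ^ j)) ^ (4/3 : ℝ) = lam * j := by
        rw [hyp]
        have e2 : x ^ (7/4 : ℝ) * ((1/2) ^ j * (j : ℝ) ^ (3/4 : ℝ)) / (2 * (1/2) ^ j) =
            x ^ (7/4 : ℝ) * (j : ℝ) ^ (3/4 : ℝ) / 2 := by
          field_simp
        rw [e2, Real.div_rpow (by positivity) (by norm_num), Real.mul_rpow (by positivity)
          (by positivity), ← Real.rpow_mul hx.le, ← Real.rpow_mul hj0.le, hlam]
        norm_num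
        ring
      rw [e1, ← Real.exp_nat_mul, mul_div_assoc, div_eq_mul_inv, ← Real.exp_neg, ← Real.exp_add]
      congr 2
      ring) hδ hlim hμ
  filter_upwards [h2] with p hp
  filter_upwards [hp] with j hj
  exact not_lt.mp hj

end Pool.Agent.Y995.TP
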