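import Pool.Agent.Y995.TP.LowF
import Pool.Agent.Y995.TP.Upp
import Pool.Agent.Y985.ME.Top
import Pool.Agent.H443R3.UD.Lim2
import Pool.Agent.H443R3.UD.Unif
import Pool.Agent.H443R3.UD.Sum

/-!
Thick times: the dimension of the thick times and points of the limits.
-/

set_option autoImplicit false
set_option linter.unusedVariables false

namespace Pool.Agent.Y995.TP

open H974 Finset H342P H984P H984N Pool.Agent.Y995.FS Pool.Agent.Y995.HG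
open MeasureTheory Filter Topology
open scoped ENNReal NNReal

theorem thick_of {κ q θ : ℝ} (hκ : 0 < κ) (hq : 0 < q) (hθ : 25 * θ ≤ κ * q ^ (1/4 : ℝ))
    (hθ0 : 0 < θ) {p : X} {u : unitInterval} (h : ∃ᶠ j : ℕ in atTop, tj κ q j ≤
      p.2 * (volume {v : unitInterval | dist (p.1 v) (p.1 u) ≤ 5 * (1/2) ^ j}).toReal) :
    u ∈ Th θ p := by
  have h0 : Tendsto (fun j : ℕ => 5 * ((1:ℝ)/2) ^ j) atTop (𝓝[>] 0) := by
    rw [tendsto_nhdsWithin_iff]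
    refine ⟨?_, Eventually.of_forall fun j => ?_⟩
    · have h2 : Tendsto (fun j : ℕ => ((1:ℝ)/2) ^ j) atTop (𝓝 0) :=
        tendsto_pow_atTop_nhds_zero_of_lt_one (by norm_num) (by norm_num)
      have := h2.const_mul 5
      rwa [mul_zero] at this
    · show (0:ℝ) < 5 * (1/2) ^ j
      positivity
  refine h0.frequently ?_
  refine (h.and_eventually (eventually_ge_atTop 3)).mono ?_
  rintro j ⟨h1, h3⟩
  refine le_trans ?_ h1
  obtain ⟨w, hw⟩ : ∃ w : ℝ, w = (1/2) ^ j := ⟨_, rfl⟩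
  have hw0 : 0 < w := by rw [hw]; positivity
  have hj0 : (3:ℝ) ≤ j := by exact_mod_cast h3
  have hw8 : w ≤ 1/8 := by
    have : ((1:ℝ)/2) ^ j ≤ (1/2) ^ 3 := pow_le_pow_of_le_one (by norm_num) (by norm_num) h3
    rw [hw]
    norm_num at this ⊢
    exact this
  have h5 : (5 * w) ^ (7/4 : ℝ) ≤ 25 * w ^ (7/4 : ℝ) := by
    rw [Real.mul_rpow (by norm_num) hw0.le]
    refine mul_le_mul_of_nonneg_right ?_ (by positivity)
    have : (5:ℝ) ^ (7/4 : ℝ) ≤ 5 ^ (2 : ℝ) :=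
      Real.rpow_le_rpow_of_exponent_le (by norm_num) (by norm_num)
    refine this.trans (le_of_eq ?_)
    norm_num
  have hlog0 : 0 ≤ Real.log (1 / (5 * w)) := by
    refine Real.log_nonneg ?_
    rw [le_div_iff₀ (by positivity)]
    linarith
  have hlog : Real.log (1 / (5 * w)) ≤ j := by
    have h4 : 1 / (5 * w) ≤ 1 / w := one_div_le_one_div_of_le hw0 (by linarith)
    have h6 : Real.log (1 / w) = j * Real.log 2 := by
      rw [hw, one_div, ← inv_pow, Real.log_pow]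
      congr 2
      norm_num
    have h7 := Real.log_le_log (by positivity) h4
    rw [h6] at h7
    have := Real.log_two_lt_d9
    nlinarith
  have h6 : Real.log (1 / (5 * w)) ^ (1/8 : ℝ) ≤ (j : ℝ) ^ (1/8 : ℝ) :=
    Real.rpow_le_rpow hlog0 hlog (by norm_num)
  have h7 : q ^ (1/4 : ℝ) * (j : ℝ) ^ (1/8 : ℝ) ≤ ((kt q j : ℕ) : ℝ) ^ (1/4 : ℝ) := by
    have h8 := Real.rpow_le_rpow (by positivity) (kt_low q j) (show (0:ℝ) ≤ 1/4 by norm_num)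
    rw [Real.mul_rpow hq.le (Real.sqrt_nonneg _), Real.sqrt_eq_rpow,
      ← Real.rpow_mul (by positivity)] at h8
    norm_num at h8 ⊢
    exact h8
  unfold tj
  rw [← hw]
  calc θ * ((5 * w) ^ (7/4 : ℝ) * Real.log (1 / (5 * w)) ^ (1/8 : ℝ))
      ≤ θ * ((25 * w ^ (7/4 : ℝ)) * (j : ℝ) ^ (1/8 : ℝ)) := by gcongr
    _ = (25 * θ) * (w ^ (7/4 : ℝ) * (j : ℝ) ^ (1/8 : ℝ)) := by ring
    _ ≤ (κ * q ^ (1/4 : ℝ)) * (w ^ (7/4 : ℝ) * (j : ℝ) ^ (1/8 : ℝ)) :=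
        mul_le_mul_of_nonneg_right hθ (by positivity)
    _ = κ * ((q ^ (1/4 : ℝ) * (j : ℝ) ^ (1/8 : ℝ)) * w ^ (7/4 : ℝ)) := by ring
    _ ≤ κ * (((kt q j : ℕ) : ℝ) ^ (1/4 : ℝ) * w ^ (7/4 : ℝ)) := by gcongr

theorem thick_times : ∃ c C θ0 : ℝ, 0 < c ∧ 0 < C ∧ 0 < θ0 ∧ C * θ0 ^ 8 < 1 ∧ ∀ R : Rect,
    (∀ δ : ℕ → ℝ, (∀ i, 0 < δ i) → Tendsto δ atTop (𝓝 0) →
      ∃ φ : ℕ → ℕ, StrictMono φ ∧ ∃ μ : ProbabilityMeasure X,
        Tendsto (fun i => R.law (δ (φ i))) atTop (𝓝 μ)) ∧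
    ∀ δ : ℕ → ℝ, (∀ i, 0 < δ i) → Tendsto δ atTop (𝓝 0) → ∀ μ : ProbabilityMeasure X,
      Tendsto (fun i => R.law (δ i)) atTop (𝓝 μ) →
      ∀ᵐ p ∂(μ : Measure X), 0 < p.2 ∧ (∀ E : Set unitInterval, dimH (p.1 '' E) = 7 / 4 * dimH E) ∧
        ∀ θ : ℝ, 0 < θ → θ ≤ θ0 → dimH (Th θ p) ≤ ENNReal.ofReal (1 - c * θ ^ 8) ∧
          ∀ s t : unitInterval, s < t →
            ENNReal.ofReal (1 - C * θ ^ 8) ≤ dimH (Set.Icc s t ∩ Th θ p) := by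
  obtain ⟨⟨c, hc, hL⟩, ⟨C, hC, hU⟩, C2, hC2, hA⟩ := Pool.Agent.Y985.ME.inputs
  obtain ⟨κ, K, hκ, hK, hlow⟩ := low_as hc hC hL hU hC2 hA
  obtain ⟨l, hl, hocc⟩ := occ_lat hC hU
  obtain ⟨q0, hq0⟩ : ∃ q0 : ℝ, q0 = 1 / (14 * K) := ⟨_, rfl⟩
  have hq0p : 0 < q0 := by rw [hq0]; positivity
  have hKq0 : K * q0 ^ 2 ≤ 1 / 196 := by
    rw [hq0, div_pow, one_pow, mul_one_div, div_le_div_iff₀ (by positivity) (by norm_num)]
    nlinarith
  obtain ⟨θa, hθa⟩ : ∃ θa : ℝ, θa = κ * q0 ^ (1/4 : ℝ) / 25 := ⟨_, rfl⟩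
  have hθa0 : 0 < θa := by rw [hθa]; positivity
  obtain ⟨θ0, hθ0⟩ : ∃ θ0 : ℝ, θ0 = min θa (64 * l) := ⟨_, rfl⟩
  have hθ00 : 0 < θ0 := by rw [hθ0]; exact lt_min hθa0 (by positivity)
  have hθ01 : θ0 ≤ θa := by rw [hθ0]; exact min_le_left _ _
  have hθ02 : θ0 ≤ 64 * l := by rw [hθ0]; exact min_le_right _ _
  have hpow : ∀ θ : ℝ, 0 < θ → θ ≤ θ0 → (25 * θ / κ) ^ 4 ≤ q0 := by
    intro θ h1 h2
    have h3 : 25 * θ / κ ≤ q0 ^ (1/4 : ℝ) := by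
      rw [div_le_iff₀ hκ]
      have := h2.trans hθ01
      rw [hθa] at this
      linarith
    have h4 := pow_le_pow_left₀ (by positivity) h3 4
    rw [← Real.rpow_natCast (q0 ^ (1/4 : ℝ)) 4, ← Real.rpow_mul hq0p.le] at h4
    norm_num at h4
    exact h4
  refine ⟨(1 / (128 * l)) ^ 8 / 4, 96 * K * (25 / κ) ^ 8, θ0, by positivity, by positivity, hθ00,
    ?_, fun R => ?_⟩
  · have h1 := hpow θ0 hθ00 le_rfl
    have h2 : (25 / κ) ^ 8 * θ0 ^ 8 = ((25 * θ0 / κ) ^ 4) ^ 2 := by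
      rw [← pow_mul, ← mul_pow]; congr 1; ring
    have h3 : ((25 * θ0 / κ) ^ 4) ^ 2 ≤ q0 ^ 2 := pow_le_pow_left₀ (by positivity) h1 2
    calc 96 * K * (25 / κ) ^ 8 * θ0 ^ 8 = 96 * (K * ((25 / κ) ^ 8 * θ0 ^ 8)) := by ring
      _ ≤ 96 * (K * q0 ^ 2) := by rw [h2]; gcongr
      _ < 1 := by linarith
  obtain ⟨h1, h2, h3⟩ := final_of hc hC hL hU hC2 hA R
  refine ⟨h2, fun δ hδ hlim μ hμ => ?_⟩
  obtain ⟨A, w0, hA1, hw0, hlat⟩ := hocc R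
  have hT : ∀ ε : ℝ, 0 < ε → ∃ Λ δ0 : ℝ, 0 < Λ ∧ 0 < δ0 ∧ ∀ δ : ℝ, 0 < δ → δ ≤ δ0 →
      1 - ε ≤ R.prob δ (fun F => 1 / Λ ≤ R.time δ F) := by
    intro ε hε
    obtain ⟨Λ, δ0, hΛ, hδ0, h⟩ := h1 (1/2) ε (by norm_num) (by norm_num) hε
    refine ⟨Λ, δ0, hΛ, hδ0, fun δ hδ hδ' => (h δ hδ hδ').trans ?_⟩
    exact Exist_prob_mono R δ fun F _ hF => hF.1.1
  have hlow' : ∀ᵐ p ∂(μ : Measure X), ∀ n : ℕ, ∀ s t : unitInterval, s < t →
      ENNReal.ofReal (1 - 24 * (K * (q0 * (1/2) ^ n) ^ 2)) ≤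
        dimH {u : unitInterval | (s ≤ u ∧ u ≤ t) ∧
          ∃ᶠ j : ℕ in atTop, tj κ (q0 * (1/2) ^ n) j ≤ p.2 * (volume {v : unitInterval |
            dist (p.1 v) (p.1 u) ≤ 5 * (1/2) ^ j}).toReal} := by
    rw [ae_all_iff]
    intro n
    refine hlow (q0 * (1/2) ^ n) (by positivity) ?_ R δ hδ hlim μ hμ
    have h4 : ((1:ℝ)/2) ^ n ≤ 1 := pow_le_one₀ (by norm_num) (by norm_num)
    have h5 : (q0 * (1/2) ^ n) ^ 2 ≤ q0 ^ 2 :=
      pow_le_pow_left₀ (by positivity) (by nlinarith) 2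
    have h6 := mul_le_mul_of_nonneg_left h5 (show 0 ≤ K by linarith)
    linarith
  filter_upwards [h3 δ hδ hlim μ hμ, hlow', upp_as hl hA1 hw0 hlat hδ hlim hμ,
    H443P.limit_occ_all R hδ hlim hμ hC hU H443U.Sum.t hT] with p g1 g2 g3 ho
  obtain ⟨hp0, -, -, -, hhol, -⟩ := g1
  refine ⟨hp0, ?_, fun θ hθ hθ' => ⟨?_, fun s t hst => ?_⟩⟩
  · exact H443U.Unif.t p.1 hhol fun α h0 h4 => by
      obtain ⟨Λ, -, h⟩ := ho α h0 h4
      exact ⟨Λ, h⟩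
  · obtain ⟨Λ, hΛ⟩ := hhol (1/2) (by norm_num) (by norm_num)
    obtain ⟨n, hn1, hn2⟩ := exists_nat_pow_near_of_lt_one (show 0 < θ / (64 * l) by positivity)
      (by rw [div_le_one (by positivity)]; linarith) (show (0:ℝ) < 1/2 by norm_num) (by norm_num)
    have h4 := upp_det hp0 (Λ := max Λ 1) (lt_of_lt_of_le one_pos (le_max_right _ _))
      (fun u v => (hΛ u v).trans (mul_le_mul_of_nonneg_right (le_max_left _ _)
        (Real.rpow_nonneg (abs_nonneg _) _)))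
      (x := l * (1/2) ^ (n + 1)) (lam := ((1/2) ^ (n + 1)) ^ 8) (θ := θ) (by positivity)
      (by positivity) (by
        refine pow_le_one₀ (by positivity) (pow_le_one₀ (by norm_num) (by norm_num))) (by
        rw [lt_div_iff₀ (by positivity)] at hn1
        linarith) (g3 (n + 1))
    refine h4.trans (ENNReal.ofReal_le_ofReal ?_)
    have h5 : θ / (128 * l) ≤ (1/2) ^ (n + 1) := by
      have e : θ / (128 * l) = θ / (64 * l) / 2 := by field_simp; norm_num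
      rw [e, pow_succ]
      linarith
    have h6 := pow_le_pow_left₀ (by positivity) h5 8
    have e2 : (1 / (128 * l)) ^ 8 / 4 * θ ^ 8 = (θ / (128 * l)) ^ 8 / 4 := by
      rw [div_pow, div_pow]; ring
    rw [e2]
    linarith
  · obtain ⟨n, hn1, hn2⟩ := exists_nat_pow_near_of_lt_one
      (show 0 < (25 * θ / κ) ^ 4 / q0 by positivity)
      (by rw [div_le_one hq0p]; exact hpow θ hθ hθ') (show (0:ℝ) < 1/2 by norm_num) (by norm_num)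
    obtain ⟨q, hq⟩ : ∃ q : ℝ, q = q0 * (1/2) ^ n := ⟨_, rfl⟩
    have hq0' : 0 < q := by rw [hq]; positivity
    have hx1 : (25 * θ / κ) ^ 4 ≤ q := by
      rw [div_le_iff₀ hq0p] at hn2
      rw [hq]; linarith
    have hx2 : q ≤ 2 * (25 * θ / κ) ^ 4 := by
      rw [lt_div_iff₀ hq0p, pow_succ] at hn1
      rw [hq]; linarith
    have hx3 : 25 * θ ≤ κ * q ^ (1/4 : ℝ) := by
      have h4 := Real.rpow_le_rpow (by positivity) hx1 (show (0:ℝ) ≤ 1/4 by norm_num)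
      rw [← Real.rpow_natCast (25 * θ / κ) 4, ← Real.rpow_mul (by positivity)] at h4
      norm_num at h4
      rw [div_le_iff₀ hκ] at h4
      norm_num
      linarith
    have h4 := g2 n s t hst
    rw [← hq] at h4
    refine le_trans (ENNReal.ofReal_le_ofReal ?_) (h4.trans (dimH_mono ?_))
    · have h5 : q ^ 2 ≤ (2 * (25 * θ / κ) ^ 4) ^ 2 := pow_le_pow_left₀ hq0'.le hx2 2
      have e : (2 * (25 * θ / κ) ^ 4) ^ 2 = 4 * ((25 / κ) ^ 8 * θ ^ 8) := by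
        rw [show 25 * θ / κ = 25 / κ * θ by ring]
        ring
      rw [e] at h5
      have h6 := mul_le_mul_of_nonneg_left h5 (show 0 ≤ K by linarith)
      nlinarith
    · rintro u ⟨⟨u1, u2⟩, u3⟩
      exact ⟨⟨u1, u2⟩, thick_of hκ hq0' hx3 hθ u3⟩

end Pool.Agent.Y995.TP
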