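import Pool.Agent.Y995.TP.FastL
import Pool.Agent.Y995.TP.FastU
import Pool.Agent.Y995.TP.Fin

/-!
Fast times: the dimension of the fast times and of their images.
-/

set_option autoImplicit false
set_option linter.unusedVariables false

namespace Pool.Agent.Y995.TP

open H974 Finset H342P H984P H984N Pool.Agent.Y995.FS Pool.Agent.Y995.HG Pool.Agent.Y41.EV
open MeasureTheory Filter Topology
open scoped ENNReal NNReal

theorem tf_lim {θ1 q : ℝ} (hθ : 0 < θ1) : Tendsto (tf θ1 q) atTop (𝓝 0) := by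
  have h1 : Tendsto (fun j : ℕ => θ1 * (((1:ℝ)/2) ^ (7/4 : ℝ)) ^ j) atTop (𝓝 (θ1 * 0)) := by
    refine Tendsto.const_mul θ1 (tendsto_pow_atTop_nhds_zero_of_lt_one (by positivity) ?_)
    exact Real.rpow_lt_one (by norm_num) (by norm_num) (by norm_num)
  rw [mul_zero] at h1
  refine squeeze_zero (fun j => (tf_pos hθ j).le) (fun j => ?_) h1
  have hk : (1:ℝ) ≤ ((kf q j : ℕ) : ℝ) := by exact_mod_cast kf_ge q j
  have h2 : ((kf q j : ℕ) : ℝ) ^ (-(3/4) : ℝ) ≤ 1 :=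
    Real.rpow_le_one_of_one_le_of_nonpos hk (by norm_num)
  unfold tf
  refine mul_le_mul_of_nonneg_left ?_ hθ.le
  have e : (((1:ℝ)/2) ^ (7/4 : ℝ)) ^ j = (((1:ℝ)/2) ^ j) ^ (7/4 : ℝ) := by
    rw [← Real.rpow_natCast (((1:ℝ)/2) ^ (7/4 : ℝ)) j, ← Real.rpow_natCast ((1:ℝ)/2) j,
      ← Real.rpow_mul (by norm_num), ← Real.rpow_mul (by norm_num), mul_comm]
  rw [e]
  have : 0 < (((1:ℝ)/2) ^ j) ^ (7/4 : ℝ) := by positivity
  nlinarith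

theorem fast_of {θ1 q θ : ℝ} (hθ1 : 0 < θ1) (hq : 0 < q) (hq1 : q ≤ 1) (hθ0 : 0 < θ)
    (hθ : 4 * θ1 ^ (4/7 : ℝ) * θ ≤ q ^ (3/7 : ℝ)) {p : X} {u : unitInterval}
    (h : ∃ᶠ j : ℕ in atTop, ∃ v : unitInterval, p.2 * |(v : ℝ) - u| ≤ tf θ1 q j ∧
          (1/2) ^ j / 2 ≤ dist (p.1 v) (p.1 u)) : u ∈ Ft θ p := by
  have h0 : Tendsto (tf θ1 q) atTop (𝓝[>] 0) := by
    rw [tendsto_nhdsWithin_iff]
    exact ⟨tf_lim hθ1, Eventually.of_forall fun j => tf_pos hθ1 j⟩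
  refine h0.frequently ?_
  obtain ⟨n1, hn1⟩ := exists_nat_gt (10 * |Real.log (1 / θ1)| + 100)
  have hev : ∀ᶠ j : ℕ in atTop, tf θ1 q j < 1 := (tf_lim hθ1).eventually (gt_mem_nhds one_pos)
  refine (h.and_eventually ((eventually_ge_atTop n1).and (hev.and
    (lin_exp (B := 1) (c := 1/10) one_pos (by norm_num))))).mono ?_
  rintro j ⟨⟨v, hv1, hv2⟩, h3, h4, h5⟩
  refine ⟨v, hv1, le_trans ?_ hv2⟩
  obtain ⟨w, hw⟩ : ∃ w : ℝ, w = (1/2) ^ j := ⟨_, rfl⟩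
  have hw0 : 0 < w := by rw [hw]; positivity
  have hjn : (n1 : ℝ) ≤ j := by exact_mod_cast h3
  have habs := abs_nonneg (Real.log (1 / θ1))
  have hj0 : (100:ℝ) ≤ j := by linarith
  obtain ⟨k, hk⟩ : ∃ k : ℝ, k = ((kf q j : ℕ) : ℝ) := ⟨_, rfl⟩
  have hk1 : 1 ≤ k := by rw [hk]; exact_mod_cast kf_ge q j
  have hk2 : q * j ≤ k := by rw [hk]; exact kf_low q j
  have hk3 : k ≤ j + 2 := by
    have := kf_up hq j
    rw [← hk] at this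
    nlinarith
  have e : tf θ1 q j = θ1 * (k ^ (-(3/4) : ℝ) * w ^ (7/4 : ℝ)) := by
    unfold tf; rw [← hk, ← hw]
  have ht0 := tf_pos (q := q) hθ1 j
  have hlog0 : 0 ≤ Real.log (1 / tf θ1 q j) := by
    refine Real.log_nonneg ?_
    rw [le_div_iff₀ ht0]
    linarith
  have hlog : Real.log (1 / tf θ1 q j) ≤ 2 * j := by
    have e1 : Real.log (1 / tf θ1 q j) = Real.log (1 / θ1) + 3/4 * Real.log k +
        7/4 * (j * Real.log 2) := by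
      have hlw : Real.log w = -(j * Real.log 2) := by
        rw [hw, Real.log_pow, one_div, Real.log_inv]; ring
      rw [e, one_div, Real.log_inv, Real.log_mul hθ1.ne' (by positivity), Real.log_mul
        (by positivity) (by positivity), Real.log_rpow (by positivity), Real.log_rpow hw0, hlw,
        one_div, Real.log_inv]
      ring
    have h6 : Real.log (1 / θ1) ≤ 1/10 * j := by
      have := le_abs_self (Real.log (1 / θ1))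
      linarith
    have h7 : Real.log k ≤ 1/10 * j := by
      have h8 : k ≤ Real.exp (1/10 * j) := by linarith
      have := Real.log_le_log (by linarith) h8
      rwa [Real.log_exp] at this
    have := Real.log_two_lt_d9
    rw [e1]
    nlinarith
  have h6 : Real.log (1 / tf θ1 q j) ^ (3/7 : ℝ) ≤ 2 * (j : ℝ) ^ (3/7 : ℝ) := by
    have h7 := Real.rpow_le_rpow hlog0 hlog (show (0:ℝ) ≤ 3/7 by norm_num)
    rw [Real.mul_rpow (by norm_num) (by positivity)] at h7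
    have h8 : (2:ℝ) ^ (3/7 : ℝ) ≤ 2 := by
      have : (2:ℝ) ^ (3/7 : ℝ) ≤ 2 ^ (1 : ℝ) :=
        Real.rpow_le_rpow_of_exponent_le (by norm_num) (by norm_num)
      rwa [Real.rpow_one] at this
    exact h7.trans (mul_le_mul_of_nonneg_right h8 (by positivity))
  have h7 : tf θ1 q j ^ (4/7 : ℝ) = θ1 ^ (4/7 : ℝ) * (k ^ (-(3/7) : ℝ) * w) := by
    rw [e, Real.mul_rpow hθ1.le (by positivity), Real.mul_rpow (by positivity) (by positivity),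
      ← Real.rpow_mul (by positivity), ← Real.rpow_mul (by positivity)]
    norm_num
  have h8 : q ^ (3/7 : ℝ) * (j : ℝ) ^ (3/7 : ℝ) * k ^ (-(3/7) : ℝ) ≤ 1 := by
    rw [← Real.mul_rpow hq.le (by positivity), Real.rpow_neg (by positivity), ← div_eq_mul_inv,
      div_le_one (by positivity)]
    exact Real.rpow_le_rpow (by positivity) hk2 (by norm_num)
  rw [← hw, h7]
  have hk7 : 0 < k ^ (-(3/7) : ℝ) := by positivity
  have hj7 : 0 < (j : ℝ) ^ (3/7 : ℝ) := by positivity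
  calc θ * (θ1 ^ (4/7 : ℝ) * (k ^ (-(3/7) : ℝ) * w) * Real.log (1 / tf θ1 q j) ^ (3/7 : ℝ))
      ≤ θ * (θ1 ^ (4/7 : ℝ) * (k ^ (-(3/7) : ℝ) * w) * (2 * (j : ℝ) ^ (3/7 : ℝ))) := by gcongr
    _ = (4 * θ1 ^ (4/7 : ℝ) * θ) * ((j : ℝ) ^ (3/7 : ℝ) * k ^ (-(3/7) : ℝ)) * (w / 2) := by ring
    _ ≤ q ^ (3/7 : ℝ) * ((j : ℝ) ^ (3/7 : ℝ) * k ^ (-(3/7) : ℝ)) * (w / 2) := by gcongr
    _ = (q ^ (3/7 : ℝ) * (j : ℝ) ^ (3/7 : ℝ) * k ^ (-(3/7) : ℝ)) * (w / 2) := by ring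
    _ ≤ 1 * (w / 2) := mul_le_mul_of_nonneg_right h8 (by positivity)
    _ = w / 2 := one_mul _

theorem fast_times (hlatV : ∃ θ K2 A0 : ℝ, 0 < θ ∧ 1 ≤ K2 ∧ 1 ≤ A0 ∧ ∀ R : Rect,
      ∃ A : ℝ, 0 < A ∧ LatV θ K2 A0 R A)
    (hftl : ∃ a B : ℝ, 0 < a ∧ 0 < B ∧ ∀ R : Rect, ∃ A y0 : ℝ, 0 < A ∧ 0 < y0 ∧ FTL a B R A y0)
    (hopen1 : S_BADVO) (hopen2 : S_FTOPEN) :
    ∃ c C θ0 : ℝ, 0 < c ∧ 0 < C ∧ 0 < θ0 ∧ C * θ0 ^ (7/3 : ℝ) < 1 ∧ ∀ R : Rect,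
    (∀ δ : ℕ → ℝ, (∀ i, 0 < δ i) → Tendsto δ atTop (𝓝 0) →
      ∃ φ : ℕ → ℕ, StrictMono φ ∧ ∃ μ : ProbabilityMeasure X,
        Tendsto (fun i => R.law (δ (φ i))) atTop (𝓝 μ)) ∧
    ∀ δ : ℕ → ℝ, (∀ i, 0 < δ i) → Tendsto δ atTop (𝓝 0) → ∀ μ : ProbabilityMeasure X,
      Tendsto (fun i => R.law (δ i)) atTop (𝓝 μ) →
      ∀ᵐ p ∂(μ : Measure X), 0 < p.2 ∧ (∀ E : Set unitInterval, dimH (p.1 '' E) = 7 / 4 * dimH E) ∧
        ∀ θ : ℝ, 0 < θ → θ ≤ θ0 → dimH (Ft θ p) ≤ ENNReal.ofReal (1 - c * θ ^ (7/3 : ℝ)) ∧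
          ∀ s t : unitInterval, s < t →
            ENNReal.ofReal (1 - C * θ ^ (7/3 : ℝ)) ≤ dimH (Set.Icc s t ∩ Ft θ p) := by
  obtain ⟨⟨c, hc, hL⟩, ⟨C, hC, hU⟩, C2, hC2, hA⟩ := Pool.Agent.Y985.ME.inputs
  obtain ⟨θ1, K, A0, hθ1, hK, hA0, hlat⟩ := hlatV
  obtain ⟨a, B, ha, hB, hft⟩ := hftl
  obtain ⟨q0, hq0⟩ : ∃ q0 : ℝ, q0 = 1 / (48 * K) := ⟨_, rfl⟩
  have hq0p : 0 < q0 := by rw [hq0]; positivity
  have hKq0 : K * q0 ≤ 1 / 48 := by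
    rw [hq0]
    refine le_of_eq ?_
    field_simp
  have hq01 : q0 ≤ 1 := by
    rw [hq0, div_le_one (by positivity)]
    linarith
  obtain ⟨D, hD⟩ : ∃ D : ℝ, D = 4 * θ1 ^ (4/7 : ℝ) := ⟨_, rfl⟩
  have hD0 : 0 < D := by rw [hD]; positivity
  obtain ⟨x0, hx0⟩ : ∃ x0 : ℝ, x0 = a ^ (-(3/7) : ℝ) := ⟨_, rfl⟩
  have hx0p : 0 < x0 := by rw [hx0]; positivity
  have hax0 : a * x0 ^ (7/3 : ℝ) = 1 := by
    rw [hx0, ← Real.rpow_mul ha.le]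
    norm_num
    rw [Real.rpow_neg_one, mul_inv_cancel₀ ha.ne']
  obtain ⟨θa, hθa⟩ : ∃ θa : ℝ, θa = q0 ^ (3/7 : ℝ) / D := ⟨_, rfl⟩
  have hθa0 : 0 < θa := by rw [hθa]; positivity
  obtain ⟨θ0, hθ0⟩ : ∃ θ0 : ℝ, θ0 = min θa (8 * x0) := ⟨_, rfl⟩
  have hθ00 : 0 < θ0 := by rw [hθ0]; exact lt_min hθa0 (by positivity)
  have hθ01 : θ0 ≤ θa := by rw [hθ0]; exact min_le_left _ _
  have hθ02 : θ0 ≤ 8 * x0 := by rw [hθ0]; exact min_le_right _ _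
  have hpow : ∀ θ : ℝ, 0 < θ → θ ≤ θ0 → (D * θ) ^ (7/3 : ℝ) ≤ q0 := by
    intro θ h1 h2
    have h3 : D * θ ≤ q0 ^ (3/7 : ℝ) := by
      have := h2.trans hθ01
      rw [hθa, le_div_iff₀ hD0] at this
      linarith
    have h4 := Real.rpow_le_rpow (by positivity) h3 (show (0:ℝ) ≤ 7/3 by norm_num)
    rw [← Real.rpow_mul hq0p.le] at h4
    norm_num at h4 ⊢
    exact h4
  have htwo : (0:ℝ) < 2 ^ (4/3 : ℝ) := by positivity
  have htwo1 : (1:ℝ) ≤ 2 ^ (4/3 : ℝ) := Real.one_le_rpow (by norm_num) (by norm_num)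
  refine ⟨a * (1/16) ^ (7/3 : ℝ) / 2 ^ (4/3 : ℝ) / 4, 12 * K * D ^ (7/3 : ℝ), θ0, by positivity,
    by positivity, hθ00, ?_, fun R => ?_⟩
  · have h1 := hpow θ0 hθ00 le_rfl
    rw [Real.mul_rpow hD0.le hθ00.le] at h1
    have h2 := mul_le_mul_of_nonneg_left h1 (show 0 ≤ K by linarith)
    calc 12 * K * D ^ (7/3 : ℝ) * θ0 ^ (7/3 : ℝ) = 12 * (K * (D ^ (7/3 : ℝ) * θ0 ^ (7/3 : ℝ))) := by
          ring
      _ ≤ 12 * (1/48) := by linarith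
      _ < 1 := by norm_num
  obtain ⟨h1, h2, h3⟩ := final_of hc hC hL hU hC2 hA R
  refine ⟨h2, fun δ hδ hlim μ hμ => ?_⟩
  obtain ⟨A, hA1, hlatR⟩ := hlat R
  obtain ⟨A2, y0, hA2, hy0, hftR⟩ := hft R
  have hT : ∀ ε : ℝ, 0 < ε → ∃ Λ δ0 : ℝ, 0 < Λ ∧ 0 < δ0 ∧ ∀ δ : ℝ, 0 < δ → δ ≤ δ0 →
      1 - ε ≤ R.prob δ (fun F => 1 / Λ ≤ R.time δ F) := by
    intro ε hε
    obtain ⟨Λ, δ0, hΛ, hδ0, h⟩ := h1 (1/2) ε (by norm_num) (by norm_num) hε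
    refine ⟨Λ, δ0, hΛ, hδ0, fun δ hδ hδ' => (h δ hδ hδ').trans ?_⟩
    exact Exist_prob_mono R δ fun F _ hF => hF.1.1
  have hfin : ∀ R : Rect, (∀ δ : ℕ → ℝ, (∀ i, 0 < δ i) → Tendsto δ atTop (𝓝 0) →
      ∀ μ : ProbabilityMeasure X, Tendsto (fun i => R.law (δ i)) atTop (𝓝 μ) →
      ∀ᵐ p ∂(μ : Measure X), 0 < p.2 ∧ p.1 0 = R.a ∧ p.1 1 = 0 ∧
        (∀ s : unitInterval, p.1 s ∈ closure R.D) ∧
        (∀ β : ℝ, 0 < β → β < 4/7 → ∃ Λ : ℝ, ∀ s t : unitInterval,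
          dist (p.1 s) (p.1 t) ≤ Λ * |(s : ℝ) - t| ^ β) ∧
        ∀ s t : unitInterval, s < t → dimH (p.1 '' Set.Icc s t) = 7 / 4) :=
    fun R => (final_of hc hC hL hU hC2 hA R).2.2
  have hlow' : ∀ᵐ p ∂(μ : Measure X), ∀ n : ℕ, ∀ s t : unitInterval, s < t →
      ENNReal.ofReal (1 - 6 * (K * (q0 * (1/2) ^ n))) ≤ dimH {u : unitInterval | (s ≤ u ∧ u ≤ t) ∧
        ∃ᶠ j : ℕ in atTop, ∃ v : unitInterval, p.2 * |(v : ℝ) - u| ≤ tf θ1 (q0 * (1/2) ^ n) j ∧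
          (1/2) ^ j / 2 ≤ dist (p.1 v) (p.1 u)} := by
    rw [ae_all_iff]
    intro n
    refine fast_low hθ1 hK hA0 hopen1 hfin (by positivity) ?_ hA1 hlatR hδ hlim hμ
    have h4 : ((1:ℝ)/2) ^ n ≤ 1 := pow_le_one₀ (by norm_num) (by norm_num)
    have h5 : q0 * (1/2) ^ n ≤ q0 := by nlinarith
    have h6 := mul_le_mul_of_nonneg_left h5 (show 0 ≤ K by linarith)
    linarith
  have hupp' : ∀ᵐ p ∂(μ : Measure X), ∀ n : ℕ, ∀ᶠ j : ℕ in atTop,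
      p.2 * (volume (FT p (yj (x0 * (1/2) ^ n) j) (2 * (1/2) ^ j))).toReal ≤
        Real.exp (-(a * (x0 * (1/2) ^ n) ^ (7/3 : ℝ) / 2 ^ (4/3 : ℝ) * j / 2)) := by
    rw [ae_all_iff]
    intro n
    exact uppF_as hopen2 ha hB hA2 hy0 hftR (by positivity) hδ hlim hμ
  filter_upwards [h3 δ hδ hlim μ hμ, hlow', hupp',
    H443P.limit_occ_all R hδ hlim hμ hC hU H443U.Sum.t hT] with p g1 g2 g3 ho
  obtain ⟨hp0, -, -, -, hhol, -⟩ := g1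
  refine ⟨hp0, ?_, fun θ hθ hθ' => ⟨?_, fun s t hst => ?_⟩⟩
  · exact H443U.Unif.t p.1 hhol fun α h0 h4 => by
      obtain ⟨Λ, -, h⟩ := ho α h0 h4
      exact ⟨Λ, h⟩
  · obtain ⟨Λ, hΛ⟩ := hhol (1/2) (by norm_num) (by norm_num)
    obtain ⟨n, hn1, hn2⟩ := exists_nat_pow_near_of_lt_one (show 0 < θ / (8 * x0) by positivity)
      (by rw [div_le_one (by positivity)]; linarith) (show (0:ℝ) < 1/2 by norm_num) (by norm_num)
    obtain ⟨x, hx⟩ : ∃ x : ℝ, x = x0 * (1/2) ^ (n + 1) := ⟨_, rfl⟩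
    have hxp : 0 < x := by rw [hx]; positivity
    have hx1 : 8 * x ≤ θ := by
      rw [lt_div_iff₀ (by positivity)] at hn1
      rw [hx]
      linarith
    have hx2 : θ / 16 ≤ x := by
      rw [div_le_iff₀ (by positivity)] at hn2
      rw [hx, pow_succ]
      linarith
    have hxx0 : x ≤ x0 := by
      have : ((1:ℝ)/2) ^ (n + 1) ≤ 1 := pow_le_one₀ (by norm_num) (by norm_num)
      rw [hx]
      nlinarith
    have hlam1 : a * x ^ (7/3 : ℝ) / 2 ^ (4/3 : ℝ) ≤ 1 := by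
      rw [div_le_one htwo]
      have h5 := Real.rpow_le_rpow hxp.le hxx0 (show (0:ℝ) ≤ 7/3 by norm_num)
      have h6 := mul_le_mul_of_nonneg_left h5 ha.le
      linarith
    have hg := g3 (n + 1)
    rw [← hx] at hg
    have h4 := uppF_det hp0 (Λ := max Λ 1) (lt_of_lt_of_le one_pos (le_max_right _ _))
      (fun u v => (hΛ u v).trans (mul_le_mul_of_nonneg_right (le_max_left _ _)
        (Real.rpow_nonneg (abs_nonneg _) _)))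
      (x := x) (lam := a * x ^ (7/3 : ℝ) / 2 ^ (4/3 : ℝ)) (θ := θ) hxp
      (by positivity) hlam1 hx1 hg
    refine h4.trans (ENNReal.ofReal_le_ofReal ?_)
    have h6 := Real.rpow_le_rpow (by positivity) hx2 (show (0:ℝ) ≤ 7/3 by norm_num)
    have e2 : (θ / 16) ^ (7/3 : ℝ) = (1/16) ^ (7/3 : ℝ) * θ ^ (7/3 : ℝ) := by
      rw [← Real.mul_rpow (by norm_num) hθ.le]
      congr 1
      ring
    rw [e2] at h6
    have h7 := mul_le_mul_of_nonneg_left h6 ha.le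
    have h8 := div_le_div_of_nonneg_right h7 htwo.le
    have e3 : a * (1/16) ^ (7/3 : ℝ) / 2 ^ (4/3 : ℝ) / 4 * θ ^ (7/3 : ℝ) =
        a * ((1/16) ^ (7/3 : ℝ) * θ ^ (7/3 : ℝ)) / 2 ^ (4/3 : ℝ) / 4 := by ring
    rw [e3]
    linarith
  · obtain ⟨n, hn1, hn2⟩ := exists_nat_pow_near_of_lt_one
      (show 0 < (D * θ) ^ (7/3 : ℝ) / q0 by positivity)
      (by rw [div_le_one hq0p]; exact hpow θ hθ hθ') (show (0:ℝ) < 1/2 by norm_num) (by norm_num)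
    obtain ⟨q, hq⟩ : ∃ q : ℝ, q = q0 * (1/2) ^ n := ⟨_, rfl⟩
    have hq0' : 0 < q := by rw [hq]; positivity
    have hqq0 : q ≤ q0 := by
      have : ((1:ℝ)/2) ^ n ≤ 1 := pow_le_one₀ (by norm_num) (by norm_num)
      rw [hq]
      nlinarith
    have hx1 : (D * θ) ^ (7/3 : ℝ) ≤ q := by
      rw [div_le_iff₀ hq0p] at hn2
      rw [hq]; linarith
    have hx2 : q ≤ 2 * (D * θ) ^ (7/3 : ℝ) := by
      rw [lt_div_iff₀ hq0p, pow_succ] at hn1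
      rw [hq]; linarith
    have hx3 : 4 * θ1 ^ (4/7 : ℝ) * θ ≤ q ^ (3/7 : ℝ) := by
      have h4 := Real.rpow_le_rpow (by positivity) hx1 (show (0:ℝ) ≤ 3/7 by norm_num)
      rw [← Real.rpow_mul (by positivity)] at h4
      norm_num at h4
      rw [hD] at h4
      exact h4
    have h4 := g2 n s t hst
    rw [← hq] at h4
    refine le_trans (ENNReal.ofReal_le_ofReal ?_) (h4.trans (dimH_mono ?_))
    · rw [Real.mul_rpow hD0.le hθ.le] at hx2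
      have h6 := mul_le_mul_of_nonneg_left hx2 (show 0 ≤ K by linarith)
      have e : 12 * K * D ^ (7/3 : ℝ) * θ ^ (7/3 : ℝ) =
          6 * (K * (2 * (D ^ (7/3 : ℝ) * θ ^ (7/3 : ℝ)))) := by ring
      rw [e]
      linarith
    · rintro u ⟨⟨u1, u2⟩, u3⟩
      exact ⟨⟨u1, u2⟩, fast_of hθ1 hq0' (hqq0.trans hq01) hθ hx3 u3⟩

end Pool.Agent.Y995.TP
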