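import Pool.Agent.Y995.TP.Low
import Pool.Agent.Y995.TP.Asy
import Pool.Agent.Y995.HG.LatM
import Pool.Agent.Y995.FS.LimF2

/-!
Thick times: lower bound for the dimension.
-/

set_option autoImplicit false
set_option linter.unusedVariables false

namespace Pool.Agent.Y995.TP

open H974 Finset H342P H984P H984N Pool.Agent.Y995.FS Pool.Agent.Y995.HG
open MeasureTheory Filter Topology
open scoped ENNReal NNReal

theorem bulk_arc {R : Rect} {f : C(unitInterval, ℂ)}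
    (hcl : ∀ s : unitInterval, f s ∈ closure R.D)
    (hd : ∀ s t : unitInterval, s < t → dimH (f '' Set.Icc s t) = 7 / 4) {s t : unitInterval}
    (hst : s < t) : ∃ (s' t' : unitInterval) (i : ℕ), s ≤ s' ∧ s' < t' ∧ t' ≤ t ∧
      ∀ u : unitInterval, s' ≤ u → u ≤ t' → 1 / ((i : ℝ) + 1) < dep R (f u) := by
  obtain ⟨s', t', i, g1, g2, g3, g4, g5⟩ := sub_arc hcl hd hst
  have hc : Continuous (fun u : unitInterval => dep R (f u)) := (dep_cont R).comp f.continuous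
  have hpos : (0:ℝ) < 1 / ((i : ℝ) + 1) := by positivity
  have h1 : {u : unitInterval | 1 / ((i : ℝ) + 1) < dep R (f u)} ∈ 𝓝 s' := by
    refine (isOpen_lt continuous_const hc).mem_nhds ?_
    show 1 / ((i : ℝ) + 1) < dep R (f s')
    linarith
  rw [Metric.mem_nhds_iff] at h1
  obtain ⟨ε, hε, h2⟩ := h1
  have g2' : (s' : ℝ) < t' := g2
  obtain ⟨y, hy⟩ : ∃ y : ℝ, y = min ((s' : ℝ) + ε / 2) t' := ⟨_, rfl⟩
  have hy1 : (s' : ℝ) < y := by rw [hy]; exact lt_min (by linarith) g2'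
  have hy2 : y ≤ t' := by rw [hy]; exact min_le_right _ _
  have hy3 : y ≤ s' + ε / 2 := by rw [hy]; exact min_le_left _ _
  refine ⟨s', ⟨y, s'.2.1.trans hy1.le, hy2.trans t'.2.2⟩, i, g1, hy1, ?_, fun u hu1 hu2 => h2 ?_⟩
  · exact le_trans (show (⟨y, s'.2.1.trans hy1.le, hy2.trans t'.2.2⟩ : unitInterval) ≤ t' from hy2) g3
  · rw [Metric.mem_ball, Subtype.dist_eq, Real.dist_eq]
    have a1 : (s' : ℝ) ≤ u := hu1
    have a2 : (u : ℝ) ≤ y := hu2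
    rw [abs_of_nonneg (by linarith)]
    linarith

theorem low_as {c C C2 : ℝ} (hc : 0 < c) (hC : 0 < C) (hL : LowA c (1/4)) (hU : TwoUp C (1/4))
    (hC2 : 0 < C2) (hA : AnnUp C2) : ∃ κ K : ℝ, 0 < κ ∧ 1 ≤ K ∧ ∀ q : ℝ, 0 < q →
    K * q ^ 2 ≤ 1 / 48 → ∀ R : Rect, ∀ δ : ℕ → ℝ, (∀ i, 0 < δ i) → Tendsto δ atTop (𝓝 0) →
      ∀ μ : ProbabilityMeasure X, Tendsto (fun i => R.law (δ i)) atTop (𝓝 μ) →
      ∀ᵐ p ∂(μ : Measure X), ∀ s t : unitInterval, s < t →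
        ENNReal.ofReal (1 - 24 * (K * q ^ 2)) ≤ dimH {u : unitInterval | (s ≤ u ∧ u ≤ t) ∧
          ∃ᶠ j : ℕ in atTop, tj κ q j ≤ p.2 * (volume {v : unitInterval |
            dist (p.1 v) (p.1 u) ≤ 5 * (1/2) ^ j}).toReal} := by
  obtain ⟨κ, K, A0, hκ, hK, hA0, hml⟩ := many_lat hc hC hL hU
  have hA00 : 0 < A0 := by linarith
  refine ⟨κ, K, hκ, hK, fun q hq hKq R => ?_⟩
  have hKq0 : 0 < K * q ^ 2 := by positivity
  intro δ hδ hlim μ hμ
  obtain ⟨A, hA1, hb⟩ := hml R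
  obtain ⟨-, -, h3⟩ := final_of hc hC hL hU hC2 hA R
  have hbc := bc R (K := 1) le_rfl (B := fun ρ j => BadN R ρ ((1/2) ^ j) (tj κ q j) (hj K A0 q j)
    (6 * j + 36)) (fun ρ j => badN_open R _ _ _ _ _)
    (fun ρ hρ => by
      have h1 : ∀ᶠ j : ℕ in atTop, 1 ≤ j ∧
          A0 * (((1:ℝ)/2) ^ j * Real.exp (2 * (K * ((kt q j : ℕ) : ℝ) ^ 2))) ≤ ρ := by
        refine (eventually_ge_atTop 1).and ?_
        have h2 := (wE_lim hK hq hKq).const_mul A0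
        rw [mul_zero] at h2
        exact h2.eventually (ge_mem_nhds hρ)
      rw [eventually_atTop] at h1
      obtain ⟨j1, hj1⟩ := h1
      refine ⟨A, j1, hA1, fun j hj => ?_⟩
      obtain ⟨g1, g3⟩ := hj1 j hj
      have hw1 : ((1:ℝ)/2) ^ j ≤ 1/2 := by
        have : ((1:ℝ)/2) ^ j ≤ (1/2) ^ 1 := pow_le_pow_of_le_one (by norm_num) (by norm_num) g1
        simpa using this
      obtain ⟨δ1, hδ1, h4⟩ := hb (kt q j) (6 * j + 36) ((1/2) ^ j) ρ (kt_ge q j)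
        (by omega) (by positivity) hw1 g3
      refine ⟨δ1, hδ1, fun δ hδ hδ' => ?_⟩
      exact (h4 δ hδ hδ').trans (pr_small hA1 j))
    hδ hlim hμ
  filter_upwards [h3 δ hδ hlim μ hμ, hbc] with p g1 g2 s t hst
  obtain ⟨hp0, -, -, hcl, hhol, hdim⟩ := g1
  obtain ⟨Λ, hΛ⟩ := hhol (1/2) (by norm_num) (by norm_num)
  obtain ⟨a, b, i, e1, e2, e3, e4⟩ := bulk_arc hcl hdim hst
  have hU := ubi hp0 (Λ := max Λ 1) (lt_of_lt_of_le one_pos (le_max_right _ _))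
    (fun u v => (hΛ u v).trans (mul_le_mul_of_nonneg_right (le_max_left _ _)
      (Real.rpow_nonneg (abs_nonneg _) _)))
    (R := R) (ρ := 1 / ((i : ℝ) + 1)) (w := fun j => (1/2) ^ j) (τ := tj κ q) (h := hj K A0 q)
    (N := fun j => 6 * j + 36) (fun j => by omega) (fun j => by positivity) (tj_pos hκ)
    (hj_pos hA00) (g2 i) (s := 1 - 24 * (K * q ^ 2)) (by linarith) (by linarith)
    (hj_lim hK hA00 hq hKq) (fun c hc => star hK hA00 hκ hq hKq hc) e4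
  have hcan := cantor (s := 1 - 24 * (K * q ^ 2)) (by linarith) (by linarith) (show (a:ℝ) < b from e2)
    hU
  refine hcan.trans ?_
  have hsub : {x : ℝ | x ∈ Set.Icc (a:ℝ) b ∧ ∃ᶠ j in atTop, x ∈ Tk ((1/2) ^ j) (tj κ q j) p} ⊆
      Subtype.val '' {u : unitInterval | (s ≤ u ∧ u ≤ t) ∧
          ∃ᶠ j : ℕ in atTop, tj κ q j ≤ p.2 * (volume {v : unitInterval |
            dist (p.1 v) (p.1 u) ≤ 5 * (1/2) ^ j}).toReal} := by
    rintro x ⟨hx1, hx2⟩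
    refine ⟨⟨x, a.2.1.trans hx1.1, hx1.2.trans b.2.2⟩, ⟨⟨?_, ?_⟩, ?_⟩, rfl⟩
    · exact e1.trans (show (a : ℝ) ≤ x from hx1.1)
    · exact le_trans (show x ≤ (b : ℝ) from hx1.2) e3
    · refine hx2.mono fun j hj => ?_
      obtain ⟨v, hv1, hv2⟩ := hj
      have : v = ⟨x, a.2.1.trans hx1.1, hx1.2.trans b.2.2⟩ := Subtype.ext hv2
      rw [← this]
      exact hv1
  refine (dimH_mono hsub).trans (le_of_eq ?_)
  exact isometry_subtype_coe.dimH_image _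

end Pool.Agent.Y995.TP
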