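import Pool.Agent.Y995.TP.Gen
import Pool.Agent.Y995.TP.AsyF
import Pool.Agent.Y995.TP.LowF
import Pool.Agent.Y41.EV.StmL

/-!
Fast times: lower bound for the dimension.
-/

set_option autoImplicit false
set_option linter.unusedVariables false

namespace Pool.Agent.Y995.TP

open H974 Finset H342P H984P H984N Pool.Agent.Y995.FS Pool.Agent.Y995.HG Pool.Agent.Y41.EV
open MeasureTheory Filter Topology
open scoped ENNReal NNReal

/-- fast times at scale `w` -/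
def Fk (w τ : ℝ) (p : X) : Set ℝ :=
  Subtype.val '' {u : unitInterval | ∃ v : unitInterval,
    p.2 * |(v : ℝ) - u| ≤ τ ∧ w / 2 ≤ dist (p.1 v) (p.1 u)}

/-- cells of fast times inside a piece -/
theorem fast_cells {R : Rect} {p : X} (hp : 0 < p.2) {Λ β : ℝ} (hΛ : 0 < Λ) (hβ : 0 < β)
    (hH : ∀ s t : unitInterval, dist (p.1 s) (p.1 t) ≤ Λ * |(s : ℝ) - t| ^ β)
    {ρ w τ h : ℝ} {N : ℕ} (hN : 0 < N) (hw : 0 < w)
    (hbad : p ∉ BadV R ρ w τ h N) {a b l : ℝ} (ha : 0 ≤ a) (hab : a ≤ b) (hb : b ≤ 1)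
    (hdep : ∀ u : unitInterval, a ≤ u → (u : ℝ) ≤ b → ρ < dep R (p.1 u))
    (hlen : h < p.2 * (b - a)) (hl : 0 < l) {n : ℕ}
    (hn : (n : ℝ) + 2 ≤ (w / Λ) ^ (1 / β) / l) :
    ∃ Q : Finset ℕ, Q.card = n ∧ ∀ k ∈ Q, cell l k ⊆ Set.Icc a b ∩ Fk w τ p := by
  obtain ⟨s, hs⟩ : ∃ s : unitInterval, s = ⟨a, ha, hab.trans hb⟩ := ⟨_, rfl⟩
  obtain ⟨t, ht⟩ : ∃ t : unitInterval, t = ⟨b, ha.trans hab, hb⟩ := ⟨_, rfl⟩
  have hsv : (s : ℝ) = a := by rw [hs]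
  have htv : (t : ℝ) = b := by rw [ht]
  have hz : Pairs p.1 p.2 w τ N s t := by
    by_contra hcon
    apply hbad
    refine ⟨s, t, fun u h1 h2 => ?_, ?_, hcon⟩
    · refine hdep u ?_ ?_
      · rw [← hsv]; exact h1
      · rw [← htv]; exact h2
    · rw [hsv, htv]; exact hlen
  obtain ⟨u, v, h1, -, h2⟩ := hz
  obtain ⟨g1, g2, g3⟩ := h1 ⟨0, hN⟩
  obtain ⟨g4, g5⟩ := h2 ⟨0, hN⟩
  obtain ⟨x, hx⟩ : ∃ x, x = u ⟨0, hN⟩ := ⟨_, rfl⟩
  obtain ⟨y, hy⟩ : ∃ y, y = v ⟨0, hN⟩ := ⟨_, rfl⟩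
  rw [← hx] at g1 g2 g4 g5
  rw [← hy] at g2 g3 g4 g5
  have g1' : (s : ℝ) ≤ x := g1
  have g2' : (x : ℝ) ≤ y := g2
  have g3' : (y : ℝ) ≤ t := g3
  have hlenxy : (w / Λ) ^ (1 / β) ≤ (y : ℝ) - x := by
    have h3 := g4.trans (hH x y)
    have h4 : w / Λ ≤ |(x : ℝ) - y| ^ β := by
      rw [div_le_iff₀ hΛ]; linarith
    have h5 := Real.rpow_le_rpow (by positivity) h4 (show 0 ≤ 1 / β by positivity)
    rw [← Real.rpow_mul (abs_nonneg _), mul_one_div, div_self hβ.ne', Real.rpow_one,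
      abs_sub_comm, abs_of_nonneg (by linarith)] at h5
    exact h5
  obtain ⟨Q, hQc, hQ⟩ := cells_in hl (V := Set.Icc (x:ℝ) y) (a := x) (b := y)
    (v := (w / Λ) ^ (1 / β)) subset_rfl x.2.1 (by
      rw [Real.volume_Icc, ENNReal.toReal_ofReal (by linarith)]
      exact hlenxy) n hn
  refine ⟨Q, hQc, fun k hk z hz => ?_⟩
  have hzxy := (hQ k hk).1 hz
  have hza : a ≤ z := by have := hzxy.1; linarith
  have hzb : z ≤ b := by have := hzxy.2; linarith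
  refine ⟨⟨hza, hzb⟩, ⟨z, ha.trans hza, hzb.trans hb⟩, ?_, rfl⟩
  obtain ⟨z', hz'⟩ : ∃ z' : unitInterval, z' = ⟨z, ha.trans hza, hzb.trans hb⟩ := ⟨_, rfl⟩
  rw [← hz']
  have hzv : (z' : ℝ) = z := by rw [hz']
  have a1 := hzxy.1
  have a2 := hzxy.2
  have t1 := dist_triangle (p.1 x) (p.1 z') (p.1 y)
  rcases le_or_gt (w / 2) (dist (p.1 x) (p.1 z')) with h3 | h3
  · refine ⟨x, ?_, h3⟩
    refine le_trans ?_ g5
    refine mul_le_mul_of_nonneg_left ?_ hp.le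
    rw [hzv, abs_sub_comm, abs_of_nonneg (by linarith)]
    linarith
  · refine ⟨y, ?_, ?_⟩
    · refine le_trans ?_ g5
      refine mul_le_mul_of_nonneg_left ?_ hp.le
      rw [hzv, abs_of_nonneg (by linarith)]
      linarith
    · rw [dist_comm (p.1 y)]
      linarith

/-- every interval contains many cells of fast times -/
theorem ubi_fast {R : Rect} {p : X} (hp : 0 < p.2) {Λ K A θ q : ℝ} (hΛ : 0 < Λ) (hK : 1 ≤ K)
    (hA : 0 < A) (hq : 0 < q) (hKq : K * q ≤ 1 / 48)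
    (hH : ∀ s t : unitInterval, dist (p.1 s) (p.1 t) ≤
      Λ * |(s : ℝ) - t| ^ (1 / (7/4 + K * q))) {ρ : ℝ}
    (hbad : ∀ᶠ j : ℕ in atTop, p ∉ BadV R ρ ((1/2) ^ j) (tf θ q j) (hf K A q j) (6 * j + 36))
    {a b : unitInterval} (hdep : ∀ u : unitInterval, a ≤ u → u ≤ b → ρ < dep R (p.1 u)) :
    Ubi (1 - 6 * (K * q)) (fun j => Fk ((1/2) ^ j) (tf θ q j) p) a b := by
  have hKq0 : 0 < K * q := by positivity
  refine ubi_gen a.2.1 (H := fun j => 2 / p.2 * hf K A q j)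
    (r := fun j => ((1/2) ^ j / Λ) ^ (7/4 + K * q) / 2) (l0 := fun _ => 1)
    (fun j => by have := hf_pos (K := K) (q := q) hA j; positivity) (fun j => by positivity)
    (fun j => one_pos) (by linarith) (by linarith) ?_ ?_ ?_
  · have := (hf_lim hK hA hq hKq).const_mul (2 / p.2)
    rwa [mul_zero] at this
  · intro L hL
    filter_upwards [starF hK hA hΛ hq hKq (c := 2 / p.2 / L) (d := 1 / p.2) (by positivity)
      (by positivity)] with j hj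
    refine le_trans (le_of_eq ?_) hj
    congr 2
    · congr 1
      ring
    · have : (0:ℝ) < ((1/2) ^ j / Λ) ^ (7/4 + K * q) := by positivity
      field_simp
      norm_num
      ring
  · filter_upwards [hbad] with j hj x y hax hyb hxy l hl _ n hn
    have hh := hf_pos (K := K) (q := q) hA j
    have hH0 : 0 < 2 / p.2 * hf K A q j := by positivity
    refine fast_cells hp hΛ (β := 1 / (7/4 + K * q)) (by positivity) hH (N := 6 * j + 36)
      (by omega) (by positivity) hj (a.2.1.trans hax) (by linarith) (hyb.trans b.2.2)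
      (fun u hu1 hu2 => hdep u (show (a:ℝ) ≤ u from hax.trans hu1)
        (show (u:ℝ) ≤ b from hu2.trans hyb)) ?_ hl ?_
    · rw [hxy]
      have e : p.2 * (2 / p.2 * hf K A q j) = 2 * hf K A q j := by field_simp
      rw [e]
      linarith
    · refine hn.trans (le_of_eq ?_)
      rw [one_div_one_div]
      ring

theorem fast_low {θ K A0 : ℝ} (hθ : 0 < θ) (hK : 1 ≤ K) (hA0 : 1 ≤ A0) (hopen : S_BADVO)
    (hfin : ∀ R : Rect, (∀ δ : ℕ → ℝ, (∀ i, 0 < δ i) → Tendsto δ atTop (𝓝 0) →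
      ∀ μ : ProbabilityMeasure X, Tendsto (fun i => R.law (δ i)) atTop (𝓝 μ) →
      ∀ᵐ p ∂(μ : Measure X), 0 < p.2 ∧ p.1 0 = R.a ∧ p.1 1 = 0 ∧
        (∀ s : unitInterval, p.1 s ∈ closure R.D) ∧
        (∀ β : ℝ, 0 < β → β < 4/7 → ∃ Λ : ℝ, ∀ s t : unitInterval,
          dist (p.1 s) (p.1 t) ≤ Λ * |(s : ℝ) - t| ^ β) ∧
        ∀ s t : unitInterval, s < t → dimH (p.1 '' Set.Icc s t) = 7 / 4))
    {q : ℝ} (hq : 0 < q) (hKq : K * q ≤ 1 / 48) {R : Rect} {A : ℝ} (hA : 0 < A)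
    (hlat : LatV θ K A0 R A) {δ : ℕ → ℝ} (hδ : ∀ i, 0 < δ i) (hlim : Tendsto δ atTop (𝓝 0))
    {μ : ProbabilityMeasure X} (hμ : Tendsto (fun i => R.law (δ i)) atTop (𝓝 μ)) :
    ∀ᵐ p ∂(μ : Measure X), ∀ s t : unitInterval, s < t →
      ENNReal.ofReal (1 - 6 * (K * q)) ≤ dimH {u : unitInterval | (s ≤ u ∧ u ≤ t) ∧
        ∃ᶠ j : ℕ in atTop, ∃ v : unitInterval, p.2 * |(v : ℝ) - u| ≤ tf θ q j ∧
          (1/2) ^ j / 2 ≤ dist (p.1 v) (p.1 u)} := by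
  have hA00 : 0 < A0 := by linarith
  have hKq0 : 0 < K * q := by positivity
  have hbc := bc R (K := 1) le_rfl (B := fun ρ j => BadV R ρ ((1/2) ^ j) (tf θ q j) (hf K A0 q j)
    (6 * j + 36)) (fun ρ j => hopen R _ _ _ _ _)
    (fun ρ hρ => by
      have h1 : ∀ᶠ j : ℕ in atTop, 1 ≤ j ∧
          A0 * (((1:ℝ)/2) ^ j * Real.exp (2 * (K * ((kf q j : ℕ) : ℝ)))) ≤ ρ := by
        refine (eventually_ge_atTop 1).and ?_
        have h2 := (wEF_lim hK hq hKq).const_mul A0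
        rw [mul_zero] at h2
        exact h2.eventually (ge_mem_nhds hρ)
      rw [eventually_atTop] at h1
      obtain ⟨j1, hj1⟩ := h1
      refine ⟨A, j1, hA, fun j hj => ?_⟩
      obtain ⟨g1, g3⟩ := hj1 j hj
      have hw1 : ((1:ℝ)/2) ^ j ≤ 1/2 := by
        have : ((1:ℝ)/2) ^ j ≤ (1/2) ^ 1 := pow_le_pow_of_le_one (by norm_num) (by norm_num) g1
        simpa using this
      obtain ⟨δ1, hδ1, h4⟩ := hlat (kf q j) (6 * j + 36) ((1/2) ^ j) ρ (kf_ge q j)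
        (by omega) (by positivity) hw1 g3
      refine ⟨δ1, hδ1, fun δ hδ hδ' => ?_⟩
      exact (h4 δ hδ hδ').trans (pr_small hA j))
    hδ hlim hμ
  filter_upwards [hfin R δ hδ hlim μ hμ, hbc] with p g1 g2 s t hst
  obtain ⟨hp0, -, -, hcl, hhol, hdim⟩ := g1
  obtain ⟨Λ, hΛ⟩ := hhol (1 / (7/4 + K * q)) (by positivity) (by
    rw [div_lt_div_iff₀ (by positivity) (by norm_num)]
    linarith)
  obtain ⟨a, b, i, e1, e2, e3, e4⟩ := bulk_arc hcl hdim hst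
  have hU := ubi_fast hp0 (Λ := max Λ 1) (θ := θ) (lt_of_lt_of_le one_pos (le_max_right _ _)) hK
    hA00 hq hKq
    (fun u v => (hΛ u v).trans (mul_le_mul_of_nonneg_right (le_max_left _ _)
      (Real.rpow_nonneg (abs_nonneg _) _))) (g2 i) e4
  have hcan := cantor (s := 1 - 6 * (K * q)) (by linarith) (by linarith) (show (a:ℝ) < b from e2)
    hU
  refine hcan.trans ?_
  have hsub : {x : ℝ | x ∈ Set.Icc (a:ℝ) b ∧ ∃ᶠ j in atTop, x ∈ Fk ((1/2) ^ j) (tf θ q j) p} ⊆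
      Subtype.val '' {u : unitInterval | (s ≤ u ∧ u ≤ t) ∧
        ∃ᶠ j : ℕ in atTop, ∃ v : unitInterval, p.2 * |(v : ℝ) - u| ≤ tf θ q j ∧
          (1/2) ^ j / 2 ≤ dist (p.1 v) (p.1 u)} := by
    rintro x ⟨hx1, hx2⟩
    refine ⟨⟨x, a.2.1.trans hx1.1, hx1.2.trans b.2.2⟩, ⟨⟨?_, ?_⟩, ?_⟩, rfl⟩
    · exact e1.trans (show (a : ℝ) ≤ x from hx1.1)
    · exact le_trans (show x ≤ (b : ℝ) from hx1.2) e3
    · refine hx2.mono fun j hj => ?_
      obtain ⟨v, hv1, hv2⟩ := hj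
      have : v = ⟨x, a.2.1.trans hx1.1, hx1.2.trans b.2.2⟩ := Subtype.ext hv2
      rw [← this]
      exact hv1
  refine (dimH_mono hsub).trans (le_of_eq ?_)
  exact isometry_subtype_coe.dimH_image _

end Pool.Agent.Y995.TP
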