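import Pool.Agent.Y995.TP.DimUp

/-!
General forms of the two dimension bounds.
-/

set_option autoImplicit false
set_option linter.unusedVariables false

namespace Pool.Agent.Y995.TP

open MeasureTheory Filter Topology
open scoped ENNReal NNReal

/-- If every piece of length `H j` contains enough cells of `A j`, then `A` is ubiquitous. -/
theorem ubi_gen {a b : ℝ} (ha : 0 ≤ a) {A : ℕ → Set ℝ} {H r l0 : ℕ → ℝ} (hH : ∀ j, 0 < H j)
    (hr : ∀ j, 0 < r j) (hl0 : ∀ j, 0 < l0 j) {s : ℝ} (hs0 : 0 ≤ s) (hs : s ≤ 1)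
    (hlim : Tendsto H atTop (𝓝 0))
    (hstar : ∀ L : ℝ, 0 < L → ∀ᶠ j in atTop,
      100 * ((H j / L) ^ (1 - s) * (H j / (4 * r j))) ≤ 1)
    (hpc : ∀ᶠ j in atTop, ∀ x y : ℝ, a ≤ x → y ≤ b → y - x = H j → ∀ l : ℝ, 0 < l → l ≤ l0 j →
      ∀ n : ℕ, (n : ℝ) + 2 ≤ 2 * r j / l → ∃ Q : Finset ℕ, Q.card = n ∧
        ∀ k ∈ Q, cell l k ⊆ Set.Icc x y ∩ A j) : Ubi s A a b := by
  classical
  intro x y hax hxy hyb j0
  obtain ⟨L, hL⟩ : ∃ L, L = y - x := ⟨_, rfl⟩
  have hL0 : 0 < L := by rw [hL]; linarith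
  obtain ⟨j, ⟨⟨h1, h2⟩, h3⟩, h4⟩ := (((hpc.and (hstar L hL0)).and
    (hlim.eventually (gt_mem_nhds (show 0 < L / 2 by positivity)))).and
      (eventually_ge_atTop j0)).exists
  have hH0 := hH j
  have hr0 := hr j
  have hHL : H j ≤ L / 2 := h3.le
  obtain ⟨l, hl⟩ : ∃ l, l = min (l0 j) (min (r j / 4) (H j)) := ⟨_, rfl⟩
  have hl0' : 0 < l := by
    rw [hl]
    exact lt_min (hl0 j) (lt_min (by positivity) hH0)
  have hl1 : l ≤ l0 j := by rw [hl]; exact min_le_left _ _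
  have hl2 : l ≤ r j / 4 := by rw [hl]; exact (min_le_right _ _).trans (min_le_left _ _)
  have hl3 : l ≤ H j := by rw [hl]; exact (min_le_right _ _).trans (min_le_right _ _)
  obtain ⟨n, hn⟩ : ∃ n, n = ⌈r j / l⌉₊ := ⟨_, rfl⟩
  have hn1 : r j / l ≤ n := by rw [hn]; exact Nat.le_ceil _
  have hn2 : (n : ℝ) < r j / l + 1 := by rw [hn]; exact Nat.ceil_lt_add_one (by positivity)
  have hn3 : (n : ℝ) + 2 ≤ 2 * r j / l := by
    have e : 2 * r j / l = 2 * (r j / l) := by ring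
    have h5 : 4 ≤ r j / l := by rw [le_div_iff₀ hl0']; linarith
    rw [e]
    linarith
  obtain ⟨M, hM⟩ : ∃ M, M = ⌊L / H j⌋₊ := ⟨_, rfl⟩
  have hM2 : (M : ℝ) * H j ≤ L := by
    rw [← le_div_iff₀ hH0, hM]; exact Nat.floor_le (by positivity)
  have hM1 : L / (2 * H j) ≤ M := by
    have h5 : L / H j < M + 1 := by rw [hM]; exact Nat.lt_floor_add_one _
    have h6 : 2 ≤ L / H j := by rw [le_div_iff₀ hH0]; linarith
    have e : L / (2 * H j) = L / H j / 2 := by field_simp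
    rw [e]
    linarith
  have hpc' : ∀ i : ℕ, i < M → ∃ Q : Finset ℕ, Q.card = n ∧
      ∀ k ∈ Q, cell l k ⊆ Set.Icc (x + i * H j) (x + (i + 1) * H j) ∩ A j := by
    intro i hi
    have hiM : ((i : ℝ) + 1) ≤ M := by exact_mod_cast hi
    have hiH : ((i : ℝ) + 1) * H j ≤ M * H j := mul_le_mul_of_nonneg_right hiM hH0.le
    have hiH0 : 0 ≤ (i : ℝ) * H j := by positivity
    exact h1 _ _ (by linarith) (by linarith) (by ring) l hl0' hl1 n hn3
  choose! q hq1 hq2 using hpc'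
  obtain ⟨k1, k2, k3⟩ := pieces (x := x) (L := L) (s := s) hH0 hHL hl0' hl3 hs0 hs hM1 hM2 hr0 hn1
    h2 (q := q)
    (fun i hi => ⟨hq1 i hi, fun k hk => (hq2 i hi k hk).trans Set.inter_subset_left⟩)
  refine ⟨j, h4, l, (Finset.range M).biUnion q, hl0', ?_, ?_, ?_, ?_⟩
  · rw [← hL]; linarith
  · intro k hk
    rw [Finset.mem_biUnion] at hk
    obtain ⟨i, hi, hki⟩ := hk
    have hi' := Finset.mem_range.1 hi
    have hiM : ((i : ℝ) + 1) ≤ M := by exact_mod_cast hi'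
    have hiH : ((i : ℝ) + 1) * H j ≤ M * H j := mul_le_mul_of_nonneg_right hiM hH0.le
    have hiH0 : 0 ≤ (i : ℝ) * H j := by positivity
    intro v hv
    have h5 := hq2 i hi' k hki hv
    refine ⟨h5.2, ?_, ?_⟩
    · have := h5.1.1
      linarith
    · have := h5.1.2
      linarith
  · rw [← hL]; exact k2
  · rw [← hL]; exact k3

/-- Sets of times which have neighbourhoods in small sets. -/
theorem dim_nbhd {T : ℝ} (hT : 0 < T) {E : Set unitInterval} {V : ℕ → Set unitInterval} {m0 : ℕ}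
    (hm2 : 0 < m0) {lam : ℝ} (hlam : 0 < lam) (hlam1 : lam ≤ 1)
    (hV : ∀ᶠ j : ℕ in atTop, T * (volume (V j)).toReal ≤ Real.exp (-(lam * j / 2)))
    (hE : ∀ u ∈ E, ∃ᶠ j : ℕ in atTop, ∀ y : unitInterval,
      |(u : ℝ) - y| ≤ 1 / (m0 * 4 ^ j) → y ∈ V j) :
    dimH E ≤ ENNReal.ofReal (1 - lam / 4) := by
  classical
  have hm3 : (0:ℝ) < m0 := by exact_mod_cast hm2
  obtain ⟨M, hM⟩ : ∃ M : ℕ → ℕ, M = fun j => m0 * 4 ^ j := ⟨_, rfl⟩
  have hMp : ∀ j, 0 < M j := by intro j; rw [hM]; positivity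
  have hMp' : ∀ j, (0:ℝ) < M j := fun j => by exact_mod_cast hMp j
  have hMv : ∀ j, (M j : ℝ) = m0 * 4 ^ j := by intro j; rw [hM]; push_cast; ring
  obtain ⟨μ, hμ⟩ : ∃ μ : ℕ → ℝ, μ = fun j => 1 / (M j : ℝ) := ⟨_, rfl⟩
  have hμv : ∀ j, μ j = 1 / (M j : ℝ) := by intro j; rw [hμ]
  have hμ0 : ∀ j, 0 < μ j := by intro j; rw [hμv]; have := hMp' j; positivity
  obtain ⟨Q, hQ⟩ : ∃ Q : ℕ → Finset ℕ, Q = fun j => (Finset.range (M j)).filter
    (fun k => cell (μ j) k ⊆ Subtype.val '' (V j)) := ⟨_, rfl⟩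
  have hQm : ∀ j k, k ∈ Q j ↔ k < M j ∧ cell (μ j) k ⊆ Subtype.val '' (V j) := by
    intro j k
    rw [hQ]
    simp only [Finset.mem_filter, Finset.mem_range]
  have hlim : Tendsto μ atTop (𝓝 0) := by
    have h1 : Tendsto (fun j : ℕ => 1 / (m0 : ℝ) * (1/4) ^ j) atTop (𝓝 0) := by
      have h2 : Tendsto (fun j : ℕ => ((1:ℝ)/4) ^ j) atTop (𝓝 0) :=
        tendsto_pow_atTop_nhds_zero_of_lt_one (by norm_num) (by norm_num)
      have := h2.const_mul (1 / (m0 : ℝ))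
      rwa [mul_zero] at this
    refine h1.congr fun j => ?_
    rw [hμv, hMv, div_pow, one_pow]
    field_simp
  have hanti : Antitone μ := by
    intro i j hij
    rw [hμv, hμv]
    refine one_div_le_one_div_of_le (hMp' i) ?_
    rw [hMv, hMv]
    refine mul_le_mul_of_nonneg_left ?_ hm3.le
    exact pow_le_pow_right₀ (by norm_num) hij
  have key := dim_limsup (E := Subtype.val '' E) (s := 1 - lam / 4) (by linarith) hμ0 hanti
    hlim (Q := Q) ?_ (g := fun j => 1 / T * (m0 : ℝ) ^ (lam / 4) * (Real.exp (-(lam / 10))) ^ j)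
    ?_ ?_
  · rw [isometry_subtype_coe.dimH_image] at key
    exact key
  · rintro _ ⟨u, hu, rfl⟩
    refine (hE u hu).mono fun j hj => ?_
    obtain ⟨k, hk, hku⟩ := cell_mem u.2.1 u.2.2 (hMp j)
    rw [← hμv] at hku
    refine ⟨k, ?_, hku⟩
    rw [hQm]
    refine ⟨hk, fun y hy => ?_⟩
    have hk' : ((k : ℝ) + 1) ≤ M j := by exact_mod_cast hk
    have hy0 : 0 ≤ y := le_trans (by have := hμ0 j; positivity) hy.1
    have hy1 : y ≤ 1 := by
      refine hy.2.trans ?_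
      have := mul_le_mul_of_nonneg_right hk' (hμ0 j).le
      refine this.trans (le_of_eq ?_)
      rw [hμv, mul_one_div, div_self (hMp' j).ne']
    refine ⟨⟨y, hy0, hy1⟩, hj _ ?_, rfl⟩
    rw [← hMv, ← hμv]
    show |(u : ℝ) - y| ≤ μ j
    rw [abs_le]
    have a1 := hku.1
    have a2 := hku.2
    have a3 := hy.1
    have a4 := hy.2
    constructor <;> nlinarith
  · refine (summable_geometric_of_lt_one (Real.exp_nonneg _) ?_).mul_left _
    rw [Real.exp_lt_one_iff]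
    linarith
  · filter_upwards [hV] with j h1
    have h4 : (volume (Subtype.val '' (V j) : Set ℝ)).toReal ≤
        1 / T * Real.exp (-(lam * j / 2)) := by
      rw [vol_val, one_div_mul_eq_div, le_div_iff₀ hT, mul_comm]
      exact h1
    have h5 := cells_vol (hμ0 j) (by rw [vol_val]; exact measure_ne_top _ _)
      (fun k hk => ((hQm j k).1 hk).2)
    have e1 : μ j ^ (1 - lam / 4) = μ j * (M j : ℝ) ^ (lam / 4) := by
      rw [Real.rpow_sub (hμ0 j), Real.rpow_one, div_eq_mul_inv, ← Real.inv_rpow (hμ0 j).le,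
        hμv, one_div, inv_inv]
    have e2 : (M j : ℝ) ^ (lam / 4) = (m0 : ℝ) ^ (lam / 4) * Real.exp (Real.log 4 * j * (lam / 4)) := by
      rw [hMv, Real.mul_rpow hm3.le (by positivity)]
      congr 1
      rw [Real.exp_mul, mul_comm (Real.log 4), Real.exp_nat_mul, Real.exp_log (by norm_num)]
    have hlog4 : Real.log 4 ≤ 139/100 := by
      have : Real.log 4 = 2 * Real.log 2 := by
        rw [show (4:ℝ) = 2 ^ 2 by norm_num, Real.log_pow]; norm_num
      rw [this]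
      have := Real.log_two_lt_d9
      linarith
    have hexp : Real.exp (-(lam * j / 2)) * Real.exp (Real.log 4 * j * (lam / 4)) ≤
        (Real.exp (-(lam / 10))) ^ j := by
      rw [← Real.exp_add, ← Real.exp_nat_mul]
      refine Real.exp_le_exp.mpr ?_
      have h6 : (0:ℝ) ≤ j * lam := by positivity
      nlinarith
    rw [e1]
    calc ((Q j).card : ℝ) * (μ j * (M j : ℝ) ^ (lam / 4))
        = ((Q j).card : ℝ) * μ j * (M j : ℝ) ^ (lam / 4) := by ring
      _ ≤ (1 / T * Real.exp (-(lam * j / 2))) * (M j : ℝ) ^ (lam / 4) :=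
          mul_le_mul_of_nonneg_right (h5.trans h4) (by positivity)
      _ = 1 / T * (m0 : ℝ) ^ (lam / 4) *
          (Real.exp (-(lam * j / 2)) * Real.exp (Real.log 4 * j * (lam / 4))) := by rw [e2]; ring
      _ ≤ _ := mul_le_mul_of_nonneg_left hexp (by positivity)

end Pool.Agent.Y995.TP
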