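import Pool.Agent.Y995.TP.Count
import Pool.Agent.Y995.HG.LimM

/-!
Thick times: cells of slow places inside every interval.
-/

set_option autoImplicit false
set_option linter.unusedVariables false

namespace Pool.Agent.Y995.TP

open H974 Finset H342P H984P H984N Pool.Agent.Y995.FS Pool.Agent.Y995.HG
open MeasureTheory Filter Topology
open scoped ENNReal NNReal

theorem cells_in {V : Set ℝ} {a b l v : ℝ} (hl : 0 < l) (hV : V ⊆ Set.Icc a b) (ha : 0 ≤ a)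
    (hv : v ≤ (volume V).toReal) (n : ℕ) (hn : (n : ℝ) + 2 ≤ v / l) :
    ∃ Q : Finset ℕ, Q.card = n ∧ ∀ k ∈ Q, cell l k ⊆ Set.Icc a b ∧ (cell l k ∩ V).Nonempty := by
  classical
  obtain ⟨Q0, hQ0⟩ : ∃ Q0 : Finset ℕ, Q0 = (Finset.range (⌊b / l⌋₊ + 1)).filter
    (fun k => cell l k ⊆ Set.Icc a b ∧ (cell l k ∩ V).Nonempty) := ⟨_, rfl⟩
  have hcov : V ⊆ (⋃ k ∈ Q0, cell l k) ∪ (Set.Icc a (a + l) ∪ Set.Icc (b - l) b) := by
    intro u hu
    have hab := hV hu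
    by_cases h1 : u ≤ a + l
    · right; left; exact ⟨hab.1, h1⟩
    by_cases h2 : b - l ≤ u
    · right; right; exact ⟨h2, hab.2⟩
    push Not at h1 h2
    left
    have hu0 : 0 ≤ u := ha.trans hab.1
    obtain ⟨k, hk⟩ : ∃ k, k = ⌊u / l⌋₊ := ⟨_, rfl⟩
    have hk1 : (k : ℝ) * l ≤ u := by
      rw [← le_div_iff₀ hl, hk]; exact Nat.floor_le (by positivity)
    have hk2 : u < ((k : ℝ) + 1) * l := by
      rw [← div_lt_iff₀ hl, hk]; exact Nat.lt_floor_add_one _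
    have hkc : u ∈ cell l k := ⟨hk1, hk2.le⟩
    rw [Set.mem_iUnion₂]
    refine ⟨k, ?_, hkc⟩
    rw [hQ0, Finset.mem_filter, Finset.mem_range]
    refine ⟨?_, ?_, u, hkc, hu⟩
    · rw [hk]
      exact Nat.lt_succ_of_le (Nat.floor_le_floor (div_le_div_of_nonneg_right hab.2 hl.le))
    · intro x hx
      have h3 := hx.1
      have h4 := hx.2
      exact ⟨by linarith, by linarith⟩
  have hvol : volume V ≤ ENNReal.ofReal ((Q0.card : ℝ) * l + 2 * l) := by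
    refine (measure_mono hcov).trans ((measure_union_le _ _).trans ?_)
    have h1 : volume (⋃ k ∈ Q0, cell l k) ≤ ENNReal.ofReal ((Q0.card : ℝ) * l) := by
      refine (measure_biUnion_finset_le _ _).trans ?_
      have : ∀ k ∈ Q0, volume (cell l k) ≤ ENNReal.ofReal l := by
        intro k hk
        unfold cell
        rw [Real.volume_Icc]
        refine ENNReal.ofReal_le_ofReal (le_of_eq ?_)
        ring
      refine (Finset.sum_le_sum this).trans ?_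
      rw [Finset.sum_const, nsmul_eq_mul, ← ENNReal.ofReal_natCast,
        ← ENNReal.ofReal_mul (Nat.cast_nonneg _)]
    have h2 : volume (Set.Icc a (a + l) ∪ Set.Icc (b - l) b) ≤ ENNReal.ofReal (2 * l) := by
      refine (measure_union_le _ _).trans ?_
      rw [Real.volume_Icc, Real.volume_Icc, ← ENNReal.ofReal_add (by linarith) (by linarith)]
      refine ENNReal.ofReal_le_ofReal (le_of_eq ?_)
      ring
    rw [ENNReal.ofReal_add (by positivity) (by positivity)]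
    exact add_le_add h1 h2
  have h3 : (volume V).toReal ≤ (Q0.card : ℝ) * l + 2 * l := by
    have := ENNReal.toReal_mono ENNReal.ofReal_ne_top hvol
    rwa [ENNReal.toReal_ofReal (by positivity)] at this
  have h4 : v / l ≤ (Q0.card : ℝ) + 2 := by
    rw [div_le_iff₀ hl]
    linarith
  have h5 : n ≤ Q0.card := by
    have : (n : ℝ) ≤ Q0.card := by linarith
    exact_mod_cast this
  obtain ⟨Q, hQ, hQc⟩ := Finset.exists_subset_card_eq h5
  refine ⟨Q, hQc, fun k hk => ?_⟩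
  have := hQ hk
  rw [hQ0, Finset.mem_filter] at this
  exact this.2

theorem vol_val (V : Set unitInterval) : volume (Subtype.val '' V : Set ℝ) = volume V := by
  rw [Measure.Subtype.volume_def, comap_subtype_coe_apply measurableSet_Icc]

/-- thick times at scale `w` -/
def Tk (w τ : ℝ) (p : X) : Set ℝ :=
  Subtype.val '' {u : unitInterval |
    τ ≤ p.2 * (volume {v : unitInterval | dist (p.1 v) (p.1 u) ≤ 5 * w}).toReal}

/-- cells of thick times inside a piece -/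
theorem piece_cells {R : Rect} {p : X} (hp : 0 < p.2) {Λ : ℝ} (hΛ : 0 < Λ)
    (hH : ∀ s t : unitInterval, dist (p.1 s) (p.1 t) ≤ Λ * |(s : ℝ) - t| ^ (1/2 : ℝ))
    {ρ w τ h : ℝ} {N : ℕ} (hN : 0 < N) (hw : 0 < w) (hτ : 0 < τ)
    (hbad : p ∉ BadN R ρ w τ h N) {a b l : ℝ} (ha : 0 ≤ a) (hab : a ≤ b) (hb : b ≤ 1)
    (hdep : ∀ u : unitInterval, a ≤ u → (u : ℝ) ≤ b → ρ < dep R (p.1 u))
    (hlen : h < p.2 * (b - a)) (hl : 0 < l) (hl1 : l ≤ (w / Λ) ^ 2) {n : ℕ}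
    (hn : (n : ℝ) + 2 ≤ τ / p.2 / l) :
    ∃ Q : Finset ℕ, Q.card = n ∧ ∀ k ∈ Q, cell l k ⊆ Set.Icc a b ∩ Tk w τ p := by
  obtain ⟨s, hs⟩ : ∃ s : unitInterval, s = ⟨a, ha, hab.trans hb⟩ := ⟨_, rfl⟩
  obtain ⟨t, ht⟩ : ∃ t : unitInterval, t = ⟨b, ha.trans hab, hb⟩ := ⟨_, rfl⟩
  have hsv : (s : ℝ) = a := by rw [hs]
  have htv : (t : ℝ) = b := by rw [ht]
  have hz : ∃ z : Fin N → ℂ, (∀ i, ‖z i‖ ≤ rad R) ∧ (∀ i j, i ≠ j → 8 * w ≤ dist (z i) (z j)) ∧
      ∀ i, τ ≤ p.2 * Jo w s t p.1 (z i) := by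
    by_contra hcon
    apply hbad
    refine ⟨s, t, fun u h1 h2 => ?_, ?_, hcon⟩
    · refine hdep u ?_ ?_
      · rw [← hsv]; exact h1
      · rw [← htv]; exact h2
    · rw [hsv, htv]; exact hlen
  obtain ⟨z, -, -, hz3⟩ := hz
  have h1 := hz3 ⟨0, hN⟩
  obtain ⟨z0, hz0⟩ : ∃ z0, z0 = z ⟨0, hN⟩ := ⟨_, rfl⟩
  rw [← hz0] at h1
  obtain ⟨V, hV⟩ : ∃ V : Set unitInterval, V = {u : unitInterval | (s ≤ u ∧ u ≤ t) ∧
    dist (p.1 u) z0 ≤ 2 * w} := ⟨_, rfl⟩
  have h2 : τ ≤ p.2 * (volume V).toReal := by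
    refine h1.trans (mul_le_mul_of_nonneg_left ?_ hp.le)
    rw [hV]
    exact Jo_le hw s t p.1 z0
  have h3 : τ / p.2 ≤ (volume (Subtype.val '' V : Set ℝ)).toReal := by
    rw [vol_val, div_le_iff₀ hp, mul_comm]
    exact h2
  obtain ⟨Q, hQc, hQ⟩ := cells_in hl (V := (Subtype.val '' V : Set ℝ)) (a := a) (b := b) (by
    rintro _ ⟨u, hu, rfl⟩
    rw [hV] at hu
    exact ⟨by rw [← hsv]; exact hu.1.1, by rw [← htv]; exact hu.1.2⟩) ha h3 n hn
  refine ⟨Q, hQc, fun k hk x hx => ?_⟩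
  obtain ⟨c1, v, hv1, v', hv2, rfl⟩ := hQ k hk
  have hxab := c1 hx
  refine ⟨hxab, ⟨x, ha.trans hxab.1, hxab.2.trans hb⟩, ?_, rfl⟩
  obtain ⟨x', hx'⟩ : ∃ x' : unitInterval, x' = ⟨x, ha.trans hxab.1, hxab.2.trans hb⟩ := ⟨_, rfl⟩
  rw [← hx']
  have hxv : (x' : ℝ) = x := by rw [hx']
  refine h2.trans (mul_le_mul_of_nonneg_left ?_ hp.le)
  refine ENNReal.toReal_mono (measure_ne_top _ _) (measure_mono ?_)
  intro y hy
  rw [hV] at hy hv2
  have d1 : |(v' : ℝ) - x'| ≤ l := by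
    rw [hxv, abs_le]
    have a1 := hx.1
    have a2 := hx.2
    have a3 := hv1.1
    have a4 := hv1.2
    constructor <;> nlinarith
  have d2 : |(v' : ℝ) - x'| ^ (1/2 : ℝ) ≤ w / Λ := by
    have h4 : |(v' : ℝ) - x'| ^ (1/2 : ℝ) ≤ ((w / Λ) ^ 2) ^ (1/2 : ℝ) :=
      Real.rpow_le_rpow (abs_nonneg _) (d1.trans hl1) (by norm_num)
    refine h4.trans (le_of_eq ?_)
    rw [← Real.rpow_natCast (w / Λ) 2, ← Real.rpow_mul (by positivity)]
    norm_num
  have d3 : dist (p.1 v') (p.1 x') ≤ w := by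
    refine (hH v' x').trans ?_
    calc Λ * |(v' : ℝ) - x'| ^ (1/2 : ℝ) ≤ Λ * (w / Λ) := mul_le_mul_of_nonneg_left d2 hΛ.le
      _ = w := by field_simp
  have d4 := hy.2
  have d5 := hv2.2
  show dist (p.1 y) (p.1 x') ≤ 5 * w
  have t1 := dist_triangle (p.1 y) z0 (p.1 x')
  have t2 := dist_triangle z0 (p.1 v') (p.1 x')
  rw [dist_comm z0 (p.1 v')] at t2
  linarith

/-- every interval contains many cells of thick times -/
theorem ubi {R : Rect} {p : X} (hp : 0 < p.2) {Λ : ℝ} (hΛ : 0 < Λ)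
    (hH : ∀ s t : unitInterval, dist (p.1 s) (p.1 t) ≤ Λ * |(s : ℝ) - t| ^ (1/2 : ℝ))
    {ρ : ℝ} {w τ h : ℕ → ℝ} {N : ℕ → ℕ} (hN : ∀ j, 0 < N j) (hw : ∀ j, 0 < w j)
    (hτ : ∀ j, 0 < τ j) (hh : ∀ j, 0 < h j)
    (hbad : ∀ᶠ j in atTop, p ∉ BadN R ρ (w j) (τ j) (h j) (N j)) {s : ℝ} (hs0 : 0 ≤ s)
    (hs : s ≤ 1) (hlim : Tendsto h atTop (𝓝 0))
    (hstar : ∀ c : ℝ, 0 < c → ∀ᶠ j in atTop, 100 * ((c * h j) ^ (1 - s) * (h j / τ j)) ≤ 1)
    {a b : unitInterval} (hdep : ∀ u : unitInterval, a ≤ u → u ≤ b → ρ < dep R (p.1 u)) :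
    Ubi s (fun j => Tk (w j) (τ j) p) a b := by
  classical
  intro x y hax hxy hyb j0
  obtain ⟨L, hL⟩ : ∃ L, L = y - x := ⟨_, rfl⟩
  have hL0 : 0 < L := by rw [hL]; linarith
  have hx0 : 0 ≤ x := a.2.1.trans hax
  have hy1 : y ≤ 1 := hyb.trans b.2.2
  obtain ⟨j, ⟨⟨h1, h2⟩, h3⟩, h4⟩ := (((hbad.and (hstar (2 / (p.2 * L)) (by positivity))).and
    (hlim.eventually (gt_mem_nhds (show 0 < p.2 * L / 4 by positivity)))).and
      (eventually_ge_atTop j0)).exists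
  obtain ⟨H, hHd⟩ : ∃ H, H = 2 * h j / p.2 := ⟨_, rfl⟩
  have hH0 : 0 < H := by rw [hHd]; have := hh j; positivity
  have hHL : H ≤ L / 2 := by
    rw [hHd, div_le_iff₀ hp]
    linarith
  obtain ⟨r, hr⟩ : ∃ r, r = τ j / (2 * p.2) := ⟨_, rfl⟩
  have hr0 : 0 < r := by rw [hr]; have := hτ j; positivity
  obtain ⟨l, hl⟩ : ∃ l, l = min ((w j / Λ) ^ 2) (min (r / 4) H) := ⟨_, rfl⟩
  have hl0 : 0 < l := by
    rw [hl]
    have := hw j
    exact lt_min (by positivity) (lt_min (by positivity) hH0)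
  have hl1 : l ≤ (w j / Λ) ^ 2 := by rw [hl]; exact min_le_left _ _
  have hl2 : l ≤ r / 4 := by rw [hl]; exact (min_le_right _ _).trans (min_le_left _ _)
  have hl3 : l ≤ H := by rw [hl]; exact (min_le_right _ _).trans (min_le_right _ _)
  obtain ⟨n, hn⟩ : ∃ n, n = ⌈r / l⌉₊ := ⟨_, rfl⟩
  have hn1 : r / l ≤ n := by rw [hn]; exact Nat.le_ceil _
  have hn2 : (n : ℝ) < r / l + 1 := by rw [hn]; exact Nat.ceil_lt_add_one (by positivity)
  have hn3 : (n : ℝ) + 2 ≤ τ j / p.2 / l := by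
    have e : τ j / p.2 / l = 2 * (r / l) := by rw [hr]; field_simp
    have h5 : 4 ≤ r / l := by rw [le_div_iff₀ hl0]; linarith
    rw [e]
    linarith
  obtain ⟨M, hM⟩ : ∃ M, M = ⌊L / H⌋₊ := ⟨_, rfl⟩
  have hM2 : (M : ℝ) * H ≤ L := by
    rw [← le_div_iff₀ hH0, hM]; exact Nat.floor_le (by positivity)
  have hM1 : L / (2 * H) ≤ M := by
    have h5 : L / H < M + 1 := by rw [hM]; exact Nat.lt_floor_add_one _
    have h6 : 2 ≤ L / H := by rw [le_div_iff₀ hH0]; linarith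
    have e : L / (2 * H) = L / H / 2 := by field_simp
    rw [e]
    linarith
  have hpc : ∀ i : ℕ, i < M → ∃ Q : Finset ℕ, Q.card = n ∧
      ∀ k ∈ Q, cell l k ⊆ Set.Icc (x + i * H) (x + (i + 1) * H) ∩ Tk (w j) (τ j) p := by
    intro i hi
    have hiM : ((i : ℝ) + 1) ≤ M := by exact_mod_cast hi
    have hiH : ((i : ℝ) + 1) * H ≤ M * H := mul_le_mul_of_nonneg_right hiM hH0.le
    have hiH0 : 0 ≤ (i : ℝ) * H := by positivity
    refine piece_cells hp hΛ hH (hN j) (hw j) (hτ j) h1 (by linarith) (by nlinarith)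
      (by linarith) (fun u hu1 hu2 => ?_) ?_ hl0 hl1 hn3
    · refine hdep u ?_ ?_
      · show (a : ℝ) ≤ u
        linarith
      · show (u : ℝ) ≤ b
        linarith
    · have e : p.2 * (x + (i + 1) * H - (x + i * H)) = 2 * h j := by
        rw [hHd]; field_simp; ring
      rw [e]
      have := hh j
      linarith
  choose! q hq1 hq2 using hpc
  obtain ⟨k1, k2, k3⟩ := pieces (x := x) (L := L) (s := s) hH0 hHL hl0 hl3 hs0 hs hM1 hM2 hr0 hn1
    (by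
      refine le_trans (le_of_eq ?_) h2
      have := hτ j
      congr 2
      · congr 1
        rw [hHd]; field_simp
      · rw [hHd, hr]; field_simp; ring)
    (q := q) (fun i hi => ⟨hq1 i hi, fun k hk => (hq2 i hi k hk).trans Set.inter_subset_left⟩)
  refine ⟨j, h4, l, (Finset.range M).biUnion q, hl0, ?_, ?_, ?_, ?_⟩
  · rw [← hL]; linarith
  · intro k hk
    rw [Finset.mem_biUnion] at hk
    obtain ⟨i, hi, hki⟩ := hk
    have hi' := Finset.mem_range.1 hi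
    have hiM : ((i : ℝ) + 1) ≤ M := by exact_mod_cast hi'
    have hiH : ((i : ℝ) + 1) * H ≤ M * H := mul_le_mul_of_nonneg_right hiM hH0.le
    have hiH0 : 0 ≤ (i : ℝ) * H := by positivity
    intro v hv
    have h5 := hq2 i hi' k hki hv
    refine ⟨h5.2, ?_, ?_⟩
    · have := h5.1.1
      linarith
    · have := h5.1.2
      linarith
  · rw [← hL]; exact k2
  · rw [← hL]; exact k3

end Pool.Agent.Y995.TP
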